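import Mathlib

set_option autoImplicit false

open Finset intervalIntegral

namespace Pool.Agent.MP_f6b137_pr.H26

lemma mvt_abs {f f' : ℝ → ℝ} (hf : ∀ x, HasDerivAt f (f' x) x) {a b Y : ℝ}
    (hY : ∀ x ∈ Set.Icc a b, |f' x| ≤ Y) {x z : ℝ} (hx : x ∈ Set.Icc a b) (hz : z ∈ Set.Icc a b)
    (h0 : f z = 0) : |f x| ≤ Y * (b - a) := by
  have h := (convex_Icc a b).norm_image_sub_le_of_norm_hasDerivWithin_le (f := f) (C := Y)
    (fun t _ => (hf t).hasDerivWithinAt) hY hz hx
  rw [h0, sub_zero, Real.norm_eq_abs, Real.norm_eq_abs] at h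
  have h1 : 0 ≤ Y := (abs_nonneg _).trans (hY x hx)
  refine h.trans (mul_le_mul_of_nonneg_left (abs_le.2 ⟨?_, ?_⟩) h1) <;>
    linarith [hx.1, hx.2, hz.1, hz.2]

lemma rolle_iter (F : ℕ → ℝ → ℝ) (hF : ∀ j x, HasDerivAt (F j) (F (j + 1) x) x) (a b Y : ℝ)
    (D j : ℕ) (s : Finset ℝ) (hs : ∀ z ∈ s, z ∈ Set.Icc a b ∧ F j z = 0) (hc : D ≤ s.card)
    (hY : ∀ x ∈ Set.Icc a b, |F (j + D) x| ≤ Y) :
    ∀ x ∈ Set.Icc a b, |F j x| ≤ Y * (b - a) ^ D := by
  classical
  induction D generalizing j s with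
  | zero => simpa using hY
  | succ D ih =>
    have hex : ∀ p : ℝ × ℝ, ∃ z, p.1 ∈ s → p.2 ∈ s → p.1 < p.2 →
        z ∈ Set.Ioo p.1 p.2 ∧ F (j + 1) z = 0 := by
      intro p
      by_cases h : p.1 ∈ s ∧ p.2 ∈ s ∧ p.1 < p.2
      · obtain ⟨z, hz⟩ := exists_hasDerivAt_eq_zero h.2.2
          (fun x _ => (hF j x).continuousAt.continuousWithinAt)
          ((hs _ h.1).2.trans (hs _ h.2.1).2.symm) (fun x _ => hF j x)
        exact ⟨z, fun _ _ _ => hz⟩
      · exact ⟨0, fun h1 h2 h3 => absurd ⟨h1, h2, h3⟩ h⟩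
    choose g hg using hex
    let t := ((s ×ˢ s).filter (fun p => p.1 < p.2)).image g
    have h1 : s.card ≤ t.card + 1 := Finset.card_le_of_interleaved (fun x hx y hy hxy _ =>
      ⟨g (x, y), Finset.mem_image_of_mem _ (Finset.mem_filter.2 ⟨Finset.mk_mem_product hx hy, hxy⟩),
        (hg (x, y) hx hy hxy).1⟩)
    have h2 := ih (j + 1) t (fun z hz => by
      obtain ⟨p, hp, rfl⟩ := Finset.mem_image.1 hz
      obtain ⟨hp1, hp2⟩ := Finset.mem_filter.1 hp
      obtain ⟨hp3, hp4⟩ := Finset.mem_product.1 hp1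
      obtain ⟨b1, b2⟩ := hg p hp3 hp4 hp2
      exact ⟨⟨(hs _ hp3).1.1.trans b1.1.le, b1.2.le.trans (hs _ hp4).1.2⟩, b2⟩) (by omega)
      (by rw [add_assoc, add_comm 1 D]; exact hY)
    obtain ⟨z, hz⟩ := Finset.card_pos.1 (by omega : 0 < s.card)
    intro x hx
    rw [pow_succ, ← mul_assoc]
    exact mvt_abs (hF j) h2 hx (hs z hz).1 (hs z hz).2

lemma sq_diff {G g : ℝ → ℝ} (hG : ∀ x, HasDerivAt G (g x) x) (hg : Continuous g) {a b u v : ℝ}
    (hu : u ∈ Set.Icc a b) (hv : v ∈ Set.Icc a b) :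
    (G u - G v) ^ 2 ≤ (b - a) * ∫ x in a..b, g x ^ 2 := by
  have key : ∀ u v, u ∈ Set.Icc a b → v ∈ Set.Icc a b → u < v →
      (G u - G v) ^ 2 ≤ (b - a) * ∫ x in a..b, g x ^ 2 := by
    intro u v hu hv huv
    have h1 : ∫ x in u..v, g x = G v - G u :=
      integral_eq_sub_of_hasDerivAt (fun x _ => hG x) (hg.intervalIntegrable _ _)
    set l := (G v - G u) / (v - u) with hl
    have hd : 0 < v - u := by linarith
    have h2 : 0 ≤ ∫ x in u..v, (g x ^ 2 - 2 * l * g x + l ^ 2) :=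
      integral_nonneg huv.le (fun x _ => by nlinarith [sq_nonneg (g x - l)])
    rw [integral_add (Continuous.intervalIntegrable (by fun_prop) _ _)
      (Continuous.intervalIntegrable (by fun_prop) _ _),
      integral_sub (Continuous.intervalIntegrable (by fun_prop) _ _)
      (Continuous.intervalIntegrable (by fun_prop) _ _), integral_const_mul, h1, integral_const,
      smul_eq_mul] at h2
    have h3 : ∫ x in u..v, g x ^ 2 ≤ ∫ x in a..b, g x ^ 2 :=
      integral_mono_interval hu.1 huv.le hv.2 (Filter.Eventually.of_forall (fun _ => sq_nonneg _))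
        (Continuous.intervalIntegrable (by fun_prop) _ _)
    have h4 : G v - G u = l * (v - u) := by rw [hl]; field_simp
    have h5 : l ^ 2 * (v - u) ≤ ∫ x in a..b, g x ^ 2 := by rw [h4] at h2; nlinarith
    have h6 : (G u - G v) ^ 2 = (v - u) * (l ^ 2 * (v - u)) := by
      rw [← neg_sub, neg_sq, h4]; ring
    rw [h6]
    exact mul_le_mul (by linarith [hu.1, hv.2]) h5 (by positivity) (by linarith [hu.1, hv.2])
  rcases lt_trichotomy u v with h | h | h
  · exact key u v hu hv h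
  · rw [h, sub_self, zero_pow two_ne_zero]
    exact mul_nonneg (by linarith [hu.1, hu.2])
      (integral_nonneg (hu.1.trans hu.2) (fun _ _ => sq_nonneg _))
  · rw [← neg_sub, neg_sq]
    exact key v u hv hu h

/-- In a cell with large end values and small curvature the zero is unique and is a crossing. -/
lemma cell {f f1 f2 : ℝ → ℝ} (h1 : ∀ x, HasDerivAt f (f1 x) x) (h2 : ∀ x, HasDerivAt f1 (f2 x) x)
    (hc : Continuous f2) {a b σ : ℝ} (hσ : 0 ≤ σ) (ha : σ < |f a|) (hb : σ < |f b|)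
    (hI : (b - a) ^ 3 * ∫ x in a..b, f2 x ^ 2 ≤ σ ^ 2) {z : ℝ} (hz : z ∈ Set.Icc a b)
    (h0 : f z = 0) : f a * f b < 0 ∧ ∀ z' ∈ Set.Icc a b, f z' = 0 → z' = z := by
  have hab : a ≤ b := hz.1.trans hz.2
  have hI0 : 0 ≤ (b - a) * ∫ x in a..b, f2 x ^ 2 :=
    mul_nonneg (by linarith) (integral_nonneg hab (fun _ _ => sq_nonneg _))
  have hne : ∀ x ∈ Set.Icc a b, f1 x ≠ 0 := by
    intro x hx hx0
    have b1 := mvt_abs h1 (Y := Real.sqrt ((b - a) * ∫ x in a..b, f2 x ^ 2)) (fun y hy => by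
      have := sq_diff h2 hc hy hx
      rw [hx0, sub_zero] at this
      exact Real.abs_le_sqrt this) (Set.left_mem_Icc.2 hab) hz h0
    have b2 := pow_lt_pow_left₀ (ha.trans_le b1) hσ two_ne_zero
    rw [mul_pow, Real.sq_sqrt hI0] at b2
    nlinarith
  have hcont : ∀ u v, ContinuousOn f (Set.Icc u v) :=
    fun u v x _ => (h1 x).continuousAt.continuousWithinAt
  constructor
  · have haz : a < z := lt_of_le_of_ne hz.1 (by rintro rfl; rw [h0, abs_zero] at ha; linarith)
    have hzb : z < b := lt_of_le_of_ne hz.2 (by rintro rfl; rw [h0, abs_zero] at hb; linarith)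
    obtain ⟨u, hu, e1⟩ := exists_hasDerivAt_eq_slope f f1 haz (hcont _ _) (fun x _ => h1 x)
    obtain ⟨v, hv, e2⟩ := exists_hasDerivAt_eq_slope f f1 hzb (hcont _ _) (fun x _ => h1 x)
    have hu' : u ∈ Set.Icc a b := ⟨hu.1.le, by linarith [hu.2]⟩
    have hv' : v ∈ Set.Icc a b := ⟨by linarith [hv.1], hv.2.le⟩
    rw [h0, eq_div_iff (by linarith)] at e1 e2
    have e3 : 0 < f1 u * f1 v := by
      rcases hasDerivWithinAt_forall_lt_or_forall_gt_of_forall_ne (convex_Icc a b)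
        (fun x _ => (h1 x).hasDerivWithinAt) hne with h | h
      · exact mul_pos_of_neg_of_neg (h u hu') (h v hv')
      · exact mul_pos (h u hu') (h v hv')
    have e4 : f a * f b = -(f1 u * f1 v * ((z - a) * (b - z))) := by
      rw [show f a = -(f1 u * (z - a)) by linarith, show f b = f1 v * (b - z) by linarith]; ring
    rw [e4, neg_lt_zero]
    exact mul_pos e3 (mul_pos (by linarith) (by linarith))
  · intro z' hz' h0'
    by_contra hzz
    rcases lt_or_gt_of_ne hzz with h | h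
    · obtain ⟨w, hw, hw0⟩ := exists_hasDerivAt_eq_zero h (hcont _ _) (h0'.trans h0.symm)
        (fun x _ => h1 x)
      exact hne w ⟨hz'.1.trans hw.1.le, hw.2.le.trans hz.2⟩ hw0
    · obtain ⟨w, hw, hw0⟩ := exists_hasDerivAt_eq_zero h (hcont _ _) (h0.trans h0'.symm)
        (fun x _ => h1 x)
      exact hne w ⟨hz.1.trans hw.1.le, hw.2.le.trans hz'.2⟩ hw0

lemma sum_cells (g : ℝ → ℝ) (hg : Continuous g) (h : ℝ) (n : ℕ) :
    ∑ J ∈ range n, ∫ x in (J * h)..((J + 1) * h), g x = ∫ x in (0 : ℝ)..(n * h), g x := by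
  have := sum_integral_adjacent_intervals (f := g) (μ := MeasureTheory.volume)
    (a := fun J : ℕ => J * h) (n := n) (fun _ _ => hg.intervalIntegrable _ _)
  simpa using this

/-- Sampling inequality. -/
lemma sampling {G g : ℝ → ℝ} (hG : ∀ x, HasDerivAt G (g x) x) (hg : Continuous g) (h : ℝ)
    (hh : 0 < h) (n : ℕ) : h * ∑ J ∈ range n, G (J * h) ^ 2
      ≤ 2 * (∫ x in (0 : ℝ)..(n * h), G x ^ 2) + 2 * h ^ 2 * ∫ x in (0 : ℝ)..(n * h), g x ^ 2 := by
  have hc : Continuous G := continuous_iff_continuousAt.2 (fun x => (hG x).continuousAt)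
  rw [← sum_cells (fun x => G x ^ 2) (by fun_prop), ← sum_cells (fun x => g x ^ 2) (by fun_prop),
    Finset.mul_sum, Finset.mul_sum,
    Finset.mul_sum, ← Finset.sum_add_distrib]
  refine Finset.sum_le_sum (fun J _ => ?_)
  have hab : J * h ≤ (J + 1) * h := by linarith
  have h1 := integral_mono_on (μ := MeasureTheory.volume) hab (f := fun _ => G (J * h) ^ 2)
    (g := fun x => 2 * G x ^ 2 + 2 * h * ∫ x in (J * h)..((J + 1) * h), g x ^ 2)
    (continuous_const.intervalIntegrable _ _) (Continuous.intervalIntegrable (by fun_prop) _ _)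
    (fun x hx => by
      have := sq_diff hG hg (Set.left_mem_Icc.2 hab) hx
      rw [show (J + 1) * h - J * h = h by ring] at this
      nlinarith [sq_nonneg (G (J * h) - 2 * G x)])
  rw [integral_add (Continuous.intervalIntegrable (by fun_prop) _ _)
    (continuous_const.intervalIntegrable _ _), integral_const, integral_const, integral_const_mul,
    show (J + 1) * h - J * h = h by ring, smul_eq_mul, smul_eq_mul] at h1
  linarith

lemma card_cover {α ι : Type*} [DecidableEq α] (R : Finset α) (I : Finset ι) (p : ι → α → Prop)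
    [∀ i, DecidablePred (p i)] (h : ∀ z ∈ R, ∃ i ∈ I, p i z) :
    R.card ≤ ∑ i ∈ I, (R.filter (p i)).card := by
  refine le_trans (Finset.card_le_card (fun z hz => ?_)) Finset.card_biUnion_le
  obtain ⟨i, hi, hp⟩ := h z hz
  exact Finset.mem_biUnion.2 ⟨i, hi, Finset.mem_filter.2 ⟨hz, hp⟩⟩

lemma card_large {ι : Type*} (I : Finset ι) (f : ι → ℝ) (hf : ∀ i, 0 ≤ f i) (y : ℝ) :
    ((I.filter (fun i => y ≤ f i)).card : ℝ) * y ≤ ∑ i ∈ I, f i := by
  calc _ = ∑ _i ∈ I.filter (fun i => y ≤ f i), y := by simp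
    _ ≤ ∑ i ∈ I.filter (fun i => y ≤ f i), f i :=
      Finset.sum_le_sum (fun i hi => (Finset.mem_filter.1 hi).2)
    _ ≤ _ := Finset.sum_le_sum_of_subset_of_nonneg (Finset.filter_subset _ _) (fun i _ _ => hf i)

open Classical in
lemma card_long (R : Finset ℝ) (H : ℝ) (hH : 0 < H) (D : ℕ)
    (h : ∀ a, (R.filter (fun z => z ∈ Set.Icc a (a + H))).card ≤ D) (u : ℝ) (q : ℕ) :
    (R.filter (fun z => z ∈ Set.Ico u (u + q * H))).card ≤ q * D := by
  refine (card_cover _ (range q) (fun i z => z ∈ Set.Icc (u + i * H) (u + i * H + H))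
    (fun z hz => ?_)).trans ?_
  · obtain ⟨h1, h2⟩ := (Finset.mem_filter.1 hz).2
    have h0 : 0 ≤ (z - u) / H := div_nonneg (by linarith) hH.le
    have h3 := Nat.floor_le h0
    have h4 := Nat.lt_floor_add_one ((z - u) / H)
    rw [le_div_iff₀ hH] at h3
    rw [div_lt_iff₀ hH] at h4
    refine ⟨⌊(z - u) / H⌋₊, Finset.mem_range.2 ((Nat.floor_lt h0).2 ?_), by linarith, by linarith⟩
    rw [div_lt_iff₀ hH]
    linarith
  · refine (Finset.sum_le_sum (g := fun _ => D) (fun i _ => le_trans (Finset.card_le_card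
      (Finset.filter_subset_filter _ (Finset.filter_subset _ _))) (h _))).trans (by simp)

end Pool.Agent.MP_f6b137_pr.H26
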