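import Mathlib

set_option autoImplicit false

open Finset Polynomial Real intervalIntegral

namespace Pool.Agent.MP_f6b137_pr.H26

/-- The `j`-th derivative of a sine polynomial. -/
noncomputable def sfun (N : ℕ) (c : ℕ → ℝ) (j : ℕ) (θ : ℝ) : ℝ :=
  ∑ k ∈ range N, c k * ((k : ℝ) + 1) ^ j * sin (((k : ℝ) + 1) * θ + j * (π / 2))

/-- Squared norm of the coefficients. -/
noncomputable def nrm (N : ℕ) (c : ℕ → ℝ) : ℝ := ∑ k ∈ range N, c k ^ 2

lemma nrm_nonneg (N : ℕ) (c : ℕ → ℝ) : 0 ≤ nrm N c := Finset.sum_nonneg (fun _ _ => sq_nonneg _)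

lemma sfun_deriv (N : ℕ) (c : ℕ → ℝ) (j : ℕ) (θ : ℝ) :
    HasDerivAt (sfun N c j) (sfun N c (j + 1) θ) θ := by
  unfold sfun
  refine HasDerivAt.fun_sum (fun k _ => ?_)
  have h1 : HasDerivAt (fun θ : ℝ => ((k : ℝ) + 1) * θ + j * (π / 2)) ((k : ℝ) + 1) θ := by
    simpa using ((hasDerivAt_id θ).const_mul ((k : ℝ) + 1)).add_const (j * (π / 2))
  have h2 := h1.sin.const_mul (c k * ((k : ℝ) + 1) ^ j)
  refine h2.congr_deriv ?_
  rw [show ((k : ℝ) + 1) * θ + ((j + 1 : ℕ) : ℝ) * (π / 2)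
    = (((k : ℝ) + 1) * θ + j * (π / 2)) + π / 2 by push_cast; ring, sin_add_pi_div_two]
  ring

lemma sfun_cont (N : ℕ) (c : ℕ → ℝ) (j : ℕ) : Continuous (sfun N c j) :=
  continuous_iff_continuousAt.2 (fun θ => (sfun_deriv N c j θ).continuousAt)

lemma int_cos (a : ℤ) (ha : a ≠ 0) (ψ : ℝ) : ∫ θ in (0 : ℝ)..2 * π, cos (a * θ + ψ) = 0 := by
  have ha' : (a : ℝ) ≠ 0 := by exact_mod_cast ha
  rw [integral_comp_mul_add (fun x => cos x) ha', integral_cos, mul_zero, zero_add, add_comm,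
    sin_add_int_mul_two_pi]
  simp

lemma int_orth (k l : ℕ) (φ : ℝ) :
    ∫ θ in (0 : ℝ)..2 * π, sin (((k : ℝ) + 1) * θ + φ) * sin (((l : ℝ) + 1) * θ + φ)
      = if k = l then π else 0 := by
  have e : ∀ θ : ℝ, sin (((k : ℝ) + 1) * θ + φ) * sin (((l : ℝ) + 1) * θ + φ)
      = 1 / 2 * cos (((k - l : ℤ) : ℝ) * θ + 0)
        - 1 / 2 * cos (((k + l + 2 : ℤ) : ℝ) * θ + 2 * φ) := by
    intro θ
    rw [show ((k - l : ℤ) : ℝ) * θ + 0 = (((k : ℝ) + 1) * θ + φ) - (((l : ℝ) + 1) * θ + φ) by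
        push_cast; ring,
      show ((k + l + 2 : ℤ) : ℝ) * θ + 2 * φ = (((k : ℝ) + 1) * θ + φ) + (((l : ℝ) + 1) * θ + φ) by
        push_cast; ring, cos_sub, cos_add (((k : ℝ) + 1) * θ + φ)]
    ring
  simp_rw [e]
  rw [integral_sub (Continuous.intervalIntegrable (by fun_prop) _ _)
    (Continuous.intervalIntegrable (by fun_prop) _ _), integral_const_mul, integral_const_mul,
    int_cos (k + l + 2) (by omega)]
  split_ifs with h
  · simp [h]
  · rw [int_cos (k - l) (by omega)]; simp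

lemma int_sq (N : ℕ) (b : ℕ → ℝ) (φ : ℝ) :
    ∫ θ in (0 : ℝ)..2 * π, (∑ k ∈ range N, b k * sin (((k : ℝ) + 1) * θ + φ)) ^ 2
      = π * nrm N b := by
  have e : ∀ θ : ℝ, (∑ k ∈ range N, b k * sin (((k : ℝ) + 1) * θ + φ)) ^ 2
      = ∑ k ∈ range N, ∑ l ∈ range N,
        b k * b l * (sin (((k : ℝ) + 1) * θ + φ) * sin (((l : ℝ) + 1) * θ + φ)) := by
    intro θ
    rw [sq, Finset.sum_mul_sum]
    exact Finset.sum_congr rfl (fun k _ => Finset.sum_congr rfl (fun l _ => by ring))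
  simp_rw [e]
  rw [integral_finsetSum (fun k _ => Continuous.intervalIntegrable (by fun_prop) _ _), nrm,
    Finset.mul_sum]
  refine Finset.sum_congr rfl (fun k hk => ?_)
  rw [integral_finsetSum (fun k _ => Continuous.intervalIntegrable (by fun_prop) _ _)]
  simp_rw [integral_const_mul, int_orth]
  simp [Finset.mem_range.1 hk]
  ring

lemma nrm_pow (N : ℕ) (c : ℕ → ℝ) (j : ℕ) :
    nrm N (fun k => c k * ((k : ℝ) + 1) ^ j) ≤ (N : ℝ) ^ (2 * j) * nrm N c := by
  rw [nrm, nrm, Finset.mul_sum]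
  refine Finset.sum_le_sum (fun k hk => ?_)
  have : (k : ℝ) + 1 ≤ N := by exact_mod_cast Finset.mem_range.1 hk
  rw [mul_pow, ← pow_mul, mul_comm j 2, mul_comm]
  gcongr

lemma sfun_l2 (N : ℕ) (c : ℕ → ℝ) (j : ℕ) :
    ∫ θ in (0 : ℝ)..π, sfun N c j θ ^ 2 ≤ 4 * (N : ℝ) ^ (2 * j) * nrm N c := by
  have h1 : ∫ θ in (0 : ℝ)..π, sfun N c j θ ^ 2 ≤ ∫ θ in (0 : ℝ)..2 * π, sfun N c j θ ^ 2 :=
    integral_mono_interval le_rfl pi_pos.le (by linarith [pi_pos])
      (Filter.Eventually.of_forall (fun _ => sq_nonneg _))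
      (((sfun_cont N c j).pow 2).intervalIntegrable _ _)
  have h2 := int_sq N (fun k => c k * ((k : ℝ) + 1) ^ j) (j * (π / 2))
  have h3 := nrm_pow N c j
  have h4 := nrm_nonneg N (fun k => c k * ((k : ℝ) + 1) ^ j)
  unfold sfun at h1 ⊢
  rw [h2] at h1
  nlinarith [pi_le_four]

lemma sum_sq_le (N : ℕ) (b u : ℕ → ℝ) (K : ℝ) (hu : ∀ k < N, |u k| ≤ K) :
    (∑ k ∈ range N, b k * u k) ^ 2 ≤ N * K ^ 2 * nrm N b := by
  refine (Finset.sum_mul_sq_le_sq_mul_sq _ _ _).trans ?_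
  rw [mul_comm]
  refine mul_le_mul_of_nonneg_right ?_ (nrm_nonneg N b)
  refine (Finset.sum_le_sum (g := fun _ => K ^ 2) (fun k hk => ?_)).trans (by simp)
  rw [← sq_abs]
  exact pow_le_pow_left₀ (abs_nonneg _) (hu k (Finset.mem_range.1 hk)) 2

lemma sfun_sup (N : ℕ) (c : ℕ → ℝ) (j : ℕ) (θ : ℝ) :
    sfun N c j θ ^ 2 ≤ N * ((N : ℝ) ^ j) ^ 2 * nrm N c := by
  unfold sfun
  simp_rw [mul_assoc]
  rw [← mul_assoc]
  refine sum_sq_le N c _ _ (fun k hk => ?_)
  have : (k : ℝ) + 1 ≤ N := by exact_mod_cast hk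
  rw [abs_mul, abs_of_nonneg (by positivity)]
  calc _ ≤ (N : ℝ) ^ j * 1 := by gcongr; exact abs_sin_le_one _
    _ = _ := mul_one _

lemma abs_sin_nat (k : ℕ) (θ : ℝ) : |sin (k * θ)| ≤ k * |sin θ| := by
  induction k with
  | zero => simp
  | succ k ih =>
    push_cast
    rw [add_mul, one_mul, sin_add]
    refine (abs_add_le _ _).trans ?_
    rw [abs_mul, abs_mul]
    nlinarith [abs_cos_le_one θ, abs_cos_le_one (k * θ), abs_nonneg (sin θ),
      abs_nonneg (sin (k * θ))]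

lemma exists_U (N : ℕ) (Q : ℝ[X]) (hQ : Q.degree < N) :
    ∃ c : ℕ → ℝ, Q = ∑ k ∈ range N, C (c k) * Chebyshev.U ℝ k := by
  induction N generalizing Q with
  | zero => exact ⟨0, by simpa using hQ⟩
  | succ N ih =>
    have h1 := Chebyshev.degree_U_natCast ℝ N
    have h2 : (Chebyshev.U ℝ N).coeff N = 2 ^ N := by
      have := Chebyshev.leadingCoeff_U_natCast ℝ N
      rwa [leadingCoeff, natDegree_eq_of_degree_eq_some h1] at this
    obtain ⟨c, hc⟩ := ih (Q - C (Q.coeff N / 2 ^ N) * Chebyshev.U ℝ N) (by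
      rw [degree_lt_iff_coeff_zero]
      intro m hm
      rw [coeff_sub, coeff_C_mul]
      rcases hm.eq_or_lt with h | h
      · rw [← h, h2]; simp
      · rw [coeff_eq_zero_of_degree_lt (hQ.trans_le (by exact_mod_cast h)),
          coeff_eq_zero_of_degree_lt (h1.trans_lt (by exact_mod_cast h))]
        simp)
    refine ⟨fun k => if k = N then Q.coeff N / 2 ^ N else c k, ?_⟩
    rw [Finset.sum_range_succ]
    simp only [if_true]
    rw [← sub_eq_iff_eq_add, hc]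
    exact Finset.sum_congr rfl (fun k hk => by rw [if_neg (Finset.mem_range.1 hk).ne])

/-- The sine expansion of a polynomial on the interval with centre `M` and radius `H`. -/
def Expn (M H : ℝ) (N : ℕ) (P : ℝ[X]) (c : ℕ → ℝ) : Prop :=
  ∀ θ, sin θ * P.eval (M + H * cos θ) = sfun N c 0 θ

lemma exists_expn (M H : ℝ) (N : ℕ) (P : ℝ[X]) (hP : P.natDegree < N) : ∃ c, Expn M H N P c := by
  obtain ⟨c, hc⟩ := exists_U N (P.comp (C M + C H * X)) (degree_le_natDegree.trans_lt (by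
    have h1 := natDegree_comp_le (p := P) (q := C M + C H * X)
    have h2 : (C M + C H * X : ℝ[X]).natDegree ≤ 1 := by compute_degree
    have h3 := Nat.mul_le_mul_left P.natDegree h2
    exact Nat.cast_lt.2 (by omega)))
  refine ⟨c, fun θ => ?_⟩
  have h := congrArg (eval (cos θ)) hc
  simp only [eval_comp, eval_add, eval_C, eval_mul, eval_X, eval_finsetSum] at h
  rw [h, Finset.mul_sum, sfun]
  refine Finset.sum_congr rfl (fun k _ => ?_)
  have := Chebyshev.U_real_cos θ (k : ℤ)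
  push_cast at this
  simp only [pow_zero, mul_one, Nat.cast_zero, zero_mul, add_zero]
  rw [← this]
  ring

lemma exists_angle {M H x : ℝ} (hH : 0 < H) (hx : x ∈ Set.Icc (M - H) (M + H)) :
    M + H * cos (arccos ((x - M) / H)) = x := by
  rw [cos_arccos (by rw [le_div_iff₀ hH]; linarith [hx.1]) (by rw [div_le_iff₀ hH]; linarith [hx.2])]
  field_simp
  ring

lemma Expn.sup {M H : ℝ} {N : ℕ} {P : ℝ[X]} {c : ℕ → ℝ} (h : Expn M H N P c) (hH : 0 < H) :
    ∀ x ∈ Set.Icc (M - H) (M + H), P.eval x ^ 2 ≤ (N : ℝ) ^ 3 * nrm N c := by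
  rw [← closure_Ioo (by linarith)]
  refine fun x hx => le_on_closure (f := fun x => P.eval x ^ 2) (g := fun _ => _) (fun x hx => ?_)
    (by fun_prop) continuousOn_const hx
  set θ := arccos ((x - M) / H)
  have h1 := h θ
  rw [exists_angle hH (Set.Ioo_subset_Icc_self hx)] at h1
  have h2 : 0 < sin θ := sin_pos_of_pos_of_lt_pi
    (arccos_pos.2 (by rw [div_lt_iff₀ hH]; linarith [hx.2]))
    (arccos_lt_pi.2 (by rw [lt_div_iff₀ hH]; linarith [hx.1]))
  have h3 : sfun N c 0 θ ^ 2 ≤ N * (N * sin θ) ^ 2 * nrm N c := by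
    unfold sfun
    simp only [pow_zero, mul_one, Nat.cast_zero, zero_mul, add_zero]
    refine sum_sq_le N c _ _ (fun k hk => ?_)
    have a1 := abs_sin_nat (k + 1) θ
    have a2 : (k : ℝ) + 1 ≤ N := by exact_mod_cast hk
    push_cast at a1
    rw [abs_of_pos h2] at a1
    exact a1.trans (by gcongr)
  rw [← h1] at h3
  refine le_of_mul_le_mul_left ?_ (pow_pos h2 2)
  nlinarith

lemma subst_cos (M H : ℝ) (G : ℝ → ℝ) (hG : Continuous G) :
    H * ∫ θ in (0 : ℝ)..π, sin θ * G (M + H * cos θ) = ∫ x in (M - H)..(M + H), G x := by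
  have h := integral_comp_mul_deriv (a := 0) (b := π) (f := fun θ => M + H * cos θ)
    (f' := fun θ => H * -sin θ) (g := G)
    (fun θ _ => ((hasDerivAt_cos θ).const_mul H).const_add M) (by fun_prop) hG
  simp only [cos_zero, cos_pi, mul_one, mul_neg, Function.comp_def] at h
  rw [integral_symm (M + H), sub_eq_add_neg, ← h, ← integral_const_mul, ← integral_neg]
  refine integral_congr (fun θ _ => ?_)
  ring

lemma Expn.parseval {M H : ℝ} {N : ℕ} {P : ℝ[X]} {c : ℕ → ℝ} (h : Expn M H N P c) (hH : 0 < H) :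
    3 / 2 * (H * nrm N c) ≤ ∫ x in (M - H)..(M + H), P.eval x ^ 2 := by
  have h1 := int_sq N c 0
  have e : ∀ θ, ∑ k ∈ range N, c k * sin (((k : ℝ) + 1) * θ + 0) = sin θ * P.eval (M + H * cos θ) :=
    fun θ => by rw [h θ, sfun]; simp
  simp_rw [e] at h1
  have hc : Continuous (fun θ => (sin θ * P.eval (M + H * cos θ)) ^ 2) := by fun_prop
  have h2 := integral_comp_sub_left (fun θ => (sin θ * P.eval (M + H * cos θ)) ^ 2) (a := 0) (b := π)
    (2 * π)
  simp only [sin_two_pi_sub, cos_two_pi_sub, neg_mul, neg_sq, sub_zero] at h2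
  rw [show 2 * π - π = π by ring] at h2
  rw [← integral_add_adjacent_intervals (b := π) (hc.intervalIntegrable _ _)
    (hc.intervalIntegrable _ _), ← h2] at h1
  have h3 : ∫ θ in (0 : ℝ)..π, (sin θ * P.eval (M + H * cos θ)) ^ 2
      ≤ ∫ θ in (0 : ℝ)..π, sin θ * P.eval (M + H * cos θ) ^ 2 := by
    refine integral_mono_on pi_pos.le (hc.intervalIntegrable _ _)
      (Continuous.intervalIntegrable (by fun_prop) _ _) (fun θ hθ => ?_)
    have a1 := sin_nonneg_of_nonneg_of_le_pi hθ.1 hθ.2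
    have a2 := sin_le_one θ
    rw [mul_pow]
    gcongr
    nlinarith
  rw [← subst_cos M H (fun x => P.eval x ^ 2) (by fun_prop)]
  have h4 := nrm_nonneg N c
  nlinarith [pi_gt_three, mul_le_mul_of_nonneg_left h3 hH.le, mul_nonneg hH.le h4]

lemma cos_sum_ge (r : ℕ) (θ : ℝ) : (r : ℝ) / 8 ≤ nrm (2 * r) (fun k => cos (((k : ℝ) + 1) * θ)) := by
  have h1 : ∑ k ∈ range r, cos (((k : ℝ) + 1) * θ) ^ 2
      ≤ nrm (2 * r) (fun k => cos (((k : ℝ) + 1) * θ)) :=
    Finset.sum_le_sum_of_subset_of_nonneg (Finset.range_subset_range.2 (by omega))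
      (fun _ _ _ => sq_nonneg _)
  have h2 : ∑ k ∈ range r, cos (2 * (((k : ℝ) + 1) * θ)) ^ 2
      ≤ nrm (2 * r) (fun k => cos (((k : ℝ) + 1) * θ)) := by
    have e := Finset.sum_image (s := range r) (g := fun k => 2 * k + 1)
      (f := fun k : ℕ => cos (((k : ℝ) + 1) * θ) ^ 2) (fun a _ b _ h => by simp only at h; omega)
    refine le_trans (le_of_eq (Eq.trans ?_ e.symm)) (Finset.sum_le_sum_of_subset_of_nonneg
      (fun k hk => ?_) (fun _ _ _ => sq_nonneg _))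
    · refine Finset.sum_congr rfl (fun k _ => ?_)
      push_cast
      ring_nf
    · obtain ⟨j, hj, rfl⟩ := Finset.mem_image.1 hk
      have := Finset.mem_range.1 hj
      exact Finset.mem_range.2 (by omega)
  have h3 : ∑ _k ∈ range r, (1 / 4 : ℝ) ≤ ∑ k ∈ range r,
      (cos (((k : ℝ) + 1) * θ) ^ 2 + cos (2 * (((k : ℝ) + 1) * θ)) ^ 2) := by
    refine Finset.sum_le_sum (fun k _ => ?_)
    rw [cos_two_mul]
    nlinarith [sq_nonneg (cos (((k : ℝ) + 1) * θ) ^ 2 - 3 / 8)]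
  rw [Finset.sum_add_distrib, Finset.sum_const, Finset.card_range, nsmul_eq_mul] at h3
  linarith

/-- A polynomial that peaks at a given point. -/
lemma exists_peak (M H : ℝ) (hH : 0 < H) (r : ℕ) (θ0 : ℝ) : ∃ Q : ℝ[X], Q.natDegree ≤ 2 * r ∧
    (r : ℝ) / 8 ≤ Q.eval (M + H * cos θ0) ∧
    ∫ x in (M - H)..(M + H), Q.eval x ^ 2 ≤ 4 * H * Q.eval (M + H * cos θ0) := by
  let b : ℕ → ℝ := fun k => cos (((k : ℝ) + 1) * θ0)
  let Q : ℝ[X] := ∑ k ∈ range (2 * r),
    C (b k) * (Chebyshev.T ℝ (k + 1)).comp (C H⁻¹ * (X - C M))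
  have e : ∀ θ, Q.eval (M + H * cos θ) = ∑ k ∈ range (2 * r), b k * cos (((k : ℝ) + 1) * θ) := by
    intro θ
    simp only [Q, eval_finsetSum, eval_mul, eval_C, eval_comp, eval_sub, eval_X]
    refine Finset.sum_congr rfl (fun k _ => ?_)
    rw [show H⁻¹ * (M + H * cos θ - M) = cos θ by field_simp; ring, Chebyshev.T_real_cos]
    push_cast
    rfl
  have e0 : Q.eval (M + H * cos θ0) = nrm (2 * r) b := by
    rw [e, nrm]
    exact Finset.sum_congr rfl (fun k _ => (sq _).symm)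
  refine ⟨Q, natDegree_sum_le_of_forall_le _ _ (fun k hk => (natDegree_C_mul_le _ _).trans ?_),
    e0 ▸ cos_sum_ge r θ0, ?_⟩
  · have h1 := natDegree_comp_le (p := Chebyshev.T ℝ (k + 1)) (q := C H⁻¹ * (X - C M))
    have h2 : (C H⁻¹ * (X - C M) : ℝ[X]).natDegree ≤ 1 := by compute_degree
    rw [Chebyshev.natDegree_T] at h1
    have h3 := Nat.mul_le_mul_left ((k : ℤ) + 1).natAbs h2
    have := Finset.mem_range.1 hk
    omega
  · have h1 := int_sq (2 * r) b (π / 2)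
    simp_rw [sin_add_pi_div_two, ← e] at h1
    have hc : Continuous (fun θ => Q.eval (M + H * cos θ) ^ 2) := by fun_prop
    have h2 : ∫ θ in (0 : ℝ)..π, sin θ * Q.eval (M + H * cos θ) ^ 2
        ≤ ∫ θ in (0 : ℝ)..π, Q.eval (M + H * cos θ) ^ 2 :=
      integral_mono_on pi_pos.le (Continuous.intervalIntegrable (by fun_prop) _ _)
        (hc.intervalIntegrable _ _) (fun θ _ => by
          nlinarith [sin_le_one θ, sq_nonneg (Q.eval (M + H * cos θ))])
    have h3 : ∫ θ in (0 : ℝ)..π, Q.eval (M + H * cos θ) ^ 2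
        ≤ ∫ θ in (0 : ℝ)..2 * π, Q.eval (M + H * cos θ) ^ 2 :=
      integral_mono_interval le_rfl pi_pos.le (by linarith [pi_pos])
        (Filter.Eventually.of_forall (fun _ => sq_nonneg _)) (hc.intervalIntegrable _ _)
    rw [← subst_cos M H (fun x => Q.eval x ^ 2) (by fun_prop), e0]
    have h4 := nrm_nonneg (2 * r) b
    nlinarith [pi_le_four, mul_le_mul_of_nonneg_left (h2.trans h3) hH.le, mul_nonneg hH.le h4]

end Pool.Agent.MP_f6b137_pr.H26
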