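import Mathlib
import Pool.Agent.MP_f6b137_pr.H26.Trig
import Pool.Agent.MP_f6b137_pr.H26.Rolle

set_option autoImplicit false

open Finset Real intervalIntegral

namespace Pool.Agent.MP_f6b137_pr.H26

open Classical in
/-- Short intervals contain few zeros. -/
lemma coarse (N nJ D : ℕ) (hN : 1 ≤ N) (c : ℕ → ℝ) (h : ℝ) (hh : 0 < h) (hπ : nJ * h = π)
    (hhN : 4 * h * N ≤ 1) (R : Finset ℝ) (hR : ∀ z ∈ R, z ∈ Set.Icc 0 π ∧ sfun N c 0 z = 0)
    (hD : ∀ J : ℕ, 1 ≤ J → J < nJ → N * nrm N c < 4 ^ D * sfun N c 0 (J * h) ^ 2) (a : ℝ) :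
    (R.filter (fun z => z ∈ Set.Icc a (a + 1 / (2 * N)))).card ≤ D := by
  by_contra hc
  have hN' : (1 : ℝ) ≤ N := by exact_mod_cast hN
  set H : ℝ := 1 / (2 * N) with hH
  have hH1 : 2 * h ≤ H := by rw [hH, le_div_iff₀ (by positivity)]; linarith
  have hH2 : H ≤ 1 := by rw [hH, div_le_iff₀ (by positivity)]; linarith
  set a' := max 0 (min a (π - H)) with ha'
  have a0 : 0 ≤ a' := le_max_left _ _
  have a1 : a' ≤ π - H := max_le (by linarith [pi_gt_three]) (min_le_right _ _)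
  have h0 : 0 ≤ a' / h := by positivity
  have h3 := Nat.floor_le h0
  have h4 := Nat.lt_floor_add_one (a' / h)
  rw [le_div_iff₀ hh] at h3
  rw [div_lt_iff₀ hh] at h4
  have h5 := hD (⌊a' / h⌋₊ + 1) (by omega) (by
    have : ((⌊a' / h⌋₊ + 1 : ℕ) : ℝ) * h < nJ * h := by push_cast; linarith
    exact_mod_cast lt_of_mul_lt_mul_right this hh.le)
  have hn := nrm_nonneg N c
  have h6 := rolle_iter (sfun N c) (sfun_deriv N c) a' (a' + H)
    (Real.sqrt (N * ((N : ℝ) ^ D) ^ 2 * nrm N c)) D 0 _ (fun z hz => by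
      obtain ⟨b1, b2, b3⟩ := Finset.mem_filter.1 hz
      obtain ⟨⟨b4, b5⟩, b6⟩ := hR z b1
      refine ⟨⟨max_le b4 ((min_le_left _ _).trans b2), ?_⟩, b6⟩
      rcases le_total a (π - H) with h | h
      · have := le_max_right 0 (min a (π - H))
        rw [min_eq_left h] at this
        rw [ha', min_eq_left h]
        linarith
      · have := le_max_right 0 (min a (π - H))
        rw [min_eq_right h] at this
        rw [ha', min_eq_right h]
        linarith) (not_le.1 hc).le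
    (fun x _ => by rw [zero_add]; exact Real.abs_le_sqrt (sfun_sup N c D x))
    (((⌊a' / h⌋₊ + 1 : ℕ) : ℝ) * h) ⟨by push_cast; linarith, by push_cast; linarith⟩
  have h7 := pow_le_pow_left₀ (abs_nonneg _) h6 2
  rw [sq_abs, mul_pow, Real.sq_sqrt (by positivity), add_sub_cancel_left] at h7
  have h8 : (4 : ℝ) ^ D * (((N : ℝ) ^ D) ^ 2 * (H ^ D) ^ 2) = 1 := by
    rw [← mul_pow, ← mul_pow, ← pow_mul, mul_comm D 2, pow_mul, ← mul_pow,
      show 4 * ((N : ℝ) * H) ^ 2 = 1 by rw [hH]; field_simp; norm_num, one_pow]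
  have h9 := mul_le_mul_of_nonneg_left h7 (by positivity : (0 : ℝ) ≤ 4 ^ D)
  have h10 : (4 : ℝ) ^ D * (N * ((N : ℝ) ^ D) ^ 2 * nrm N c * (H ^ D) ^ 2) = N * nrm N c := by
    linear_combination (N * nrm N c) * h8
  linarith

open Classical in
/-- Most zeros of a sine polynomial are sign changes on a fine grid that survive a small
perturbation. -/
theorem theta_cmp (N nJ D q : ℕ) (hN : 1 ≤ N) (c d : ℕ → ℝ) (f' : ℝ → ℝ)
    (hd : ∀ θ, sfun N c 0 θ - f' θ = sfun N d 0 θ) (h κ σ b1 b2 : ℝ) (hh : 0 < h)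
    (hπ : nJ * h = π) (hhN : 4 * h * N ≤ 1) (hκ : 2 * h ≤ κ) (hq : 2 * N * κ < q) (hσ : 0 < σ)
    (R : Finset ℝ) (hR : ∀ z ∈ R, z ∈ Set.Icc 0 π ∧ sfun N c 0 z = 0)
    (hD : ∀ J : ℕ, 1 ≤ J → J < nJ → N * nrm N c < 4 ^ D * sfun N c 0 (J * h) ^ 2)
    (S : Finset ℕ) (hS : ∀ J : ℕ, J < nJ → J ∉ S → κ / 2 ≤ J * h → J * h ≤ π - κ / 2 →
      σ < |sfun N c 0 (J * h)|)
    (hb1 : 16 * nrm N d ≤ b1 * (σ ^ 2 * h)) (hb2 : 4 * h ^ 3 * N ^ 4 * nrm N c ≤ b2 * σ ^ 2) :
    ∃ V : Finset ℕ, (∀ J ∈ V, J < nJ ∧ f' (J * h) * f' ((J + 1) * h) < 0) ∧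
      (R.card : ℝ) ≤ V.card + D * (2 * q + 2 * S.card + 2 * b1 + b2) := by
  have hN' : (1 : ℝ) ≤ N := by exact_mod_cast hN
  have hco := coarse N nJ D hN c h hh hπ hhN R hR hD
  set H : ℝ := 1 / (2 * N) with hH
  have hH0 : 0 < H := by positivity
  have hH1 : 2 * h ≤ H := by rw [hH, le_div_iff₀ (by positivity)]; linarith
  have hqH : κ < q * H := by rw [hH, mul_one_div, lt_div_iff₀ (by positivity)]; linarith
  set Δ := (range nJ).filter (fun J : ℕ => σ ^ 2 ≤ sfun N d 0 (J * h) ^ 2) with hΔ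
  set Bd := (range nJ).filter (fun J : ℕ =>
    σ ^ 2 ≤ h ^ 3 * ∫ x in (J * h)..((J + 1) * h), sfun N c 2 x ^ 2) with hBd
  have cΔ : (Δ.card : ℝ) ≤ b1 := by
    have a1 := card_large (range nJ) (fun J : ℕ => sfun N d 0 (J * h) ^ 2) (fun _ => sq_nonneg _)
      (σ ^ 2)
    have a2 := sampling (sfun_deriv N d 0) (sfun_cont N d 1) h hh nJ
    rw [hπ] at a2
    have a3 := sfun_l2 N d 0
    have a4 := sfun_l2 N d 1
    have a5 := nrm_nonneg N d
    have a6 : h ^ 2 * (N : ℝ) ^ 2 ≤ 1 := by nlinarith [mul_pos hh (by linarith : (0 : ℝ) < N)]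
    have a7 := mul_le_mul_of_nonneg_left a4 (sq_nonneg h)
    have a8 := mul_le_mul_of_nonneg_right a6 a5
    have a9 := mul_le_mul_of_nonneg_left a1 hh.le
    refine le_of_mul_le_mul_right ?_ (by positivity : 0 < σ ^ 2 * h)
    simp only [mul_zero, pow_zero, mul_one, zero_add] at a2 a3 a7
    nlinarith
  have cB : (Bd.card : ℝ) ≤ b2 := by
    have a1 := card_large (range nJ)
      (fun J : ℕ => h ^ 3 * ∫ x in (J * h)..((J + 1) * h), sfun N c 2 x ^ 2)
      (fun J => mul_nonneg (by positivity) (integral_nonneg (by linarith) (fun _ _ => sq_nonneg _)))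
      (σ ^ 2)
    rw [← Finset.mul_sum, sum_cells (fun x => sfun N c 2 x ^ 2) ((sfun_cont N c 2).pow 2), hπ] at a1
    have a2 := mul_le_mul_of_nonneg_left (sfun_l2 N c 2) (by positivity : 0 ≤ h ^ 3)
    refine le_of_mul_le_mul_right (a1.trans (a2.trans (le_trans (le_of_eq ?_) hb2)))
      (by positivity : 0 < σ ^ 2)
    ring
  set I := (range nJ).filter (fun J : ℕ => κ / 2 ≤ J * h ∧ (J + 1) * h ≤ π - κ / 2) with hI
  let bad : ℕ → Prop := fun J => J ∈ S ∪ Δ ∨ J + 1 ∈ S ∪ Δ ∨ J ∈ Bd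
  let cel : ℕ → ℝ → Prop := fun J z => z ∈ Set.Icc (J * h) ((J + 1) * h)
  have hgood : ∀ J ∈ I, ¬ bad J → ∀ z ∈ R, cel J z →
      f' (J * h) * f' ((J + 1) * h) < 0 ∧ ∀ z' ∈ R, cel J z' → z' = z := by
    intro J hJ hb z hz hzc
    obtain ⟨j1, j2, j3⟩ := Finset.mem_filter.1 hJ
    have j4 : J + 1 < nJ := by
      have : ((J + 1 : ℕ) : ℝ) * h < nJ * h := by push_cast; linarith
      exact_mod_cast lt_of_mul_lt_mul_right this hh.le
    simp only [bad, hΔ, hBd, Finset.mem_union, Finset.mem_filter, Finset.mem_range, not_or, not_and,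
      not_le] at hb
    obtain ⟨⟨s1, d1⟩, ⟨s2, d2⟩, b3⟩ := hb
    have u1 := hS J (by omega) s1 j2 (by linarith)
    have u2 := hS (J + 1) j4 s2 (by push_cast; linarith) (by push_cast; linarith)
    have v1 := abs_lt_of_sq_lt_sq (d1 (by omega)) hσ.le
    have v2 := abs_lt_of_sq_lt_sq (d2 j4) hσ.le
    rw [← hd] at v1 v2
    push_cast at u2 v2
    obtain ⟨w1, w2⟩ := cell (sfun_deriv N c 0) (sfun_deriv N c 1) (sfun_cont N c 2) hσ.le u1 u2
      (by rw [show (J + 1) * h - J * h = h by ring]; exact (b3 (by omega)).le) hzc (hR z hz).2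
    refine ⟨?_, fun z' hz' hc' => w2 z' hc' (hR z' hz').2⟩
    rw [abs_lt] at v1 v2
    rcases lt_abs.1 u1 with x1 | x1 <;> rcases lt_abs.1 u2 with x2 | x2
    · nlinarith
    · exact mul_neg_of_pos_of_neg (by linarith) (by linarith)
    · exact mul_neg_of_neg_of_pos (by linarith) (by linarith)
    · nlinarith
  refine ⟨I.filter (fun J => ¬ bad J ∧ ∃ z ∈ R, cel J z), fun J hJ => ?_, ?_⟩
  · obtain ⟨j1, j2, z, hz, hzc⟩ := Finset.mem_filter.1 hJ
    exact ⟨Finset.mem_range.1 (Finset.mem_filter.1 j1).1, (hgood J j1 j2 z hz hzc).1⟩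
  have e1 := card_long R H hH0 D hco 0 q
  have e2 := card_long R H hH0 D hco (π - κ) q
  have e3 : (R.filter (fun z => z ∈ Set.Icc κ (π - κ))).card
      ≤ (I.filter (fun J => ¬ bad J ∧ ∃ z ∈ R, cel J z)).card + (I.filter bad).card * D := by
    refine (card_cover _ I cel (fun z hz => ?_)).trans ?_
    · obtain ⟨-, h1, h2⟩ := Finset.mem_filter.1 hz
      have h0 : 0 ≤ z / h := div_nonneg (by linarith) hh.le
      have h3 := Nat.floor_le h0
      have h4 := Nat.lt_floor_add_one (z / h)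
      rw [le_div_iff₀ hh] at h3
      rw [div_lt_iff₀ hh] at h4
      refine ⟨⌊z / h⌋₊, Finset.mem_filter.2 ⟨Finset.mem_range.2 ((Nat.floor_lt h0).2 ?_),
        by linarith, by linarith⟩, h3, h4.le⟩
      rw [div_lt_iff₀ hh]
      linarith
    · rw [Finset.card_filter, Finset.card_filter, Finset.sum_mul, ← Finset.sum_add_distrib]
      refine Finset.sum_le_sum (fun J hJ => le_trans (Finset.card_le_card
        (Finset.filter_subset_filter _ (Finset.filter_subset _ _))) ?_)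
      by_cases hb : bad J
      · rw [if_pos hb, one_mul]
        refine le_trans (le_trans (Finset.card_le_card (fun z hz => ?_)) (hco (J * h)))
          (Nat.le_add_left _ _)
        obtain ⟨z1, z2, z3⟩ := Finset.mem_filter.1 hz
        exact Finset.mem_filter.2 ⟨z1, z2, by linarith⟩
      · by_cases hz : ∃ z ∈ R, cel J z
        · rw [if_pos ⟨hb, hz⟩]
          obtain ⟨z, hz, hzc⟩ := hz
          refine le_trans (Finset.card_le_one.2 (fun x hx y hy => ?_)) (Nat.le_add_right _ _)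
          obtain ⟨x1, x2⟩ := Finset.mem_filter.1 hx
          obtain ⟨y1, y2⟩ := Finset.mem_filter.1 hy
          rw [(hgood J hJ hb z hz hzc).2 x x1 x2, (hgood J hJ hb z hz hzc).2 y y1 y2]
        · rw [Finset.filter_false_of_mem (fun z h1 h2 => hz ⟨z, h1, h2⟩)]
          exact Nat.zero_le _
  have e4 : (I.filter bad).card ≤ (S ∪ Δ).card + (S ∪ Δ).card + Bd.card := by
    refine le_trans (Finset.card_le_card (t := ((S ∪ Δ) ∪ (S ∪ Δ).image (fun J => J - 1)) ∪ Bd)
      (fun J hJ => ?_)) ((Finset.card_union_le _ _).trans (Nat.add_le_add_right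
        ((Finset.card_union_le _ _).trans (Nat.add_le_add_left Finset.card_image_le _)) _))
    rcases (Finset.mem_filter.1 hJ).2 with h1 | h1 | h1
    · exact Finset.mem_union_left _ (Finset.mem_union_left _ h1)
    · exact Finset.mem_union_left _ (Finset.mem_union_right _ (Finset.mem_image.2 ⟨_, h1, rfl⟩))
    · exact Finset.mem_union_right _ h1
  have e5 := Finset.card_union_le S Δ
  have e6 : R.card ≤ (R.filter (fun z => z ∈ Set.Ico 0 (0 + q * H))).card
      + (R.filter (fun z => z ∈ Set.Ico (π - κ) (π - κ + q * H))).card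
      + (R.filter (fun z => z ∈ Set.Icc κ (π - κ))).card := by
    refine le_trans (Finset.card_le_card (fun z hz => ?_)) ((Finset.card_union_le _ _).trans
      (Nat.add_le_add_right (Finset.card_union_le _ _) _))
    obtain ⟨z1, z2⟩ := (hR z hz).1
    simp only [Finset.mem_union, Finset.mem_filter, hz, true_and, Set.mem_Ico, Set.mem_Icc]
    rcases lt_or_ge z κ with h1 | h1
    · exact Or.inl (Or.inl ⟨z1, by linarith⟩)
    · rcases le_total z (π - κ) with h2 | h2
      · exact Or.inr ⟨h1, h2⟩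
      · exact Or.inl (Or.inr ⟨h2, by linarith⟩)
  have e7 : (I.filter bad).card * D ≤ (2 * S.card + 2 * Δ.card + Bd.card) * D :=
    Nat.mul_le_mul_right _ (by omega)
  have e8 : R.card ≤ (I.filter (fun J => ¬ bad J ∧ ∃ z ∈ R, cel J z)).card
    + (2 * (q * D) + (2 * S.card + 2 * Δ.card + Bd.card) * D) := by omega
  have e9 := (Nat.cast_le (α := ℝ)).2 e8
  push_cast at e9
  nlinarith [mul_le_mul_of_nonneg_left cΔ (Nat.cast_nonneg (α := ℝ) D),
    mul_le_mul_of_nonneg_left cB (Nat.cast_nonneg (α := ℝ) D)]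

end Pool.Agent.MP_f6b137_pr.H26
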