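import Pool.Agent.MP_f6b137_pr.H74.Base

/-! Row COUP: the coupling outside a small set of cells. -/

namespace Pool.Agent.MP_f6b137_pr.H26Coup

open MeasureTheory Filter Topology Polynomial Pool.Agent.MP_f6b137_pr.H74
open scoped Real

lemma markov (N : ℕ) (g : ℕ → ℝ) (a : ℝ) (hg : ∀ j < N, 0 ≤ g j) :
    (((Finset.range N).filter fun j => a < g j).card : ℝ) * a ≤ ∑ j ∈ Finset.range N, g j := by
  calc (((Finset.range N).filter fun j => a < g j).card : ℝ) * a
      = ∑ _j ∈ (Finset.range N).filter fun j => a < g j, a := by simp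
    _ ≤ ∑ j ∈ (Finset.range N).filter fun j => a < g j, g j :=
        Finset.sum_le_sum fun j hj => (Finset.mem_filter.1 hj).2.le
    _ ≤ _ := Finset.sum_le_sum_of_subset_of_nonneg (Finset.filter_subset _ _)
        fun j hj _ => hg j (Finset.mem_range.1 hj)

lemma lip (q : ℝ[X]) : ∃ L : ℝ, 0 ≤ L ∧
    ∀ a b : ℝ, |q.eval (Real.cos a) - q.eval (Real.cos b)| ≤ L * |a - b| := by
  obtain ⟨M, hM⟩ := isCompact_Icc.exists_bound_of_continuousOn
    (q.derivative.continuous.continuousOn (s := Set.Icc (-1 : ℝ) 1))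
  have hM0 : 0 ≤ M := (norm_nonneg _).trans (hM 0 (by norm_num))
  refine ⟨M, hM0, fun a b => ?_⟩
  have h := (convex_Icc (-1 : ℝ) 1).norm_image_sub_le_of_norm_deriv_le (f := fun x => q.eval x)
    (C := M) (fun x _ => q.differentiableAt) (fun x hx => by rw [q.deriv]; exact hM x hx)
    (x := Real.cos b) (y := Real.cos a) ⟨Real.neg_one_le_cos _, Real.cos_le_one _⟩
    ⟨Real.neg_one_le_cos _, Real.cos_le_one _⟩
  exact h.trans (mul_le_mul_of_nonneg_left (Real.abs_cos_sub_cos_le a b) hM0)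

lemma integ {ρ : ℝ → ℝ} (hm : Measurable ρ) (hi : IntegrableOn (fun θ => ρ θ ^ 2) (Set.Icc 0 π))
    (q : ℝ[X]) :
    IntegrableOn (fun θ => ρ θ ^ 2 * q.eval (Real.cos θ) ^ 2) (Set.Icc 0 π) ∧
    IntegrableOn (fun θ => (1 - ρ θ * q.eval (Real.cos θ)) ^ 2) (Set.Icc 0 π) := by
  have hc : Continuous fun θ => q.eval (Real.cos θ) := q.continuous.comp Real.continuous_cos
  have h1 : IntegrableOn (fun θ => ρ θ ^ 2 * q.eval (Real.cos θ) ^ 2) (Set.Icc 0 π) :=
    hi.mul_continuousOn (hc.pow 2).continuousOn isCompact_Icc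
  refine ⟨h1, ?_⟩
  have h2 : IntegrableOn (fun θ => 2 + 2 * (ρ θ ^ 2 * q.eval (Real.cos θ) ^ 2)) (Set.Icc 0 π) :=
    (integrableOn_const (by simp)).add (h1.const_mul 2)
  refine Integrable.mono' h2
    ((measurable_const.sub (hm.mul hc.measurable)).pow_const 2).aestronglyMeasurable
    (Eventually.of_forall fun θ => ?_)
  rw [Real.norm_eq_abs, abs_of_nonneg (sq_nonneg _)]
  nlinarith [sq_nonneg (1 + ρ θ * q.eval (Real.cos θ))]

lemma cell_low {μ : Measure ℝ} {ρ : ℝ → ℝ} (hm : Measurable ρ)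
    (hi : IntegrableOn (fun θ => ρ θ ^ 2) (Set.Icc 0 π))
    (hρ : ∀ (g : ℝ → ℝ) (T : Set ℝ), MeasurableSet T → T ⊆ Set.Icc 0 π →
      ∫ θ in T, g θ ∂μ = ∫ θ in T, ρ θ ^ 2 * g θ) (q : ℝ[X]) {a b : ℝ} (ha : 0 ≤ a) (hab : a ≤ b)
    (hb : b ≤ π) :
    (b - a) / 2 - ∫ θ in a..b, (1 - ρ θ * q.eval (Real.cos θ)) ^ 2 ≤
      ∫ θ in Set.Ioc a b, q.eval (Real.cos θ) ^ 2 ∂μ := by
  have hs : Set.Ioc a b ⊆ Set.Icc 0 π := fun x hx => ⟨ha.trans hx.1.le, hx.2.trans hb⟩
  obtain ⟨h1, h2⟩ := integ hm hi q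
  rw [hρ _ _ measurableSet_Ioc hs, intervalIntegral.integral_of_le hab]
  have hc : IntegrableOn (fun _ : ℝ => (1 / 2 : ℝ)) (Set.Ioc a b) := integrableOn_const (by simp)
  have e : (b - a) / 2 = ∫ _θ in Set.Ioc a b, (1 / 2 : ℝ) := by
    rw [setIntegral_const, Real.volume_real_Ioc_of_le hab, smul_eq_mul]; ring
  rw [e, ← integral_sub hc (h2.mono_set hs)]
  refine integral_mono (hc.sub (h2.mono_set hs)) (h1.mono_set hs) fun θ => ?_
  dsimp only
  nlinarith [sq_nonneg (2 * (ρ θ * q.eval (Real.cos θ)) - 1)]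

lemma near_ctr {N j : ℕ} {θ : ℝ} (h1 : j * π / N ≤ θ)
    (h2 : θ ≤ ((j : ℝ) + 1) * π / N) : |θ - ctr N j| ≤ π / N / 2 := by
  have e1 : ctr N j = j * π / N + π / N / 2 := by unfold ctr; ring
  have e2 : ((j : ℝ) + 1) * π / N = j * π / N + π / N := by ring
  rw [abs_le]; constructor <;> linarith

lemma good_cell {μ : Measure ℝ} [IsFiniteMeasure μ] {ρ : ℝ → ℝ} (hm : Measurable ρ)
    (hi : IntegrableOn (fun θ => ρ θ ^ 2) (Set.Icc 0 π))
    (hρ : ∀ (g : ℝ → ℝ) (T : Set ℝ), MeasurableSet T → T ⊆ Set.Icc 0 π →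
      ∫ θ in T, g θ ∂μ = ∫ θ in T, ρ θ ^ 2 * g θ) (q : ℝ[X]) {L : ℝ} (hL0 : 0 ≤ L)
    (hL : ∀ a b : ℝ, |q.eval (Real.cos a) - q.eval (Real.cos b)| ≤ L * |a - b|) {N j : ℕ}
    (hj : j < N) (hN : 4 * L ^ 2 * π ^ 2 * μ.real Set.univ < N)
    (hI : ∫ θ in (j * π / N)..(((j : ℝ) + 1) * π / N), (1 - ρ θ * q.eval (Real.cos θ)) ^ 2 ≤
      π / (8 * N)) {θ₀ : ℝ} (h1 : j * π / N ≤ θ₀) (h2 : θ₀ ≤ ((j : ℝ) + 1) * π / N) :
    1 / (4 * N) ≤ q.eval (Real.cos θ₀) ^ 2 * mass μ N j ∧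
      ∀ θ₁, j * π / N ≤ θ₁ → θ₁ ≤ ((j : ℝ) + 1) * π / N →
        0 < q.eval (Real.cos θ₀) * q.eval (Real.cos θ₁) := by
  have hπ := Real.pi_pos
  have hN0 : (0 : ℝ) < N := by exact_mod_cast (by omega : 0 < N)
  have hj1 : (j : ℝ) + 1 ≤ N := by exact_mod_cast hj
  have e2 : ((j : ℝ) + 1) * π / N = j * π / N + π / N := by ring
  have hp : 0 < π / N := by positivity
  have hlow := cell_low hm hi hρ q (a := j * π / N) (b := ((j : ℝ) + 1) * π / N) (by positivity)
    (by linarith) (by rw [div_le_iff₀ hN0]; nlinarith)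
  set δ := L * (π / N) with hδ
  have hδ0 : 0 ≤ δ := by positivity
  have hd : ∀ θ, j * π / N ≤ θ → θ ≤ ((j : ℝ) + 1) * π / N →
      |q.eval (Real.cos θ) - q.eval (Real.cos θ₀)| ≤ δ := fun θ h3 h4 =>
    (hL θ θ₀).trans (mul_le_mul_of_nonneg_left (by rw [abs_le]; constructor <;> linarith) hL0)
  set Q := q.eval (Real.cos θ₀) with hQ
  have hup : ∫ θ in Set.Ioc (j * π / N) (((j : ℝ) + 1) * π / N), q.eval (Real.cos θ) ^ 2 ∂μ ≤
      (2 * Q ^ 2 + 2 * δ ^ 2) * mass μ N j := by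
    have hb : ∫ θ in Set.Ioc (j * π / N) (((j : ℝ) + 1) * π / N), q.eval (Real.cos θ) ^ 2 ∂μ ≤
        ∫ _θ in Set.Ioc (j * π / N) (((j : ℝ) + 1) * π / N), (2 * Q ^ 2 + 2 * δ ^ 2) ∂μ := by
      refine setIntegral_mono_on
        (integrable_cos (g := fun x => q.eval x ^ 2) (q.continuous.pow 2)).integrableOn
        (integrable_const _).integrableOn measurableSet_Ioc fun θ hθ => ?_
      have h5 := sq_le_sq' (abs_le.1 (hd θ hθ.1.le hθ.2)).1 (abs_le.1 (hd θ hθ.1.le hθ.2)).2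
      nlinarith [sq_nonneg (q.eval (Real.cos θ) - 2 * Q)]
    rw [setIntegral_const, smul_eq_mul, mul_comm (μ.real _)] at hb
    refine hb.trans (mul_le_mul_of_nonneg_left ?_ (by positivity))
    refine measureReal_mono (fun θ hθ => ?_) (measure_ne_top _ _)
    rw [Metric.mem_ball, Real.dist_eq]
    linarith [near_ctr hθ.1.le hθ.2]
  have hM : mass μ N j ≤ μ.real Set.univ := measureReal_mono (Set.subset_univ _) (measure_ne_top _ _)
  have hδM : δ ^ 2 * μ.real Set.univ < 1 / (4 * N) := by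
    have e : δ ^ 2 * μ.real Set.univ = (4 * L ^ 2 * π ^ 2 * μ.real Set.univ) / N * (1 / (4 * N)) := by
      rw [hδ]; field_simp
    rw [e]
    exact mul_lt_of_lt_one_left (by positivity) ((div_lt_one hN0).2 hN)
  have h3 : 1 / (N : ℝ) ≤ (2 * Q ^ 2 + 2 * δ ^ 2) * mass μ N j := by
    refine le_trans ?_ (hlow.trans hup)
    have e3 : π / (8 * N) = π / 8 * (1 / N) := by field_simp
    have e4 : π / N = π * (1 / N) := by ring
    have h6 : 0 < 1 / (N : ℝ) := by positivity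
    nlinarith [Real.pi_gt_three]
  have h4 : δ ^ 2 * mass μ N j ≤ δ ^ 2 * μ.real Set.univ :=
    mul_le_mul_of_nonneg_left hM (sq_nonneg _)
  have e5 : 1 / (N : ℝ) = 4 * (1 / (4 * N)) := by field_simp
  have h5 : 1 / (4 * (N : ℝ)) ≤ Q ^ 2 * mass μ N j := by nlinarith
  refine ⟨h5, fun θ₁ h6 h7 => ?_⟩
  have h8 : δ ^ 2 < Q ^ 2 := by
    have h9 : Q ^ 2 * mass μ N j ≤ Q ^ 2 * μ.real Set.univ :=
      mul_le_mul_of_nonneg_left hM (sq_nonneg _)
    exact lt_of_mul_lt_mul_right (hδM.trans_le (h5.trans h9)) measureReal_nonneg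
  have h10 := sq_le_sq' (abs_le.1 (hd θ₁ h6 h7)).1 (abs_le.1 (hd θ₁ h6 h7)).2
  nlinarith [sq_nonneg (q.eval (Real.cos θ₁))]

theorem rowCOUP : OfCOUP := by
  intro hMZ hDE hC0 μ C₀ s p ell hD hp hac hac' hch ε hε
  have := hD.fin
  have hπ := Real.pi_pos
  obtain ⟨A, hA0, hA⟩ := hMZ μ C₀ s hD
  obtain ⟨ρ, hm, -, hi, hρ, hq⟩ := hDE μ hD.fin hD.supp hac hac'
  set η := min (ε / 48) (ε ^ 2 / (480 * π * (A + 1))) with hη
  have hη0 : 0 < η := lt_min (by positivity) (by positivity)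
  have hη1 : η ≤ ε / 48 := min_le_left _ _
  have hη2 : η * (480 * π * (A + 1)) ≤ ε ^ 2 :=
    (le_div_iff₀ (by positivity)).1 (min_le_right _ _)
  obtain ⟨q, hq⟩ := hq η hη0
  obtain ⟨L, hL0, hL⟩ := lip q
  refine ⟨q.natDegree, ?_⟩
  filter_upwards [eventually_ge_atTop (2 * q.natDegree + 1),
    (tendsto_natCast_atTop_atTop (R := ℝ)).eventually_ge_atTop
      (4 * L ^ 2 * π ^ 2 * μ.real Set.univ + q.natDegree),
    (tendsto_natCast_atTop_atTop (R := ℝ)).eventually_ge_atTop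
      (12 * π * A * q.natDegree / ε ^ 2)] with n hn1 hn2 hn3 N hN
  have hN1 : 1 ≤ N := by omega
  have hN0 : (0 : ℝ) < N := by exact_mod_cast hN1
  have hNn : (N : ℝ) + q.natDegree = n + 1 := by exact_mod_cast hN
  have hN2 : (N : ℝ) ≤ 2 * n := by exact_mod_cast (by omega : N ≤ 2 * n)
  obtain ⟨D, φ, e, f, hφ, he, hf, hfe, hsum⟩ :=
    hC0 μ p ell ρ q n N hD.fin hD.supp hp hch hm hi hρ hN1 hN.le
  choose S hS1 hS2 using fun y : Fin D => hA N (f y) hN1 ((hf y).trans (by omega))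
  have hS0 : ∀ y, ∀ j < N, 0 ≤ S y j := fun y j hj =>
    (sq_nonneg _).trans (hS1 y j hj (ctr N j) (by simp; positivity))
  set g1 : ℕ → ℝ := fun j => ∫ θ in (j * π / N)..(((j : ℝ) + 1) * π / N),
    (1 - ρ θ * q.eval (Real.cos θ)) ^ 2 with hg1
  set g2 : ℕ → ℝ := fun j => 4 * π * (mass μ N j * ∑ y, S y j) with hg2
  have hle : ∀ j : ℕ, j * π / N ≤ ((j : ℝ) + 1) * π / N := fun j => by gcongr; linarith
  have m1 := markov N g1 (π / (8 * N)) fun j _ =>
    intervalIntegral.integral_nonneg (hle j) fun _ _ => sq_nonneg _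
  have m2 := markov N g2 ε fun j hj =>
    mul_nonneg (by positivity) (mul_nonneg (mass_nonneg μ N j)
      (Finset.sum_nonneg fun y _ => hS0 y j hj))
  have s1 : ∑ j ∈ Finset.range N, g1 j ≤ η := by
    have h := intervalIntegral.sum_integral_adjacent_intervals (μ := volume)
      (f := fun θ => (1 - ρ θ * q.eval (Real.cos θ)) ^ 2) (a := fun j : ℕ => j * π / N) (n := N)
      (fun k hk => by
        have hk1 : (k : ℝ) + 1 ≤ N := by exact_mod_cast hk
        push_cast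
        rw [intervalIntegrable_iff_integrableOn_Icc_of_le (hle k)]
        refine (integ hm hi q).2.mono_set (Set.Icc_subset_Icc (by positivity) ?_)
        rw [div_le_iff₀ hN0]; nlinarith)
    simp only [Nat.cast_add, Nat.cast_one, Nat.cast_zero, zero_mul, zero_div] at h
    rw [mul_div_cancel_left₀ _ hN0.ne', intervalIntegral.integral_of_le hπ.le,
      ← integral_Icc_eq_integral_Ioc] at h
    exact h.le.trans hq
  have s2 : ∑ j ∈ Finset.range N, g2 j ≤ 4 * π * (A * (q.natDegree + 20 * N * η)) := by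
    rw [hg2, ← Finset.mul_sum]
    refine mul_le_mul_of_nonneg_left ?_ (by positivity)
    simp only [Finset.mul_sum]
    rw [Finset.sum_comm]
    refine (Finset.sum_le_sum fun y _ => hS2 y).trans ?_
    rw [← Finset.mul_sum]
    refine mul_le_mul_of_nonneg_left (hsum.trans ?_) hA0
    have : 20 * N * ∫ θ in Set.Icc 0 π, (1 - ρ θ * q.eval (Real.cos θ)) ^ 2 ≤ 20 * N * η :=
      mul_le_mul_of_nonneg_left hq (by positivity)
    linarith
  refine ⟨D, φ, e, ((Finset.range N).filter fun j => π / (8 * N) < g1 j) ∪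
    ((Finset.range N).filter fun j => ε < g2 j), hφ, he, ?_, fun j hj hb => ?_⟩
  · have hc := Finset.card_union_le ((Finset.range N).filter fun j => π / (8 * N) < g1 j)
      ((Finset.range N).filter fun j => ε < g2 j)
    have hc' := (Nat.cast_le (α := ℝ)).2 hc
    push_cast at hc'
    set c1 : ℝ := (((Finset.range N).filter fun j => π / (8 * N) < g1 j).card : ℝ)
    set c2 : ℝ := (((Finset.range N).filter fun j => ε < g2 j).card : ℝ)
    have hc1 : 0 ≤ c1 := Nat.cast_nonneg _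
    have hn0 : (0 : ℝ) ≤ n := Nat.cast_nonneg _
    have b1 : c1 ≤ ε * n / 3 := by
      have h1 : c1 * π ≤ η * (8 * N) := by
        have := m1.trans s1
        rwa [← mul_div_assoc, div_le_iff₀ (by positivity)] at this
      have h2 : η * (8 * N) ≤ ε / 48 * (8 * (2 * n)) := by gcongr
      nlinarith [Real.pi_gt_three]
    have b2 : c2 ≤ 2 * (ε * n / 3) := by
      have h1 := m2.trans s2
      have h2 : 12 * π * A * q.natDegree ≤ n * ε ^ 2 := (div_le_iff₀ (by positivity)).1 hn3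
      have h3 : π * A * η * N ≤ π * A * η * (2 * n) := by gcongr
      have h4 : η * (480 * π * (A + 1)) * n ≤ ε ^ 2 * n := mul_le_mul_of_nonneg_right hη2 hn0
      have h5 : 0 ≤ η * π * n := by positivity
      refine le_of_mul_le_mul_right ?_ hε
      nlinarith
    linarith
  · simp only [Finset.mem_union, Finset.mem_filter, Finset.mem_range, hj, true_and, not_or,
      not_lt] at hb
    have hmem : ∀ t ∈ Set.Icc (j : ℝ) (j + 1),
        j * π / N ≤ π * t / N ∧ π * t / N ≤ ((j : ℝ) + 1) * π / N := fun t ht => by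
      rw [mul_comm π t]
      exact ⟨by gcongr; exact ht.1, by gcongr; exact ht.2⟩
    have hg := fun t (ht : t ∈ Set.Icc (j : ℝ) (j + 1)) =>
      good_cell hm hi hρ q hL0 hL hj (by linarith) hb.1 (hmem t ht).1 (hmem t ht).2
    have hr : 0 < √(N / π) := Real.sqrt_pos.2 (by positivity)
    refine ⟨fun t => (q.eval (Real.cos (π * t / N)) * √(N / π))⁻¹, fun t ht t' ht' => ?_,
      fun t ht => ?_⟩
    · have h1 := (hg t ht).2 _ (hmem t' ht').1 (hmem t' ht').2
      rw [← mul_inv, inv_pos, mul_mul_mul_comm]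
      positivity
    · have h1 := (hg t ht).1
      have h2 := (hg t ht).2 _ (hmem t ht).1 (hmem t ht).2
      set Q := q.eval (Real.cos (π * t / N)) with hQ
      have hQ0 : Q ≠ 0 := fun h => by simp [h] at h2
      have hne : Q * √(N / π) ≠ 0 := mul_ne_zero hQ0 hr.ne'
      have e1 : (Q * √(N / π))⁻¹ • Kt p n N φ t - Vt ell e N t =
          (Q * √(N / π))⁻¹ • (Kt p n N φ t - (Q * √(N / π)) • Vt ell e N t) := by
        rw [smul_sub, smul_smul, inv_mul_cancel₀ hne, one_smul]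
      have e2 : ‖Kt p n N φ t - (Q * √(N / π)) • Vt ell e N t‖ ^ 2 ≤ ∑ y, S y j := by
        rw [EuclideanSpace.norm_sq_eq]
        refine Finset.sum_le_sum fun y _ => ?_
        have h3 := hS1 y j hj ((π * t / N : ℝ) : ℂ) (by
          rw [← Complex.ofReal_sub, Complex.norm_real, Real.norm_eq_abs]
          have h4 := near_ctr (hmem t ht).1 (hmem t ht).2
          have e3 : 2 * π / N = 2 * (π / N) := by ring
          have : 0 < π / N := by positivity
          linarith)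
        rw [← Complex.ofReal_cos, ← Complex.coe_algebraMap, aeval_algebraMap_apply_eq_algebraMap_eval,
          Complex.coe_algebraMap, Complex.norm_real, hfe] at h3
        exact h3
      have e3 : ‖(Q * √(N / π))⁻¹‖ ^ 2 ≤ 4 * π * mass μ N j := by
        rw [Real.norm_eq_abs, sq_abs, inv_pow, mul_pow, Real.sq_sqrt (by positivity),
          inv_le_iff_one_le_mul₀ (by positivity)]
        rw [div_le_iff₀ (by positivity)] at h1
        have e4 : 4 * π * mass μ N j * (Q ^ 2 * (N / π)) = Q ^ 2 * mass μ N j * (4 * N) := by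
          field_simp
        rw [e4]; exact h1
      show ‖(Q * √(N / π))⁻¹ • Kt p n N φ t - Vt ell e N t‖ ^ 2 ≤ ε
      rw [e1, norm_smul, mul_pow]
      refine le_trans ?_ hb.2
      calc _ ≤ 4 * π * mass μ N j * ∑ y, S y j :=
            mul_le_mul e3 e2 (sq_nonneg _) (mul_nonneg (by positivity) (mass_nonneg μ N j))
        _ = g2 j := by rw [hg2]; ring

end Pool.Agent.MP_f6b137_pr.H26Coup
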