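import Mathlib
import Pool.Agent.MP_f6b137_pr.H13.Roots

set_option autoImplicit false

open Finset Polynomial

namespace Pool.Agent.MP_f6b137_pr.H26

/-- The factor `X - z` can be replaced by a linear factor with the same value at `x` that is half
as large on `K`. -/
def Cel (K : Set ℝ) (x z : ℝ) : Prop :=
  ∃ α β : ℝ, α * x + β = x - z ∧ ∀ y ∈ K, |α * y + β| ≤ |y - z| / 2

lemma replace (K : Set ℝ) (x : ℝ) (R : Finset ℝ) (P : ℝ[X])
    (hR : ∀ z ∈ R, Cel K x z ∧ P.eval z = 0) : ∃ Q : ℝ[X], Q.natDegree ≤ P.natDegree ∧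
      Q.eval x = P.eval x ∧ ∀ y ∈ K, |Q.eval y| ≤ (1 / 2) ^ R.card * |P.eval y| := by
  classical
  induction R using Finset.induction_on generalizing P with
  | empty => exact ⟨P, le_rfl, rfl, fun y _ => by simp⟩
  | insert z R hz ih =>
    by_cases hP : P = 0
    · exact ⟨0, by simp, by simp [hP], fun y _ => by simp [hP]⟩
    obtain ⟨⟨α, β, h1, h2⟩, h3⟩ := hR z (Finset.mem_insert_self _ _)
    obtain ⟨P1, rfl⟩ := dvd_iff_isRoot.2 h3
    obtain ⟨Q, q1, q2, q3⟩ := ih P1 (fun w hw => by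
      obtain ⟨a1, a2⟩ := hR w (Finset.mem_insert_of_mem hw)
      refine ⟨a1, ?_⟩
      rw [eval_mul, eval_sub, eval_X, eval_C] at a2
      exact (mul_eq_zero.1 a2).resolve_left (sub_ne_zero.2 (fun h => hz (h ▸ hw))))
    refine ⟨(C α * X + C β) * Q, ?_, by simp [h1, q2], fun y hy => ?_⟩
    · rw [natDegree_mul (X_sub_C_ne_zero z) (right_ne_zero_of_mul hP), natDegree_X_sub_C]
      have a1 := natDegree_mul_le (p := C α * X + C β) (q := Q)
      have a2 : (C α * X + C β).natDegree ≤ 1 := natDegree_linear_le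
      omega
    · simp only [eval_mul, eval_add, eval_sub, eval_C, eval_X, abs_mul,
        Finset.card_insert_of_notMem hz]
      calc _ ≤ (|y - z| / 2) * ((1 / 2) ^ R.card * |P1.eval y|) :=
            mul_le_mul (h2 y hy) (q3 y hy) (abs_nonneg _) (by positivity)
        _ = _ := by ring

open Classical in
/-- The test points. -/
noncomputable def pts (c e r : ℝ) (T : ℕ) : Finset ℝ :=
  ((({c, e, 1} : Finset ℝ) ×ˢ ({1, -1} : Finset ℝ)) ×ˢ range T).image
    (fun z => z.1.1 + z.1.2 * (r * (5 / 4) ^ z.2)) ∪ {3, -3}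

lemma pts_card (c e r : ℝ) (T : ℕ) : (pts c e r T).card ≤ 6 * T + 2 := by
  classical
  refine (Finset.card_union_le _ _).trans (add_le_add (Finset.card_image_le.trans ?_)
    Finset.card_le_two)
  rw [Finset.card_product, Finset.card_product, Finset.card_range]
  exact Nat.mul_le_mul_right _ (Nat.mul_le_mul Finset.card_le_three Finset.card_le_two)

lemma pts_cover (K : Set ℝ) (c e r : ℝ) (T : ℕ) (hc : |c| ≤ 1) (he : |e| ≤ 1) (hr : 0 < r)
    (hT : 4 ≤ r * (5 / 4) ^ T) (hK : ∀ y ∈ K, |y| ≤ 1 ∧ (|y - c| ≤ r / 2 ∨ y ∈ Set.Icc e 1))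
    (z : ℝ) (hz : r < |z - c|) (hz' : z ∉ Set.Icc (e - r) (1 + r)) :
    ∃ x ∈ pts c e r T, Cel K x z := by
  classical
  rcases le_or_gt 3 z with h3 | h3
  · refine ⟨3, by simp [pts], (3 - z) / 3, 0, by ring, fun y hy => ?_⟩
    have h1 := (hK y hy).1
    rw [add_zero, abs_mul, abs_of_nonpos (by linarith), abs_sub_comm,
      abs_of_nonneg (by linarith [(abs_le.1 h1).2] : 0 ≤ z - y)]
    nlinarith [(abs_le.1 h1).2]
  rcases le_or_gt z (-3) with h4 | h4
  · refine ⟨-3, by simp [pts], (3 + z) / 3, 0, by ring, fun y hy => ?_⟩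
    have h1 := (hK y hy).1
    rw [add_zero, abs_mul, abs_of_nonpos (by linarith),
      abs_of_nonneg (by linarith [(abs_le.1 h1).1] : 0 ≤ y - z)]
    nlinarith [(abs_le.1 h1).1]
  obtain ⟨p, hp, hmin⟩ := ({c, e, 1} : Finset ℝ).exists_min_image (fun p => |z - p|) (by simp)
  have m1 := hmin c (by simp)
  have m2 := hmin e (by simp)
  have m3 := hmin 1 (by simp)
  have he' := abs_le.1 he
  have hz2 : z < e - r ∨ 1 + r < z := by
    rw [Set.mem_Icc, not_and_or, not_le, not_le] at hz'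
    exact hz'
  have hp' : r ≤ |z - p| ∧ |p| ≤ 1 := by
    simp only [Finset.mem_insert, Finset.mem_singleton] at hp
    rcases hp with rfl | rfl | rfl
    · exact ⟨hz.le, hc⟩
    · refine ⟨?_, he⟩
      rcases hz2 with h | h
      · exact le_abs.2 (Or.inr (by linarith))
      · exact le_abs.2 (Or.inl (by linarith))
    · refine ⟨?_, by simp⟩
      rcases hz2 with h | h
      · exact le_abs.2 (Or.inr (by linarith))
      · exact le_abs.2 (Or.inl (by linarith))
  have hfar : ∀ y ∈ K, |z - p| ≤ 2 * |y - z| := by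
    intro y hy
    rcases (hK y hy).2 with h | h
    · have := abs_sub_le z y c
      rw [abs_sub_comm z y] at this
      linarith
    · rcases hz2 with h' | h'
      · rw [abs_of_nonpos (by linarith : z - e ≤ 0)] at m2
        rw [abs_of_nonneg (by linarith [h.1] : 0 ≤ y - z)]
        linarith [h.1]
      · rw [abs_of_nonneg (by linarith : 0 ≤ z - 1)] at m3
        rw [abs_of_nonpos (by linarith [h.2] : y - z ≤ 0)]
        linarith [h.2]
  obtain ⟨i, i1, i2⟩ := exists_nat_pow_near (x := |z - p| / r) (y := 5 / 4)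
    (by rw [le_div_iff₀ hr]; linarith [hp'.1]) (by norm_num)
  rw [le_div_iff₀ hr] at i1
  rw [div_lt_iff₀ hr, pow_succ] at i2
  have hi : i < T := by
    have a1 : |z - p| < 4 := abs_lt.2 ⟨by linarith [(abs_le.1 hp'.2).2],
      by linarith [(abs_le.1 hp'.2).1]⟩
    have a2 : (5 / 4 : ℝ) ^ i < (5 / 4) ^ T := lt_of_mul_lt_mul_left (by linarith) hr.le
    exact (pow_lt_pow_iff_right₀ (by norm_num)).1 a2
  have key : ∀ σ ∈ ({1, -1} : Finset ℝ), |p + σ * (r * (5 / 4) ^ i) - z| ≤ |z - p| / 4 →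
      ∃ x ∈ pts c e r T, Cel K x z := fun σ hσ h =>
    ⟨p + σ * (r * (5 / 4) ^ i), Finset.mem_union_left _ (Finset.mem_image.2
      ⟨((p, σ), i), Finset.mk_mem_product (Finset.mk_mem_product hp hσ) (Finset.mem_range.2 hi),
        rfl⟩), 0, p + σ * (r * (5 / 4) ^ i) - z, by ring, fun y hy => by
          rw [zero_mul, zero_add]; linarith [hfar y hy]⟩
  rcases abs_cases (z - p) with ⟨h, -⟩ | ⟨h, -⟩
  · exact key 1 (by simp) (abs_le.2 ⟨by linarith, by linarith⟩)
  · exact key (-1) (by simp) (abs_le.2 ⟨by linarith, by linarith⟩)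

lemma prod_close {ι : Type*} (s : Multiset ι) (f g : ι → ℂ) (u : ℝ) (hu : 0 ≤ u)
    (h : ∀ i ∈ s, ‖f i - g i‖ ≤ u * ‖g i‖) (hs : s.card * u ≤ 1) :
    ‖(s.map f).prod - (s.map g).prod‖ ≤ 2 * (s.card * u) * ‖(s.map g).prod‖ := by
  have key : ‖(s.map f).prod - (s.map g).prod‖
      ≤ (Real.exp (s.card * u) - 1) * ‖(s.map g).prod‖ := by
    clear hs
    induction s using Multiset.induction_on with
    | empty => simp
    | cons a s ih =>
      have h1 := ih (fun i hi => h i (Multiset.mem_cons_of_mem hi))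
      have h2 := h a (Multiset.mem_cons_self _ _)
      simp only [Multiset.map_cons, Multiset.prod_cons, Multiset.card_cons]
      set F := (s.map f).prod
      set G := (s.map g).prod
      have h3 : ‖f a‖ ≤ (1 + u) * ‖g a‖ := by
        have := norm_add_le (f a - g a) (g a)
        rw [sub_add_cancel] at this
        linarith
      have h4 := Real.add_one_le_exp u
      have h5 : 1 ≤ Real.exp (s.card * u) := Real.one_le_exp (by positivity)
      rw [show f a * F - g a * G = f a * (F - G) + (f a - g a) * G by ring]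
      refine (norm_add_le _ _).trans ?_
      rw [norm_mul, norm_mul, norm_mul]
      push_cast
      rw [add_mul, one_mul, Real.exp_add]
      calc _ ≤ ((1 + u) * ‖g a‖) * ((Real.exp (s.card * u) - 1) * ‖G‖) + (u * ‖g a‖) * ‖G‖ := by
            gcongr
        _ = (Real.exp (s.card * u) * (u + 1) - 1) * (‖g a‖ * ‖G‖) := by ring
        _ ≤ _ := by gcongr
  refine key.trans (mul_le_mul_of_nonneg_right ?_ (norm_nonneg _))
  have h0 : 0 ≤ s.card * u := by positivity
  have := Real.abs_exp_sub_one_le (x := s.card * u) (by rwa [abs_of_nonneg h0])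
  rw [abs_of_nonneg h0] at this
  exact (le_abs_self _).trans this

lemma exists_re (Q : ℂ[X]) : ∃ Q' : ℝ[X], Q'.natDegree ≤ Q.natDegree ∧
    ∀ x : ℝ, Q'.eval x = (Q.eval (x : ℂ)).re := by
  refine ⟨∑ i ∈ range (Q.natDegree + 1), C (Q.coeff i).re * X ^ i,
    natDegree_sum_le_of_forall_le _ _ (fun i hi => (natDegree_C_mul_X_pow_le _ _).trans
      (Nat.lt_succ_iff.1 (Finset.mem_range.1 hi))), fun x => ?_⟩
  rw [eval_eq_sum_range (p := Q), Complex.re_sum, eval_finsetSum]
  refine Finset.sum_congr rfl (fun i _ => ?_)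
  rw [← Complex.ofReal_pow, Complex.re_mul_ofReal]
  simp

/-- Zeros close to `c` can be moved to prescribed real points close to `c`. -/
lemma swap (P : ℝ[X]) (hP : P ≠ 0) (R : Finset ℂ) (c r γ : ℝ) (hr : 0 ≤ r) (hγ : 0 < γ)
    (hR : ∀ z ∈ R, aeval z P = 0 ∧ ‖z - c‖ ≤ r) (s : Multiset ℝ) (hs : ∀ y ∈ s, |y - c| ≤ r)
    (hc : s.card = R.card) (hsm : 4 * (R.card * (r / γ)) ≤ 1) :
    ∃ Q : ℝ[X], Q.natDegree + R.card ≤ P.natDegree ∧ ∀ x : ℝ, γ ≤ |x - c| →
      |P.eval x - (s.map (fun y => x - y)).prod * Q.eval x|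
        ≤ 8 * (R.card * (r / γ)) * |P.eval x| := by
  classical
  have hP' : P.map (algebraMap ℝ ℂ) ≠ 0 := Polynomial.map_ne_zero hP
  obtain ⟨P1, h1⟩ := (Multiset.prod_X_sub_C_dvd_iff_le_roots hP' R.val).2
    ((Multiset.le_iff_subset R.nodup).2 (fun z hz => by
      rw [mem_roots hP', IsRoot.def, eval_map_algebraMap]; exact (hR z hz).1))
  obtain ⟨Q, q1, q2⟩ := exists_re P1
  refine ⟨Q, ?_, fun x hx => ?_⟩
  · have a1 := congrArg natDegree h1
    rw [natDegree_map, natDegree_mul (left_ne_zero_of_mul (h1 ▸ hP'))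
      (right_ne_zero_of_mul (h1 ▸ hP')), natDegree_multiset_prod_X_sub_C_eq_card] at a1
    change _ = R.card + _ at a1
    omega
  have h2 := congrArg (eval (x : ℂ)) h1
  rw [eval_map_algebraMap, H13.aeval_real, eval_mul, eval_multiset_prod, Multiset.map_map] at h2
  simp only [Function.comp_def, eval_sub, eval_X, eval_C] at h2
  have hxc : γ ≤ ‖(x : ℂ) - c‖ := by rwa [← Complex.ofReal_sub, Complex.norm_real]
  have hu : 0 ≤ r / γ := by positivity
  have hrγ : r ≤ r / γ * ‖(x : ℂ) - c‖ := by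
    rw [div_mul_eq_mul_div, le_div_iff₀ hγ]; gcongr
  have c1 := prod_close R.val (fun z => (x : ℂ) - z) (fun _ => (x : ℂ) - c) (r / γ) hu
    (fun z hz => by
      rw [show (x : ℂ) - z - (x - c) = -(z - c) by ring, norm_neg]
      exact (hR z hz).2.trans hrγ) (by change (R.card : ℝ) * _ ≤ 1; nlinarith)
  have c2 := prod_close s (fun y => ((x - y : ℝ) : ℂ)) (fun _ => (x : ℂ) - c) (r / γ) hu
    (fun y hy => by
      rw [show ((x - y : ℝ) : ℂ) - (x - c) = -((y - c : ℝ) : ℂ) by push_cast; ring, norm_neg,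
        Complex.norm_real]
      exact (hs y hy).trans hrγ) (by rw [hc]; nlinarith)
  rw [Multiset.map_const', Multiset.prod_replicate] at c1 c2
  rw [hc] at c2
  change ‖_ - _ ^ R.card‖ ≤ 2 * (R.card * _) * ‖_ ^ R.card‖ at c1
  have e : (s.map (fun y => ((x - y : ℝ) : ℂ))).prod = (((s.map (fun y => x - y)).prod : ℝ) : ℂ) := by
    rw [← Complex.ofRealHom_eq_coe, map_multiset_prod, Multiset.map_map]
    rfl
  rw [e] at c2
  set W := (s.map (fun y => x - y)).prod
  set Z := (R.val.map (fun z => (x : ℂ) - z)).prod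
  set G := ((x : ℂ) - c) ^ R.card
  set u := (R.card : ℝ) * (r / γ)
  have hu0 : 0 ≤ u := by positivity
  have d1 : ‖G‖ ≤ 2 * ‖Z‖ := by
    have := norm_sub_norm_le G Z
    rw [norm_sub_rev] at this
    nlinarith [norm_nonneg G]
  have d2 : ‖Z - W‖ ≤ 8 * u * ‖Z‖ := by
    have := norm_sub_le (Z - G) (W - G)
    rw [sub_sub_sub_cancel_right] at this
    nlinarith
  have d3 : P.eval x - W * Q.eval x = ((Z - W) * P1.eval (x : ℂ)).re := by
    rw [sub_mul, ← h2, q2, Complex.sub_re, Complex.ofReal_re, Complex.re_ofReal_mul]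
  rw [d3]
  refine (Complex.abs_re_le_norm _).trans ?_
  rw [← Real.norm_eq_abs, ← Complex.norm_real, h2, norm_mul, norm_mul, ← mul_assoc]
  gcongr

/-- A polynomial without zeros near `a` varies slowly near `a`. -/
lemma slow (D : ℝ[X]) (a z : ℂ) (ε : ℝ) (hε : 0 < ε) (n : ℕ) (hn : D.natDegree ≤ n)
    (hD : ∀ w : ℂ, ‖w - a‖ ≤ ε → aeval w D ≠ 0) (hz : n * (‖z - a‖ / ε) ≤ 1) :
    ‖aeval z D - aeval a D‖ ≤ 2 * (n * (‖z - a‖ / ε)) * ‖aeval a D‖ := by
  have hD0 : D ≠ 0 := by
    rintro rfl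
    exact hD a (by simpa using hε.le) (by simp)
  have hD' : D.map (algebraMap ℝ ℂ) ≠ 0 := Polynomial.map_ne_zero hD0
  have hs := (IsAlgClosed.splits (D.map (algebraMap ℝ ℂ))).eval_eq_prod_roots
  have hc : ((D.map (algebraMap ℝ ℂ)).roots.card : ℝ) ≤ n := by
    have := card_roots' (D.map (algebraMap ℝ ℂ))
    rw [natDegree_map] at this
    exact_mod_cast this.trans hn
  have hu : 0 ≤ ‖z - a‖ / ε := by positivity
  have h1 := prod_close (D.map (algebraMap ℝ ℂ)).roots (fun w => z - w) (fun w => a - w) _ hu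
    (fun w hw => by
      rw [mem_roots hD', IsRoot.def, eval_map_algebraMap] at hw
      have : ε ≤ ‖a - w‖ := by
        rw [norm_sub_rev]
        exact (not_le.1 (fun h => hD w h hw)).le
      rw [sub_sub_sub_cancel_right, div_mul_eq_mul_div, le_div_iff₀ hε]
      gcongr) (le_trans (by gcongr) hz)
  rw [← eval_map_algebraMap, ← eval_map_algebraMap, hs, hs, ← mul_sub, norm_mul, norm_mul,
    mul_left_comm]
  gcongr
  exact h1.trans (by gcongr)

end Pool.Agent.MP_f6b137_pr.H26
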