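import Mathlib
import Pool.Agent.MP_f6b137_pr.H13.Cluster
import Pool.Agent.MP_f6b137_pr.H26.Bulk
import Pool.Agent.MP_f6b137_pr.H26.Repl

set_option autoImplicit false

open Finset Polynomial Real intervalIntegral
open scoped RealInnerProductSpace

namespace Pool.Agent.MP_f6b137_pr.H26

open H13

variable {B : ℝ[X] →ₗ[ℝ] ℝ[X] →ₗ[ℝ] ℝ} {p : ℕ → ℝ[X]}

lemma comb_lt (hp : IsONP B p) {N : ℕ} (hN : 0 < N) (a : EuclideanSpace ℝ (Fin N)) :
    (comb p N a).natDegree < N := hp.comb_natDegree hN a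

lemma exists_comb' (hp : IsONP B p) {N : ℕ} (Q : ℝ[X]) (hQ : Q.natDegree < N) :
    ∃ c, comb p N c = Q := hp.exists_comb N Q (degree_le_natDegree.trans_lt (Nat.cast_lt.2 hQ))

lemma eval_kdir (hp : IsONP B p) {N : ℕ} (hN : 0 < N) (a : EuclideanSpace ℝ (Fin N)) (x : ℝ) :
    (comb p N a).eval x = ‖vals p N x‖ * ⟪kdir p N x, a⟫ := by
  rw [eval_comb, kdir, real_inner_smul_left, mul_inv_cancel_left₀
    (norm_ne_zero_iff.2 (hp.vals_ne hN x))]

lemma off (hp : IsONP B p) {N : ℕ} (hN : 0 < N) (K : Set ℝ)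
    (hmono : ∀ (Q P : ℝ[X]) (l : ℝ), Q.natDegree < N → P.natDegree < N →
      (∀ y ∈ K, |Q.eval y| ≤ l * |P.eval y|) → B Q Q ≤ 9 * l ^ 2 * B P P)
    (a : EuclideanSpace ℝ (Fin N)) (x : ℝ) (R : Finset ℝ)
    (hR : ∀ z ∈ R, Cel K x z ∧ (comb p N a).eval z = 0) (D : ℕ) (hD : D ≤ R.card) :
    |⟪kdir p N x, a⟫| ≤ 3 * (1 / 2) ^ D * ‖a‖ := by
  obtain ⟨Q, q1, q2, q3⟩ := replace K x R _ hR
  have hd := comb_lt hp hN a
  have h1 := hmono Q _ _ (by omega) hd q3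
  obtain ⟨c, rfl⟩ := exists_comb' hp Q (N := N) (by omega)
  rw [hp.form_comb_self, hp.form_comb_self] at h1
  rw [eval_kdir hp hN, eval_kdir hp hN] at q2
  rw [← mul_left_cancel₀ (norm_ne_zero_iff.2 (hp.vals_ne hN x)) q2]
  refine (abs_real_inner_le_norm _ _).trans ?_
  rw [hp.norm_kdir hN, one_mul]
  have h2 : ‖c‖ ≤ 3 * (1 / 2) ^ R.card * ‖a‖ :=
    (abs_le_of_sq_le_sq' (by nlinarith) (by positivity)).2
  have h3 : (1 / 2 : ℝ) ^ R.card ≤ (1 / 2) ^ D := pow_le_pow_of_le_one (by norm_num) (by norm_num) hD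
  exact h2.trans (by gcongr)

lemma Expn.nrm_le {M H e r : ℝ} {N : ℕ} {P : ℝ[X]} {c : ℕ → ℝ} (h : Expn M H N P c) (hH : 0 < H)
    (h1 : M - H = e - r) (h2 : M + H = 1 + r) (hr : 0 ≤ r) (he : e ≤ 1)
    (hs : 4 * r * (N : ℝ) ^ 3 ≤ H) : H * nrm N c ≤ ∫ x in e..1, P.eval x ^ 2 := by
  have a1 := h.parseval hH
  have a2 := h.sup hH
  rw [h1, h2] at a1 a2
  have hc : Continuous (fun x => P.eval x ^ 2) := by fun_prop
  rw [← integral_add_adjacent_intervals (b := e) (hc.intervalIntegrable _ _)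
    (hc.intervalIntegrable _ _), ← integral_add_adjacent_intervals (a := e) (b := 1)
    (hc.intervalIntegrable _ _) (hc.intervalIntegrable _ _)] at a1
  have a3 := integral_mono_on (μ := MeasureTheory.volume) (by linarith : e - r ≤ e)
    (hc.intervalIntegrable _ _) (continuous_const.intervalIntegrable _ _)
    (fun x hx => a2 x ⟨hx.1, by linarith [hx.2]⟩)
  have a4 := integral_mono_on (μ := MeasureTheory.volume) (by linarith : 1 ≤ 1 + r)
    (hc.intervalIntegrable _ _) (continuous_const.intervalIntegrable _ _)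
    (fun x hx => a2 x ⟨by linarith [hx.1], hx.2⟩)
  rw [integral_const, smul_eq_mul] at a3 a4
  nlinarith [mul_le_mul_of_nonneg_right hs (nrm_nonneg N c)]

lemma vals_lower (hp : IsONP B p) {N : ℕ} {M H e r : ℝ} (hH : 0 < H) (hH2 : H ≤ 2)
    (h1 : M - H = e - r) (h2 : M + H = 1 + r) (hr : 0 ≤ r) (he : e ≤ 1) (V : ℝ[X]) (ρ : ℕ)
    (hρ : V.natDegree + 2 * ρ < N) (hV : ∀ x ∈ Set.Icc (e - r) (1 + r), 1 / 2 ≤ V.eval x ∧
      V.eval x ≤ 1)
    (hup : ∀ Q : ℝ[X], (V * Q).natDegree < N →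
      B (V * Q) (V * Q) ≤ 3 * ∫ x in e..1, (V * Q).eval x ^ 2) (θ : ℝ) :
    (ρ : ℝ) / 768 ≤ ‖vals p N (M + H * cos θ)‖ ^ 2 := by
  obtain ⟨Q, q1, q2, q3⟩ := exists_peak M H hH ρ θ
  have hd : (V * Q).natDegree < N := natDegree_mul_le.trans_lt (by omega)
  have a1 := hup Q hd
  obtain ⟨c, hc⟩ := exists_comb' hp _ hd
  rw [h1, h2] at q3
  have a2 : ∫ x in e..1, (V * Q).eval x ^ 2 ≤ ∫ x in e..1, Q.eval x ^ 2 :=
    integral_mono_on he (Continuous.intervalIntegrable (by fun_prop) _ _)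
      (Continuous.intervalIntegrable (by fun_prop) _ _) (fun x hx => by
        obtain ⟨b1, b2⟩ := hV x ⟨by linarith [hx.1], by linarith [hx.2]⟩
        rw [eval_mul, mul_pow]
        have : V.eval x ^ 2 ≤ 1 := by nlinarith
        nlinarith [sq_nonneg (Q.eval x)])
  have a3 : ∫ x in e..1, Q.eval x ^ 2 ≤ ∫ x in (e - r)..(1 + r), Q.eval x ^ 2 :=
    integral_mono_interval (by linarith) he (by linarith)
      (Filter.Eventually.of_forall (fun _ => sq_nonneg _))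
      (Continuous.intervalIntegrable (by fun_prop) _ _)
  have a4 := eval_comb p N (M + H * cos θ) c
  rw [← hc, hp.form_comb_self, hc] at a1
  rw [hc, eval_mul] at a4
  have a5 := (hV (M + H * cos θ) ⟨by nlinarith [neg_one_le_cos θ], by nlinarith [cos_le_one θ]⟩).1
  have a6 := real_inner_le_norm (vals p N (M + H * cos θ)) c
  set q := Q.eval (M + H * cos θ)
  rcases Nat.eq_zero_or_pos ρ with h0 | h0
  · simp [h0]
  have hρ0 : (0 : ℝ) < ρ := by exact_mod_cast h0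
  have hq : 0 < q := by linarith
  have a7 : q / 2 ≤ ‖vals p N (M + H * cos θ)‖ * ‖c‖ := by nlinarith
  have a8 := pow_le_pow_left₀ (by positivity) a7 2
  have a9 : ‖c‖ ^ 2 ≤ 24 * q := by nlinarith
  have a10 : q * q ≤ (96 * ‖vals p N (M + H * cos θ)‖ ^ 2) * q := by
    nlinarith [mul_le_mul_of_nonneg_left a9 (sq_nonneg ‖vals p N (M + H * cos θ)‖)]
  have := le_of_mul_le_mul_right a10 hq
  linarith

lemma half_le_sin {u θ : ℝ} (hu : 0 ≤ u) (h1 : u ≤ θ) (h2 : θ ≤ π - u) : u / 2 ≤ sin θ := by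
  have key : ∀ θ, u ≤ θ → θ ≤ π / 2 → u / 2 ≤ sin θ := fun θ h1 h2 => by
    refine le_trans ?_ (mul_le_sin (hu.trans h1) h2)
    have : 1 / 2 ≤ 2 / π := by rw [div_le_div_iff₀ two_pos pi_pos]; linarith [pi_le_four]
    nlinarith
  rcases le_total θ (π / 2) with h | h
  · exact key θ h1 h
  · rw [← sin_pi_sub]
    exact key _ (by linarith) (by linarith)

open Classical in
/-- The number of real zeros away from the cluster is stable under bounded perturbations. -/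
theorem rest_cmp (hp : IsONP B p) {N : ℕ} (hN : 0 < N) (K : Set ℝ) (c e r M H τ : ℝ) (T : ℕ)
    (hc : |c| ≤ 1) (he : |e| ≤ 1) (hr : 0 < r) (hT : 4 ≤ r * (5 / 4) ^ T)
    (hK : ∀ y ∈ K, |y| ≤ 1 ∧ (|y - c| ≤ r / 2 ∨ y ∈ Set.Icc e 1)) (hH : 0 < H)
    (h1 : M - H = e - r) (h2 : M + H = 1 + r) (hce : c + r < e - r)
    (hs : 4 * r * (N : ℝ) ^ 3 ≤ H) (hτ : 0 < τ)
    (hmono : ∀ (Q P : ℝ[X]) (l : ℝ), Q.natDegree < N → P.natDegree < N →
      (∀ y ∈ K, |Q.eval y| ≤ l * |P.eval y|) → B Q Q ≤ 9 * l ^ 2 * B P P)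
    (hlow : ∀ P : ℝ[X], P.natDegree < N → τ * ∫ x in e..1, P.eval x ^ 2 ≤ 3 * B P P)
    (l0 : ℝ) (hl0 : 0 < l0) (hl : ∀ θ, l0 ≤ ‖vals p N (M + H * cos θ)‖)
    (nJ D q : ℕ) (h κ s ζ W R b1 b2 : ℝ) (hh : 0 < h) (hπ : nJ * h = π) (hhN : 4 * h * N ≤ 1)
    (hκ : 2 * h ≤ κ) (hq : 2 * N * κ < q) (hs0 : 0 < s) (hζ : 0 ≤ ζ)
    (z1 : 3 * (1 / 2) ^ D * W ≤ ζ) (z2 : N * (3 * W ^ 2) ≤ τ * H * (4 ^ D * (h / 2 * l0 * ζ) ^ 2))
    (z3 : 16 * (3 * R ^ 2) ≤ τ * H * (b1 * ((κ / 4 * l0 * s) ^ 2 * h)))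
    (z4 : 4 * h ^ 3 * N ^ 4 * (3 * W ^ 2) ≤ τ * H * (b2 * (κ / 4 * l0 * s) ^ 2))
    (a a' : EuclideanSpace ℝ (Fin N)) (ha : ‖a‖ ≤ W) (haa : ‖a - a'‖ ≤ R)
    (g1 : ∀ x ∈ pts c e r T, ζ < |⟪kdir p N x, a⟫|)
    (g2 : ∀ J : ℕ, J < nJ → ζ < |⟪kdir p N (M + H * cos (J * h)), a⟫|) :
    (((comb p N a).roots.toFinset.filter (fun z => r < |z - c|)).card : ℝ)
      ≤ ((comb p N a').roots.toFinset.filter (fun z => r < |z - c|)).card
        + D * (6 * T + 2 + 2 * q + 2 * (Finset.univ.filter (fun J : Fin nJ =>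
          |⟪kdir p N (M + H * cos ((J : ℕ) * h)), a⟫| ≤ s)).card + 2 * b1 + b2) := by
  have he1 := (abs_le.1 he).2
  have hτH := mul_pos hτ hH
  have hex : ∀ x : EuclideanSpace ℝ (Fin N), ∀ w : ℝ, ‖x‖ ≤ w →
      ∃ u, Expn M H N (comb p N x) u ∧ τ * H * nrm N u ≤ 3 * w ^ 2 := by
    intro x w hw
    obtain ⟨u, hu⟩ := exists_expn M H N _ (comb_lt hp hN x)
    refine ⟨u, hu, ?_⟩
    have b1 := mul_le_mul_of_nonneg_left (hu.nrm_le hH h1 h2 hr.le he1 hs) hτ.le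
    have b2 := hlow _ (comb_lt hp hN x)
    rw [hp.form_comb_self] at b2
    have b3 := pow_le_pow_left₀ (norm_nonneg _) hw 2
    linarith
  obtain ⟨u, hu, hu'⟩ := hex a W ha
  obtain ⟨d, hd, hd'⟩ := hex (a - a') R haa
  set P := comb p N a with hP
  set P' := comb p N a' with hP'
  have hval : ∀ θ w v : ℝ, 0 < w → 0 ≤ v → w ≤ θ → θ ≤ π - w →
      v < |⟪kdir p N (M + H * cos θ), a⟫| → w / 2 * l0 * v < |sfun N u 0 θ| := by
    intro θ w v hw hv t1 t2 t3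
    have b1 := half_le_sin hw.le t1 t2
    rw [← hu θ, hP, eval_kdir hp hN, abs_mul, abs_mul, abs_of_nonneg (by linarith),
      abs_of_nonneg (norm_nonneg _), ← mul_assoc]
    exact mul_lt_mul' (mul_le_mul b1 (hl θ) hl0.le (by linarith)) t3 hv
      (mul_pos (by linarith) (hl0.trans_le (hl θ)))
  set RE := P.roots.toFinset.filter (fun z => z ∈ Set.Icc (e - r) (1 + r)) with hRE
  have hang : ∀ z ∈ RE, M + H * cos (arccos ((z - M) / H)) = z := fun z hz =>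
    exists_angle hH (by rw [h1, h2]; exact (Finset.mem_filter.1 hz).2)
  have hroot : ∀ z ∈ P.roots.toFinset, P.eval z = 0 := fun z hz =>
    (mem_roots'.1 (Multiset.mem_toFinset.1 hz)).2
  obtain ⟨V, hV, hV'⟩ := theta_cmp N nJ D q hN u d (fun θ => sin θ * P'.eval (M + H * cos θ))
    (fun θ => by rw [← hu θ, ← hd θ, map_sub, eval_sub]; ring) h κ (κ / 4 * l0 * s) b1 b2 hh hπ hhN
    hκ hq (by have : 0 < κ := by linarith
              positivity)
    (RE.image (fun z => arccos ((z - M) / H))) (fun θ hθ => by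
      obtain ⟨z, hz, rfl⟩ := Finset.mem_image.1 hθ
      refine ⟨⟨arccos_nonneg _, arccos_le_pi _⟩, ?_⟩
      rw [← hu, hang z hz, hroot z (Finset.mem_filter.1 hz).1, mul_zero])
    (fun J j1 j2 => by
      have b1 : (1 : ℝ) ≤ J := by exact_mod_cast j1
      have b2 : (J : ℝ) + 1 ≤ nJ := by exact_mod_cast j2
      have b3 := hval (J * h) h ζ hh hζ (by linarith [mul_le_mul_of_nonneg_right b1 hh.le])
        (by linarith [mul_le_mul_of_nonneg_right b2 hh.le]) (g2 J j2)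
      have b4 := pow_lt_pow_left₀ b3 (by positivity) two_ne_zero
      rw [sq_abs] at b4
      have b5 := mul_lt_mul_of_pos_left b4 (by positivity : (0 : ℝ) < 4 ^ D)
      refine lt_of_le_of_lt (le_of_mul_le_mul_left (le_trans ?_ z2) hτH) b5
      linarith [mul_le_mul_of_nonneg_left hu' (Nat.cast_nonneg (α := ℝ) N)])
    ((Finset.univ.filter (fun J : Fin nJ =>
      |⟪kdir p N (M + H * cos ((J : ℕ) * h)), a⟫| ≤ s)).image Fin.val)
    (fun J j1 j2 j3 j4 => by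
      have := hval (J * h) (κ / 2) s (by linarith) hs0.le j3 j4 (not_le.1 (fun hle => j2
        (Finset.mem_image.2 ⟨⟨J, j1⟩, Finset.mem_filter.2 ⟨Finset.mem_univ _, hle⟩, rfl⟩)))
      rwa [show κ / 2 / 2 = κ / 4 by ring] at this)
    (le_of_mul_le_mul_left (le_trans (by linarith) z3) hτH)
    (le_of_mul_le_mul_left (le_trans (by
      linarith [mul_le_mul_of_nonneg_left hu' (by positivity : 0 ≤ 4 * h ^ 3 * (N : ℝ) ^ 4)]) z4) hτH)
  rw [Finset.card_image_of_injective _ Fin.val_injective, Finset.card_image_of_injOn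
    (fun x hx y hy hxy => by rw [← hang x hx, ← hang y hy, hxy])] at hV'
  have c1 : V.card ≤ (P'.roots.toFinset.filter (fun z => r < |z - c|)).card := by
    have hex2 : ∀ J : ℕ, ∃ θ : ℝ, J ∈ V → θ ∈ Set.Ioo (J * h) ((J + 1) * h) ∧
        sin θ * P'.eval (M + H * cos θ) = 0 := by
      intro J
      by_cases hJ : J ∈ V
      · obtain ⟨θ, hθ⟩ := ivt_sign (fun θ => sin θ * P'.eval (M + H * cos θ)) _ _ (by linarith)
          (by fun_prop) (hV J hJ).2
        exact ⟨θ, fun _ => hθ⟩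
      · exact ⟨0, fun h => absurd h hJ⟩
    choose θ hθ using hex2
    have hin : ∀ J ∈ V, 0 < θ J ∧ θ J < π := fun J hJ => by
      have b1 : (J : ℝ) + 1 ≤ nJ := by exact_mod_cast (hV J hJ).1
      obtain ⟨⟨b2, b3⟩, -⟩ := hθ J hJ
      exact ⟨lt_of_le_of_lt (by positivity) b2, by
        linarith [mul_le_mul_of_nonneg_right b1 hh.le]⟩
    refine Finset.card_le_card_of_injOn (fun J => M + H * cos (θ J)) (fun J hJ => ?_)
      (fun J hJ J' hJ' hJJ => ?_)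
    · have hJ' : J ∈ V := hJ
      have b1 : P' ≠ 0 := by
        intro h0
        simpa [h0] using (hV J hJ').2
      have b2 := (mul_eq_zero.1 (hθ J hJ').2).resolve_left
        (sin_pos_of_pos_of_lt_pi (hin J hJ').1 (hin J hJ').2).ne'
      refine Finset.mem_coe.2 (Finset.mem_filter.2 ⟨by simp [b1, b2], lt_abs.2 (Or.inl ?_)⟩)
      linarith [mul_le_mul_of_nonneg_left (neg_one_le_cos (θ J)) hH.le]
    · have b1 : cos (θ J) = cos (θ J') := mul_left_cancel₀ hH.ne' (add_left_cancel hJJ)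
      have b2 := injOn_cos ⟨(hin J hJ).1.le, (hin J hJ).2.le⟩ ⟨(hin J' hJ').1.le, (hin J' hJ').2.le⟩ b1
      obtain ⟨⟨b3, b4⟩, -⟩ := hθ J hJ
      obtain ⟨⟨b5, b6⟩, -⟩ := hθ J' hJ'
      have b7 : (J : ℝ) < J' + 1 := lt_of_mul_lt_mul_right (by linarith) hh.le
      have b8 : (J' : ℝ) < J + 1 := lt_of_mul_lt_mul_right (by linarith) hh.le
      have b9 : J < J' + 1 := by exact_mod_cast b7
      have b10 : J' < J + 1 := by exact_mod_cast b8
      omega
  set RO := P.roots.toFinset.filter (fun z => r < |z - c| ∧ z ∉ Set.Icc (e - r) (1 + r)) with hRO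
  have c2 : RO.card ≤ (6 * T + 2) * D := by
    refine (card_cover RO (pts c e r T) (Cel K) (fun z hz => pts_cover K c e r T hc he hr hT hK z
      (Finset.mem_filter.1 hz).2.1 (Finset.mem_filter.1 hz).2.2)).trans ?_
    refine (Finset.sum_le_sum (g := fun _ => D) (fun x hx => ?_)).trans ?_
    · by_contra hcon
      have b1 := off hp hN K hmono a x _ (fun z hz => ⟨(Finset.mem_filter.1 hz).2,
        hroot z (Finset.mem_filter.1 (Finset.mem_filter.1 hz).1).1⟩) D (not_le.1 hcon).le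
      have b2 := g1 x hx
      have b3 : 3 * (1 / 2 : ℝ) ^ D * ‖a‖ ≤ 3 * (1 / 2) ^ D * W := by gcongr
      linarith
    · rw [Finset.sum_const, smul_eq_mul]
      exact Nat.mul_le_mul_right _ (pts_card c e r T)
  have c3 : (P.roots.toFinset.filter (fun z => r < |z - c|)).card ≤ RO.card + RE.card := by
    refine le_trans (Finset.card_le_card (fun z hz => ?_)) (Finset.card_union_le _ _)
    obtain ⟨b1, b2⟩ := Finset.mem_filter.1 hz
    by_cases hz' : z ∈ Set.Icc (e - r) (1 + r)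
    · exact Finset.mem_union_right _ (Finset.mem_filter.2 ⟨b1, hz'⟩)
    · exact Finset.mem_union_left _ (Finset.mem_filter.2 ⟨b1, b2, hz'⟩)
  have c4 := (Nat.cast_le (α := ℝ)).2 (c3.trans (Nat.add_le_add_right c2 _))
  have c5 := (Nat.cast_le (α := ℝ)).2 c1
  push_cast at c4
  linarith

end Pool.Agent.MP_f6b137_pr.H26
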