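import Mathlib
import Pool.Agent.MP_f6b137_pr.H13.Events
import Pool.Agent.MP_f6b137_pr.H26.Rest

set_option autoImplicit false

open Finset Polynomial
open scoped RealInnerProductSpace

namespace Pool.Agent.MP_f6b137_pr.H26

open H13

variable {B : ℝ[X] →ₗ[ℝ] ℝ[X] →ₗ[ℝ] ℝ} {p q : ℕ → ℝ[X]}
variable {J : Type} [Fintype J] [DecidableEq J] {s : ℕ}

omit [DecidableEq J] in
lemma transfer2 {n : ℕ} (hn : n + 1 = 2 * Fintype.card J + s) (T : VV J s →ₗ[ℝ] ℝ[X])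
    (hT : ∀ ξ, (T ξ).natDegree ≤ n) (hp : IsONP B p) (η : ℝ) (hη : η ≤ 1 / 2)
    (hgram : ∀ ξ, |B (T ξ) (T ξ) - ‖ξ‖ ^ 2| ≤ η * ‖ξ‖ ^ 2) :
    ∃ O : EuclideanSpace ℝ (Fin (n + 1)) ≃ₗᵢ[ℝ] VV J s, ∀ a, ∃ x, T x = comb p (n + 1) a ∧
      ‖x - O a‖ ≤ 2 * η * ‖a‖ := by
  have hdeg : ∀ ξ, (T ξ).degree < (n + 1 : ℕ) := fun ξ =>
    degree_le_natDegree.trans_lt (Nat.cast_lt.2 (Nat.lt_succ_of_le (hT ξ)))
  have hA : ∀ ξ, comb p (n + 1) (((coord B p (n + 1)).comp T) ξ) = T ξ := fun ξ =>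
    hp.comb_coord _ (hdeg ξ)
  obtain ⟨O, hO⟩ := polar (E := VV J s) (F := EuclideanSpace ℝ (Fin (n + 1)))
    (by simp [hn, mul_comm]) ((coord B p (n + 1)).comp T) η hη (fun ξ => by
      rw [← hp.form_comb_self, hA]; exact hgram ξ)
  refine ⟨O, fun a => ?_⟩
  obtain ⟨x, hx, hxa⟩ := hO a
  exact ⟨x, by rw [← hx, hA], hxa⟩

lemma local_of {T : VV J s →ₗ[ℝ] ℝ[X]} {D : J → ℝ[X]} {y : J → ℝ} {ε : ℝ}
    {k : J → EuclideanSpace ℝ (Fin s)} (hk : ∀ j, ‖k j‖ = 1) {lam : ℝ}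
    (hloc : Shape T D y ε k lam) (x x' : VV J s) (h : lam * ‖x‖ + 11 * ‖x - x'‖ ≤ 1 / 5) (j : J) :
    Local (T x) (D j) (y j) ε ⟪zvec J (k j), x'⟫ ⟪evec s (j, true), x'⟫ ⟪evec s (j, false), x'⟫ := by
  intro t ht
  obtain ⟨h1, h2⟩ := hloc x j t ht
  refine ⟨h1, ?_⟩
  have hd : ∀ v : VV J s, ‖v‖ = 1 → ‖((⟪v, x⟫ : ℝ) : ℂ) - (⟪v, x'⟫ : ℝ)‖ ≤ ‖x - x'‖ := by
    intro v hv
    rw [← Complex.ofReal_sub, Complex.norm_real, ← inner_sub_right]
    refine (norm_inner_le_norm (𝕜 := ℝ) _ _).trans ?_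
    rw [hv, one_mul]
  have d1 := hd (zvec J (k j)) (by rw [norm_zvec, hk])
  have d2 := hd (evec s (j, true)) (norm_evec _)
  have d3 := hd (evec s (j, false)) (norm_evec _)
  rw [← inner_zvec, ← inner_evec, ← inner_evec] at h2
  have t1 : ‖t ^ 2 - 1‖ ≤ 5 := by
    refine (norm_sub_le _ _).trans ?_
    rw [norm_pow, norm_one]
    nlinarith [norm_nonneg t]
  have t2 : ‖t + 1‖ ≤ 3 := (norm_add_le _ _).trans (by rw [norm_one]; linarith)
  have t3 : ‖t - 1‖ ≤ 3 := (norm_sub_le _ _).trans (by rw [norm_one]; linarith)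
  set w := aeval ((y j : ℂ) + ε * t) (T x) / aeval ((y j : ℂ) + ε * t) (D j)
  set Z : ℂ := ((⟪zvec J (k j), x⟫ : ℝ) : ℂ)
  set Z' : ℂ := ((⟪zvec J (k j), x'⟫ : ℝ) : ℂ)
  set X1 : ℂ := ((⟪evec s (j, true), x⟫ : ℝ) : ℂ)
  set X1' : ℂ := ((⟪evec s (j, true), x'⟫ : ℝ) : ℂ)
  set Y1 : ℂ := ((⟪evec s (j, false), x⟫ : ℝ) : ℂ)
  set Y1' : ℂ := ((⟪evec s (j, false), x'⟫ : ℝ) : ℂ)
  have e : w - ((t ^ 2 - 1) * Z' + (t + 1) * X1' + (t - 1) * Y1')
      = (w - ((t ^ 2 - 1) * Z + (t + 1) * X1 + (t - 1) * Y1))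
        + ((t ^ 2 - 1) * (Z - Z') + (t + 1) * (X1 - X1') + (t - 1) * (Y1 - Y1')) := by ring
  rw [e]
  refine (norm_add_le _ _).trans ?_
  have b1 : ‖(t ^ 2 - 1) * (Z - Z')‖ ≤ 5 * ‖x - x'‖ := by rw [norm_mul]; gcongr
  have b2 : ‖(t + 1) * (X1 - X1')‖ ≤ 3 * ‖x - x'‖ := by rw [norm_mul]; gcongr
  have b3 : ‖(t - 1) * (Y1 - Y1')‖ ≤ 3 * ‖x - x'‖ := by rw [norm_mul]; gcongr
  have b4 := norm_add₃_le (a := (t ^ 2 - 1) * (Z - Z')) (b := (t + 1) * (X1 - X1'))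
    (c := (t - 1) * (Y1 - Y1'))
  linarith

omit [Fintype J] [DecidableEq J] in
open Classical in
lemma count_lower2 (P : ℝ[X]) (D : J → ℝ[X]) (y Z X Y : J → ℝ) (ε : ℝ) (hε : 0 < ε)
    (hsep : ∀ i j, i ≠ j → 4 * ε ≤ |y i - y j|) (c r : ℝ) (hy : ∀ j, |y j - c| + 2 * ε ≤ r)
    (G : Finset J) (hloc : ∀ j ∈ G, Local P (D j) (y j) ε (Z j) (X j) (Y j))
    (hG : ∀ j ∈ G, |X j| + |Y j| + 1 < |Z j|) :
    2 * G.card ≤ (P.roots.toFinset.filter (fun z => ¬ r < |z - c|)).card := by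
  have hex : ∀ a : J × Bool, ∃ t : ℝ, a.1 ∈ G → (|t| < 2 ∧ (if a.2 then 0 < t else t < 0) ∧
      P ≠ 0 ∧ P.eval (y a.1 + ε * t) = 0) := by
    rintro ⟨j, b⟩
    by_cases hj : j ∈ G
    · obtain ⟨h0, ⟨t1, h1, h1'⟩, ⟨t2, h2, h2'⟩⟩ := (hloc j hj).real_roots (hG j hj)
      cases b
      · exact ⟨t1, fun _ => ⟨abs_lt.2 ⟨h1.1, by linarith [h1.2]⟩, by simpa using h1.2, h0, h1'⟩⟩
      · exact ⟨t2, fun _ => ⟨abs_lt.2 ⟨by linarith [h2.1], h2.2⟩, by simpa using h2.1, h0, h2'⟩⟩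
    · exact ⟨0, fun h => absurd h hj⟩
  choose t ht using hex
  have h := Finset.card_le_card_of_injOn (s := G ×ˢ (Finset.univ : Finset Bool))
    (t := P.roots.toFinset.filter (fun z => ¬ r < |z - c|)) (fun a => y a.1 + ε * t a)
    (fun a ha => by
      obtain ⟨h2, -, h0, h1⟩ := ht a (Finset.mem_product.1 (Finset.mem_coe.1 ha)).1
      refine Finset.mem_coe.2 (Finset.mem_filter.2 ⟨by simp [h0, h1], not_lt.2 ?_⟩)
      have b1 := abs_add_le (y a.1 - c) (ε * t a)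
      rw [abs_mul, abs_of_pos hε] at b1
      rw [add_sub_right_comm]
      nlinarith [hy a.1]) (by
      intro a ha b hb hab
      obtain ⟨a1, a2, -, -⟩ := ht a (Finset.mem_product.1 (Finset.mem_coe.1 ha)).1
      obtain ⟨b1, b2, -, -⟩ := ht b (Finset.mem_product.1 (Finset.mem_coe.1 hb)).1
      simp only at hab
      have h1 : a.1 = b.1 := by
        by_contra hne
        have h2 := hsep _ _ hne
        have h3 : y a.1 - y b.1 = ε * (t b - t a) := by linarith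
        rw [h3, abs_mul, abs_of_pos hε] at h2
        have h4 := abs_sub (t b) (t a)
        nlinarith
      have h2 : t a = t b := by
        rw [h1] at hab
        exact mul_left_cancel₀ hε.ne' (by linarith)
      refine Prod.ext h1 ?_
      rw [h2] at a2
      revert a2 b2
      cases a.2 <;> cases b.2 <;> simp <;> intro h <;> exact h.le)
  simpa [mul_comm] using h

omit [Fintype J] [DecidableEq J] in
open Classical in
lemma count_upper2 (P : ℝ[X]) (D : J → ℝ[X]) (y Z X Y : J → ℝ) (ε : ℝ) (hε : 0 < ε)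
    (hsep : ∀ i j, i ≠ j → 4 * ε ≤ |y i - y j|) (c r : ℝ) (hy : ∀ j, |y j - c| + 2 * ε ≤ r)
    (G : Finset J) (hloc : ∀ j ∈ G, Local P (D j) (y j) ε (Z j) (X j) (Y j))
    (hG : ∀ j ∈ G, Box (Z j) (X j) (Y j)) :
    ∃ R : Finset ℂ, R.card = (P.roots.toFinset.filter (fun z => ¬ r < |z - c|)).card + G.card ∧
      ∀ z ∈ R, aeval z P = 0 ∧ ‖z - c‖ ≤ r := by
  have hex : ∀ j : J, ∃ t : ℂ, j ∈ G →
      (‖t - Complex.I‖ ≤ 1 / 2 ∧ aeval ((y j : ℂ) + ε * t) P = 0) := by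
    intro j
    by_cases hj : j ∈ G
    · obtain ⟨t, ht⟩ := (hloc j hj).complex_root (hG j hj)
      exact ⟨t, fun _ => ht⟩
    · exact ⟨0, fun h => absurd h hj⟩
  choose t ht using hex
  have him : ∀ j ∈ G, 1 / 2 ≤ (t j).im ∧ |(t j).re| ≤ 1 / 2 := by
    intro j hj
    have h1 := (Complex.abs_im_le_norm _).trans (ht j hj).1
    have h2 := (Complex.abs_re_le_norm _).trans (ht j hj).1
    simp only [Complex.sub_im, Complex.I_im, Complex.sub_re, Complex.I_re, sub_zero] at h1 h2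
    exact ⟨by linarith [(abs_le.1 h1).1], h2⟩
  let R1 : Finset ℂ := (P.roots.toFinset.filter (fun z => ¬ r < |z - c|)).image
    (fun x : ℝ => (x : ℂ))
  let R2 : Finset ℂ := G.image (fun j => (y j : ℂ) + ε * t j)
  have c1 : R1.card = _ := Finset.card_image_of_injective _ Complex.ofReal_injective
  have c2 : R2.card = G.card := by
    refine Finset.card_image_of_injOn (fun i hi j hj hij => ?_)
    by_contra hne
    have h2 := hsep _ _ hne
    have h3 := congrArg Complex.re hij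
    simp only [Complex.add_re, Complex.ofReal_re, Complex.mul_re, Complex.ofReal_im, zero_mul,
      sub_zero] at h3
    have h4 : y i - y j = ε * ((t j).re - (t i).re) := by linarith
    rw [h4, abs_mul, abs_of_pos hε] at h2
    have h5 := abs_sub (t j).re (t i).re
    have := (him i hi).2
    have := (him j hj).2
    nlinarith
  have hdisj : Disjoint R1 R2 := by
    rw [Finset.disjoint_left]
    intro w h1 h2
    obtain ⟨x, -, rfl⟩ := Finset.mem_image.1 h1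
    obtain ⟨j, hj, hjx⟩ := Finset.mem_image.1 h2
    have h3 := congrArg Complex.im hjx
    simp only [Complex.add_im, Complex.ofReal_im, Complex.mul_im, Complex.ofReal_re, zero_mul,
      add_zero, zero_add] at h3
    have := (him j hj).1
    nlinarith
  refine ⟨R1 ∪ R2, by rw [Finset.card_union_of_disjoint hdisj, c1, c2], fun w hw => ?_⟩
  rcases Finset.mem_union.1 hw with h | h
  · obtain ⟨x, hx, rfl⟩ := Finset.mem_image.1 h
    obtain ⟨h1, h2⟩ := Finset.mem_filter.1 hx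
    refine ⟨by rw [aeval_real, (mem_roots'.1 (Multiset.mem_toFinset.1 h1)).2]; simp, ?_⟩
    rw [← Complex.ofReal_sub, Complex.norm_real]
    exact not_lt.1 h2
  · obtain ⟨j, hj, rfl⟩ := Finset.mem_image.1 h
    refine ⟨(ht j hj).2, ?_⟩
    have h1 := norm_add_le (t j - Complex.I) Complex.I
    rw [sub_add_cancel, Complex.norm_I] at h1
    have h2 := norm_add_le (((y j - c : ℝ) : ℂ)) (ε * t j)
    rw [norm_mul, Complex.norm_real, Complex.norm_real, Real.norm_eq_abs, Real.norm_eq_abs,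
      abs_of_pos hε] at h2
    rw [show (y j : ℂ) + ε * t j - c = ((y j - c : ℝ) : ℂ) + ε * t j by push_cast; ring]
    nlinarith [hy j, (ht j hj).1]

omit [DecidableEq J] in
lemma om_eval (y : J → ℝ) (ε x : ℝ) : (om y ε).eval x = ∏ a, (x - atom y ε a) := by
  rw [om, eval_prod, Fintype.prod_prod_type]
  refine Finset.prod_congr rfl (fun j _ => ?_)
  simp [FF, atom, sg]
  ring

variable {Φ : ℝ[X] →ₗ[ℝ] ℝ} {E : Set ℝ}

/-- The ideal quadratic form. -/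
noncomputable def ideal (Φ : ℝ[X] →ₗ[ℝ] ℝ) (y : J → ℝ) (ε : ℝ) (q : ℕ → ℝ[X]) (s : ℕ)
    (P : ℝ[X]) : ℝ :=
  Φ (P * P) + ∑ a, ((GG y ε q s a).eval (atom y ε a) ^ 2)⁻¹ * P.eval (atom y ε a) ^ 2

/-- Too many zeros near the cluster force a small value of one coordinate. -/
lemma clus_upper (hΦ : Fnl Φ E) (y : J → ℝ) (ε : ℝ) (hq : IsONP (wform Φ (om y ε)) q)
    (hs : 0 < s) (hG : ∀ a, (GG y ε q s a).eval (atom y ε a) ≠ 0) (η : ℝ) (hη0 : 0 ≤ η)
    (hη : η ≤ 1 / 2)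
    (hgram : ∀ ξ, |ideal Φ y ε q s (TT y ε q s ξ) - ‖ξ‖ ^ 2| ≤ η * ‖ξ‖ ^ 2)
    (c r γ : ℝ) (hr : 0 ≤ r) (hγ : 0 < γ) (hfar : ∀ x ∈ E, γ ≤ |x - c|)
    (hat : ∀ a, |atom y ε a - c| ≤ r) (ω : ℝ)
    (hω : 8 * ((2 * Fintype.card J + 1) * (r / γ)) ≤ ω) (hω1 : ω ≤ 1) (ξ : VV J s)
    (h0 : TT y ε q s ξ ≠ 0) (R : Finset ℂ) (hR : ∀ z ∈ R, aeval z (TT y ε q s ξ) = 0 ∧ ‖z - c‖ ≤ r)
    (hc : 2 * Fintype.card J + 1 ≤ R.card) :
    ⟪zvec J (kdir q s c), ξ⟫ ^ 2 ≤ (2 * ω ^ 2 + 6 * η) * ‖ξ‖ ^ 2 := by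
  obtain ⟨R', hR', hc'⟩ := Finset.exists_subset_card_eq hc
  have hcr : (R'.card : ℝ) = 2 * Fintype.card J + 1 := by rw [hc']; push_cast; rfl
  obtain ⟨Q, q1, q2⟩ := swap _ h0 R' c r γ hr hγ (fun z hz => hR z (hR' hz))
    (c ::ₘ Finset.univ.val.map (atom y ε)) (fun x hx => by
      rcases Multiset.mem_cons.1 hx with rfl | hx
      · simpa using hr
      · obtain ⟨a, -, rfl⟩ := Multiset.mem_map.1 hx
        exact hat a) (by rw [hc']; simp [mul_comm]) (by rw [hcr]; linarith)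
  have hd := TT_deg hq hs y ε (2 * Fintype.card J + s - 1) (by omega) ξ
  obtain ⟨c', hc''⟩ := exists_comb' hq ((X - C c) * Q) (N := s) (by
    have := natDegree_mul_le (p := X - C c) (q := Q)
    rw [natDegree_X_sub_C] at this
    omega)
  set P := TT y ε q s ξ with hP
  have e1 : TT y ε q s (ξ - zvec J c') = P - om y ε * ((X - C c) * Q) := by
    rw [map_sub, TT_apply y ε q s (zvec J c'), cpart_zvec, hc'']
    simp [zvec, hP]
  have hsum : ∀ x : VV J s, ideal Φ y ε q s (TT y ε q s x)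
      = Φ (TT y ε q s x * TT y ε q s x) + ∑ a, x (Sum.inl a) ^ 2 := by
    intro x
    rw [ideal]
    refine congrArg _ (Finset.sum_congr rfl (fun a _ => ?_))
    rw [TT_atom]
    have := hG a
    field_simp
  have e2 : Φ (TT y ε q s (ξ - zvec J c') * TT y ε q s (ξ - zvec J c')) ≤ ω ^ 2 * Φ (P * P) := by
    rw [e1, ← smul_eq_mul (ω ^ 2), ← map_smul]
    refine hΦ.le (fun x hx => ?_)
    have b1 := q2 x (hfar x hx)
    rw [Multiset.map_cons, Multiset.prod_cons, Multiset.map_map, hcr] at b1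
    have b2 : (Finset.univ.val.map ((fun y => x - y) ∘ atom y ε)).prod = (om y ε).eval x :=
      (om_eval y ε x).symm
    rw [b2] at b1
    have b3 := pow_le_pow_left₀ (abs_nonneg _)
      (b1.trans (mul_le_mul_of_nonneg_right hω (abs_nonneg _))) 2
    rw [mul_pow, sq_abs, sq_abs] at b3
    simp only [eval_mul, eval_sub, eval_X, eval_C, eval_smul, smul_eq_mul]
    nlinarith
  have g1 := (abs_le.1 (hgram ξ)).2
  have g2 := (abs_le.1 (hgram (ξ - zvec J c'))).1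
  rw [hsum] at g1 g2
  have n1 := norm_sq_VV ξ
  have n2 := norm_sq_VV (ξ - zvec J c')
  have e3 : ∑ a, (ξ - zvec J c') (Sum.inl a) ^ 2 = ∑ a, ξ (Sum.inl a) ^ 2 := by simp [zvec]
  rw [e3] at g2 n2
  have s0 : 0 ≤ ∑ a, ξ (Sum.inl a) ^ 2 := Finset.sum_nonneg (fun _ _ => sq_nonneg _)
  have e4 : ⟪zvec J (kdir q s c), ξ⟫ = ⟪kdir q s c, cpart (ξ - zvec J c')⟫ := by
    have b1 := eval_kdir hq hs c' c
    rw [hc''] at b1
    simp only [eval_mul, eval_sub, eval_X, eval_C, sub_self, zero_mul] at b1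
    rw [inner_zvec, map_sub, cpart_zvec, inner_sub_right, (mul_eq_zero.1 b1.symm).resolve_left
      (norm_ne_zero_iff.2 (hq.vals_ne hs c)), sub_zero]
  have e5 := pow_le_pow_left₀ (abs_nonneg _)
    (abs_real_inner_le_norm (kdir q s c) (cpart (ξ - zvec J c'))) 2
  rw [hq.norm_kdir hs, one_mul, sq_abs, ← e4] at e5
  have hω0 : 0 ≤ ω := le_trans (by positivity) hω
  have f1 : Φ (P * P) ≤ 2 * ‖ξ‖ ^ 2 := by nlinarith [sq_nonneg ‖ξ‖]
  have f2 := mul_le_mul_of_nonneg_left f1 (sq_nonneg ω)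
  have f3 : ω ^ 2 * ‖ξ‖ ^ 2 ≤ ‖ξ‖ ^ 2 := mul_le_of_le_one_left (sq_nonneg _) (by nlinarith)
  have f4 := mul_le_mul_of_nonneg_right hη (sq_nonneg ‖ξ - zvec J c'‖)
  have f5 : ‖ξ - zvec J c'‖ ^ 2 ≤ 6 * ‖ξ‖ ^ 2 := by linarith [sq_nonneg ‖cpart ξ‖]
  have f6 := mul_le_mul_of_nonneg_left f5 hη0
  linarith

lemma kdir_close (hΦ : Fnl Φ E) (w : ℝ[X]) (hq : IsONP (wform Φ w) q) (hs : 0 < s) (c γ : ℝ)
    (hγ : 0 < γ) (hfar : ∀ x ∈ E, γ ≤ |x - c|) (z : ℝ) (hz : 4 * |z - c| ≤ γ) :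
    1 / 2 ≤ |⟪kdir q s z, kdir q s c⟫| := by
  have e : ‖(z : ℂ) - c‖ = |z - c| := by rw [← Complex.ofReal_sub, Complex.norm_real]; rfl
  have h := (hq.kernel hs c γ hγ (far_form hΦ _ _ γ hγ.le hfar) z
    (by rw [e]; linarith [abs_nonneg (z - c)])).2.2 (kdir q s z)
  rw [e, aeval_real, aeval_real, ← Complex.ofReal_mul, ← Complex.ofReal_sub, Complex.norm_real,
    Complex.norm_real, eval_kdir hq hs, eval_kdir hq hs, real_inner_self_eq_norm_sq,
    hq.norm_kdir hs, real_inner_comm (kdir q s z), Real.norm_eq_abs, Real.norm_eq_abs] at h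
  have hv := norm_pos_iff.2 (hq.vals_ne hs z)
  set v := ‖vals q s z‖
  set g := ⟪kdir q s z, kdir q s c⟫
  rw [abs_mul, abs_of_pos hv] at h
  have h1 : 2 * |z - c| / γ ≤ 1 / 2 := by rw [div_le_iff₀ hγ]; linarith
  have h2 : v * (1 - |g| ^ 2) ≤ v * (1 / 2 * |g|) := by
    have := mul_le_mul_of_nonneg_right h1 (mul_nonneg hv.le (abs_nonneg g))
    rw [sq_abs]
    have h' := ((le_abs_self _).trans h).trans ((mul_one _).trans_le this)
    linarith
  have h3 := le_of_mul_le_mul_left h2 hv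
  nlinarith [abs_nonneg g]

/-- The atoms have exponentially small weights. -/
lemma weight2 {e : ℝ} (hΦ : Fnl Φ (Set.Icc e 1)) (he : |e| < 1) (y : J → ℝ) (ε ρ sep : ℝ)
    (hε : 0 < ε) (hρ : 2 * ε ≤ ρ) (hsep : 4 * ε ≤ sep) (hsep2 : sep ≤ 2)
    (hy : ∀ i j, i ≠ j → sep ≤ |y i - y j|) (hy1 : ∀ j, -1 ≤ y j) (hfar : ∀ j, y j + ρ ≤ e)
    (hq : IsONP (wform Φ (om y ε)) q) (hs : 0 < s) (a : J × Bool) :
    ε ^ 2 * ((sep / 2) ^ (2 * Fintype.card J) * (1 + ρ / 4) ^ (s - 1))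
      ≤ 4 ^ Fintype.card J * |(GG y ε q s a).eval (atom y ε a)| := by
  obtain ⟨he1, he2⟩ := abs_lt.1 he
  have h1e : 0 < 1 - e := by linarith
  refine le_trans ?_ (weight hΦ y ε ρ hε hρ (fun j x hx => le_abs.2 (Or.inl (by
    linarith [hfar j, hx.1]))) hq hs ((C (1 - e)⁻¹ * (1 - X)) ^ (s - 1)) ?_ _ (by positivity)
    (fun x hx => ?_) a)
  · have ha : ∀ b : Bool, |sg b * ε| = ε := fun b => by rw [abs_mul, abs_sg, abs_of_pos hε, one_mul]
    have h1 : (sep / 2) ^ (2 * Fintype.card J) ≤ |(Om y ε a.1).eval (atom y ε a)| := by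
      rw [Om, eval_prod, Finset.abs_prod]
      refine le_trans ?_ (Finset.prod_le_prod (f := fun _ => (sep / 2) ^ 2)
        (fun _ _ => sq_nonneg _) (fun i hi => ?_))
      · rw [Finset.prod_const, ← pow_mul]
        refine pow_le_pow_of_le_one (by linarith) (by linarith) (Nat.mul_le_mul_left _ ?_)
        exact Finset.card_le_univ _
      · have b1 := hy a.1 i (Finset.mem_erase.1 hi).1.symm
        have b2 := abs_sub_abs_le_abs_sub (y a.1 - y i) (-(sg a.2 * ε))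
        rw [abs_neg, ha, show y a.1 - y i - -(sg a.2 * ε) = atom y ε a - y i by
          rw [atom]; ring] at b2
        have b3 := pow_le_pow_left₀ (by linarith) (by linarith : 3 / 4 * sep ≤ |atom y ε a - y i|) 2
        rw [sq_abs] at b3
        refine le_trans ?_ (le_abs_self _)
        simp only [FF, eval_sub, eval_pow, eval_X, eval_C]
        nlinarith
    have h2 : 1 + ρ / 4 ≤ (1 - e)⁻¹ * (1 - atom y ε a) := by
      rw [le_inv_mul_iff₀ h1e, atom]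
      have := (abs_le.1 (ha a.2).le).2
      nlinarith [hfar a.1]
    rw [eval_mul, abs_mul]
    refine mul_le_mul_of_nonneg_left (mul_le_mul h1 (le_trans ?_ (le_abs_self _))
      (pow_nonneg (by linarith) _) (abs_nonneg _)) (sq_nonneg _)
    simp only [eval_pow, eval_mul, eval_C, eval_sub, eval_one, eval_X]
    exact pow_le_pow_left₀ (by linarith) h2 _
  · refine degree_le_natDegree.trans_lt (Nat.cast_lt.2 (natDegree_pow_le.trans_lt ?_))
    have : (C (1 - e)⁻¹ * (1 - X) : ℝ[X]).natDegree ≤ 1 := by compute_degree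
    have := Nat.mul_le_mul_left (s - 1) this
    omega
  · rw [eval_mul, abs_mul, ← mul_one (4 ^ Fintype.card J)]
    refine mul_le_mul ?_ ?_ (abs_nonneg _) (by positivity)
    · rw [om, eval_prod, Finset.abs_prod, ← Finset.card_univ, ← Finset.prod_const]
      refine Finset.prod_le_prod (fun _ _ => abs_nonneg _) (fun j _ => ?_)
      simp only [FF, eval_sub, eval_pow, eval_X, eval_C]
      have b1 : ε ≤ x - y j := by linarith [hfar j, hx.1]
      have b2 : x - y j ≤ 2 := by linarith [hy1 j, hx.2]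
      exact abs_le.2 ⟨by nlinarith, by nlinarith⟩
    · simp only [eval_pow, eval_mul, eval_C, eval_sub, eval_one, eval_X]
      rw [abs_pow]
      refine pow_le_one₀ (abs_nonneg _) (abs_le.2 ⟨le_trans (by norm_num)
        (mul_nonneg (inv_nonneg.2 h1e.le) (by linarith [hx.2])), ?_⟩)
      rw [inv_mul_le_iff₀ h1e]
      linarith [hx.1]

/-- Variation of the polynomial near an atom. -/
lemma near_atom (y : J → ℝ) (ε : ℝ) (hε : 0 < ε) {k : J → EuclideanSpace ℝ (Fin s)}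
    (hk : ∀ j, ‖k j‖ = 1) {lam : ℝ} (hlam : lam ≤ 1)
    (hloc : Shape (TT y ε q s) (DD y ε q s) y ε k lam) (n : ℕ) (hn1 : 1 ≤ n)
    (hn : ∀ j, (DD y ε q s j).natDegree ≤ n) (δ : ℝ) (hδ : n * (δ / ε) ≤ 1 / 2) (ξ : VV J s)
    (a : J × Bool) (t : ℝ) (ht : |t - atom y ε a| ≤ δ) :
    |(TT y ε q s ξ).eval t ^ 2 - (TT y ε q s ξ).eval (atom y ε a) ^ 2|
      ≤ 600 * (n * (δ / ε)) * ‖ξ‖ ^ 2 * (GG y ε q s a).eval (atom y ε a) ^ 2 := by
  set P := TT y ε q s ξ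
  set D := DD y ε q s a.1
  set x := atom y ε a with hx
  have hε' : (ε : ℂ) ≠ 0 := Complex.ofReal_ne_zero.2 hε.ne'
  have hn' : (1 : ℝ) ≤ n := by exact_mod_cast hn1
  have hδ0 : 0 ≤ δ / ε := div_nonneg ((abs_nonneg _).trans ht) hε.le
  have hw : ∀ w : ℂ, ‖w - x‖ ≤ ε → aeval w D ≠ 0 ∧ ‖aeval w P / aeval w D‖ ≤ 12 * ‖ξ‖ := by
    intro w hw
    have b1 : ‖(w - y a.1) / ε‖ ≤ 2 := by
      have := norm_add_le (w - x) ((sg a.2 * ε : ℝ) : ℂ)
      rw [Complex.norm_real, Real.norm_eq_abs, abs_mul, abs_sg, abs_of_pos hε,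
        show w - x + ((sg a.2 * ε : ℝ) : ℂ) = w - y a.1 by rw [hx, atom]; push_cast; ring] at this
      rw [norm_div, Complex.norm_real, Real.norm_eq_abs, abs_of_pos hε, div_le_iff₀ hε]
      linarith
    obtain ⟨b2, b3⟩ := hloc ξ a.1 _ b1
    rw [show (y a.1 : ℂ) + ε * ((w - y a.1) / ε) = w by field_simp; ring] at b2 b3
    refine ⟨b2, ?_⟩
    set u := (w - y a.1) / ε
    have t1 : ‖u ^ 2 - 1‖ ≤ 5 := by
      refine (norm_sub_le _ _).trans ?_
      rw [norm_pow, norm_one]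
      nlinarith [norm_nonneg u]
    have t2 : ‖u + 1‖ ≤ 3 := (norm_add_le _ _).trans (by rw [norm_one]; linarith)
    have t3 : ‖u - 1‖ ≤ 3 := (norm_sub_le _ _).trans (by rw [norm_one]; linarith)
    have d1 : ‖(u ^ 2 - 1) * (⟪k a.1, cpart ξ⟫ : ℝ)‖ ≤ 5 * ‖ξ‖ := by
      have := (norm_inner_le_norm (𝕜 := ℝ) (k a.1) (cpart ξ))
      rw [hk, one_mul] at this
      rw [norm_mul, Complex.norm_real]
      exact mul_le_mul t1 (this.trans (norm_cpart_le ξ)) (norm_nonneg _) (by norm_num)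
    have d2 : ‖(u + 1) * (ξ (Sum.inl (a.1, true)) : ℝ)‖ ≤ 3 * ‖ξ‖ := by
      rw [norm_mul, Complex.norm_real]
      exact mul_le_mul t2 (PiLp.norm_apply_le ξ _) (norm_nonneg _) (by norm_num)
    have d3 : ‖(u - 1) * (ξ (Sum.inl (a.1, false)) : ℝ)‖ ≤ 3 * ‖ξ‖ := by
      rw [norm_mul, Complex.norm_real]
      exact mul_le_mul t3 (PiLp.norm_apply_le ξ _) (norm_nonneg _) (by norm_num)
    have d4 := (norm_sub_norm_le _ _).trans b3
    have d5 := norm_add₃_le (a := (u ^ 2 - 1) * (⟪k a.1, cpart ξ⟫ : ℝ))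
      (b := (u + 1) * (ξ (Sum.inl (a.1, true)) : ℝ)) (c := (u - 1) * (ξ (Sum.inl (a.1, false)) : ℝ))
    linarith [mul_le_mul_of_nonneg_right hlam (norm_nonneg ξ)]
  have htx : ‖(t : ℂ) - x‖ / ε ≤ δ / ε := by
    rw [← Complex.ofReal_sub, Complex.norm_real]
    gcongr
    exact ht
  have htx' : ‖(t : ℂ) - x‖ < ε := by
    have : ‖(t : ℂ) - x‖ / ε < 1 := by nlinarith
    rwa [div_lt_one hε] at this
  have hsch := Complex.dist_le_div_mul_dist_of_mapsTo_ball (f := fun w => aeval w P / aeval w D)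
    (c := (x : ℂ)) (z := (t : ℂ)) (R₁ := ε) (R₂ := 24 * ‖ξ‖)
    ((P.differentiable_aeval (𝕜 := ℂ)).differentiableOn.div
      (D.differentiable_aeval (𝕜 := ℂ)).differentiableOn
      (fun w h => (hw w (mem_ball_iff_norm.1 h).le).1))
    (fun w h => mem_closedBall_iff_norm.2 ((norm_sub_le _ _).trans (by
      linarith [(hw w (mem_ball_iff_norm.1 h).le).2, (hw x (by simpa using hε.le)).2])))
    (mem_ball_iff_norm.2 htx')
  have hsl := slow D x t ε hε n (hn _) (fun w h => (hw w h).1) (by nlinarith)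
  obtain ⟨c1, c2⟩ := hw t htx'.le
  obtain ⟨c3, c4⟩ := hw x (by simpa using hε.le)
  rw [dist_eq_norm, dist_eq_norm, div_mul_eq_mul_div, mul_div_assoc] at hsch
  have hG : |(GG y ε q s a).eval x| = 2 * |D.eval x| := by
    simp only [GG, D, DD, eval_mul, eval_add, eval_sub, eval_X, eval_C]
    rw [show x - y a.1 + sg a.2 * ε = 2 * (sg a.2 * ε) by rw [hx, atom]; ring]
    simp only [abs_mul, abs_sg, abs_pow, abs_two]
    ring
  simp only [aeval_real, ← Complex.ofReal_div, ← Complex.ofReal_sub, Complex.norm_real,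
    Real.norm_eq_abs, ne_eq, Complex.ofReal_eq_zero] at hsch hsl c1 c2 c3 c4 htx
  set u := n * (δ / ε)
  have hu : δ / ε ≤ u := le_mul_of_one_le_left hδ0 hn'
  have k1 : |P.eval t / D.eval t - P.eval x / D.eval x| ≤ 24 * ‖ξ‖ * u :=
    hsch.trans (by gcongr; exact htx.trans hu)
  have k2 : |D.eval t - D.eval x| ≤ 2 * u * |D.eval x| := hsl.trans (by
    simp only [u]; gcongr)
  have k3 : |P.eval t - P.eval x| ≤ 48 * u * (‖ξ‖ * |D.eval x|) := by
    rw [show P.eval t - P.eval x = P.eval t / D.eval t * (D.eval t - D.eval x)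
      + (P.eval t / D.eval t - P.eval x / D.eval x) * D.eval x by field_simp; ring]
    refine (abs_add_le _ _).trans ?_
    rw [abs_mul, abs_mul]
    linarith [mul_le_mul c2 k2 (abs_nonneg _) (by positivity),
      mul_le_mul_of_nonneg_right k1 (abs_nonneg (D.eval x))]
  have k4 : |P.eval x| ≤ 12 * (‖ξ‖ * |D.eval x|) := by
    rw [abs_div, div_le_iff₀ (abs_pos.2 c3)] at c4
    linarith
  have k0 : 0 ≤ ‖ξ‖ * |D.eval x| := by positivity
  have k5 : |P.eval t + P.eval x| ≤ 48 * (‖ξ‖ * |D.eval x|) := by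
    have := abs_add_le (P.eval t - P.eval x) (2 * P.eval x)
    rw [abs_mul, abs_two, show P.eval t - P.eval x + 2 * P.eval x = P.eval t + P.eval x by
      ring] at this
    linarith [mul_le_mul_of_nonneg_right hδ k0]
  rw [sq_sub_sq, abs_mul, ← sq_abs ((GG y ε q s a).eval x), hG]
  have hu0 : 0 ≤ u := hδ0.trans hu
  nlinarith [mul_le_mul k5 k3 (abs_nonneg _) (by positivity), mul_nonneg hu0 (mul_nonneg k0 k0)]

omit [DecidableEq J] in
/-- A polynomial of small degree vanishing at given points and close to one on an interval. -/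
lemma exists_V (x : J → ℝ) (a b ρ : ℝ) (hρ : 0 < ρ) (hab : b - a ≤ 4) (hab' : a ≤ b)
    (hx : ∀ j, x j + ρ ≤ a) (D : ℕ) (hD : 4 * Fintype.card J ≤ (1 + ρ / 4) ^ D) :
    ∃ V : ℝ[X], V.natDegree ≤ Fintype.card J * D ∧ (∀ j, V.eval (x j) = 0) ∧
      ∀ t ∈ Set.Icc a b, 1 / 2 ≤ V.eval t ∧ V.eval t ≤ 1 := by
  refine ⟨∏ j, (1 - (C (b - x j)⁻¹ * (C b - X)) ^ D), ?_, fun j => ?_, fun t ht => ?_⟩
  · refine (natDegree_prod_le _ _).trans ((Finset.sum_le_sum (g := fun _ => D)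
      (fun j _ => ?_)).trans (by simp))
    refine (natDegree_sub_le _ _).trans (max_le (by simp) (natDegree_pow_le.trans ?_))
    have : (C (b - x j)⁻¹ * (C b - X) : ℝ[X]).natDegree ≤ 1 := by compute_degree
    simpa using Nat.mul_le_mul_left D this
  · rw [eval_prod]
    refine Finset.prod_eq_zero (Finset.mem_univ j) ?_
    have : b - x j ≠ 0 := by linarith [hx j]
    simp [inv_mul_cancel₀ this]
  · have hP : 0 < (1 + ρ / 4) ^ D := by positivity
    have h1 : ∀ j, 0 ≤ ((b - x j)⁻¹ * (b - t)) ^ D ∧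
        ((b - x j)⁻¹ * (b - t)) ^ D ≤ ((1 + ρ / 4) ^ D)⁻¹ := by
      intro j
      have b0 : 0 < b - x j := by linarith [hx j]
      have b1 : 0 ≤ (b - x j)⁻¹ * (b - t) := mul_nonneg (inv_nonneg.2 b0.le) (by linarith [ht.2])
      refine ⟨pow_nonneg b1 _, ?_⟩
      rw [← inv_pow]
      refine pow_le_pow_left₀ b1 ?_ _
      rw [inv_mul_le_iff₀ b0, ← div_eq_mul_inv, le_div_iff₀ (by positivity)]
      nlinarith [hx j, ht.1, ht.2]
    have h2 : ((1 + ρ / 4) ^ D)⁻¹ ≤ 1 := inv_le_one_of_one_le₀ (one_le_pow₀ (by linarith))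
    simp only [eval_prod, eval_sub, eval_one, eval_pow, eval_mul, eval_C, eval_X]
    refine ⟨le_trans ?_ (Finset.prod_le_prod (f := fun _ => 1 - ((1 + ρ / 4) ^ D)⁻¹)
      (fun _ _ => by linarith) (fun j _ => by linarith [(h1 j).2])),
      Finset.prod_le_one (fun j _ => by linarith [(h1 j).2]) (fun j _ => by linarith [(h1 j).1])⟩
    rw [Finset.prod_const, Finset.card_univ, sub_eq_add_neg]
    refine le_trans ?_ (one_add_mul_le_pow (by linarith) _)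
    have : (Fintype.card J : ℝ) * ((1 + ρ / 4) ^ D)⁻¹ ≤ 1 / 4 := by
      rw [← div_eq_mul_inv, div_le_iff₀ hP]; linarith
    linarith

end Pool.Agent.MP_f6b137_pr.H26
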