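import Mathlib
import Pool.Agent.MP_f6b137_pr.H13.Prob
import Pool.Agent.MP_0502fb_pr.H57.Gau

set_option autoImplicit false

open MeasureTheory ProbabilityTheory Filter Topology
open scoped RealInnerProductSpace

namespace Pool.Agent.MP_f6b137_pr.H26

/-- Two sets of Gaussian measure at least `η` are at bounded distance, in every dimension. -/
theorem iso (η : ℝ) (hη : 0 < η) : ∃ R : ℝ, 0 < R ∧
    ∀ (E : Type) [NormedAddCommGroup E] [InnerProductSpace ℝ E] [FiniteDimensional ℝ E]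
      [MeasurableSpace E] [BorelSpace E] (S S' : Set E), η ≤ (stdGaussian E).real S →
      η ≤ (stdGaussian E).real S' → ∃ x ∈ S, ∃ x' ∈ S', ‖x - x'‖ ≤ R := by
  refine ⟨8 / η + 1, by positivity, ?_⟩
  intro E _ _ _ _ _ S S' hS hS'
  set R := 8 / η + 1 with hR
  have h8 : 0 < 8 / η := by positivity
  by_contra hc
  push Not at hc
  have hfar : ∀ x ∈ closure S, ∀ x' ∈ closure S', R ≤ ‖x - x'‖ := by
    intro x hx x' hx'
    have h1 : closure (S ×ˢ S') ⊆ {z : E × E | R ≤ ‖z.1 - z.2‖} :=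
      closure_minimal (fun z hz => (hc _ hz.1 _ hz.2).le)
        (isClosed_le continuous_const (by fun_prop))
    rw [closure_prod_eq] at h1
    exact h1 (Set.mk_mem_prod hx hx')
  have hA : MeasurableSet (closure S) := isClosed_closure.measurableSet
  have hB : MeasurableSet (closure S') := isClosed_closure.measurableSet
  have key := MP_0502fb_pr.H57.plw_gam (E := E) (t := 1) zero_le_one (1 / 2) (by norm_num)
    (by norm_num) ((closure S).indicator 1) ((closure S').indicator 1)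
    (fun _ => ENNReal.ofReal (Real.exp (-(R ^ 2 / 8))))
    (measurable_one.indicator hA) (measurable_one.indicator hB) measurable_const
    (fun x y => by
      by_cases hx : x ∈ closure S
      · by_cases hy : y ∈ closure S'
        · simp only [Set.indicator_of_mem hx, Set.indicator_of_mem hy, Pi.one_apply,
            ENNReal.one_rpow, one_mul]
          rw [← ENNReal.ofReal_mul (Real.exp_pos _).le, ← Real.exp_add, ENNReal.one_le_ofReal,
            Real.one_le_exp_iff]
          have := pow_le_pow_left₀ (by positivity) (hfar x hx y hy) 2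
          linarith
        · rw [Set.indicator_of_notMem hy, ENNReal.zero_rpow_of_pos (by norm_num), mul_zero]
          exact zero_le
      · simp [hx])
  rw [lintegral_indicator_one hA, lintegral_indicator_one hB, MP_0502fb_pr.H57.gam_one,
    lintegral_const, measure_univ, mul_one] at key
  have h2 := ENNReal.toReal_mono ENNReal.ofReal_ne_top key
  rw [ENNReal.toReal_mul, ← ENNReal.toReal_rpow, ← ENNReal.toReal_rpow,
    ENNReal.toReal_ofReal (Real.exp_pos _).le] at h2
  have a1 : η ≤ ((stdGaussian E) (closure S)).toReal :=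
    hS.trans (measureReal_mono subset_closure)
  have a2 : η ≤ ((stdGaussian E) (closure S')).toReal :=
    hS'.trans (measureReal_mono subset_closure)
  have a3 : η ^ (1 / 2 : ℝ) * η ^ (1 - 1 / 2 : ℝ) ≤ Real.exp (-(R ^ 2 / 8)) :=
    le_trans (by gcongr) h2
  rw [← Real.rpow_add hη, show (1 / 2 + (1 - 1 / 2) : ℝ) = 1 by norm_num, Real.rpow_one,
    Real.exp_neg, le_inv_comm₀ hη (Real.exp_pos _)] at a3
  have a4 := Real.add_one_le_exp (R ^ 2 / 8)
  have a5 : 8 / η = 8 * η⁻¹ := by ring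
  nlinarith

/-- The distribution of `N` has two separated halves and is concentrated at scale `m`. -/
def Two {Ω : Type} [MeasurableSpace Ω] (μ : Measure Ω) (N : Ω → ℝ) (m p c η : ℝ) : Prop :=
  (∃ v : ℝ, p ≤ μ.real {a | N a ≤ v} ∧ p ≤ μ.real {a | v + c * m ≤ N a}) ∧
    ∃ u : ℝ, μ.real {a | ¬ (u ≤ N a ∧ N a ≤ u + 3 * m)} ≤ η

theorem two_sided {E : Type} [NormedAddCommGroup E] [MeasurableSpace E] (μ : Measure E)
    [IsProbabilityMeasure μ] (η R : ℝ) (hη : 0 < η)
    (hiso : ∀ S S' : Set E, η ≤ μ.real S → η ≤ μ.real S' → ∃ x ∈ S, ∃ x' ∈ S', ‖x - x'‖ ≤ R)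
    (N : E → ℕ) (n : ℕ) (hN : ∀ a, N a ≤ n) (NC : E → ℝ) (h0 : ∀ a, 0 ≤ NC a) (G A B : Set E)
    (m err p α β c : ℝ) (hG : μ.real Gᶜ ≤ η) (hA : p ≤ μ.real A) (hB : p ≤ μ.real B)
    (hp : 4 * η ≤ p) (hG1 : ∀ a ∈ G, NC a ≤ 2 * m) (herr : err ≤ m)
    (hcmp : ∀ a ∈ G, ∀ a', ‖a - a'‖ ≤ R → N a - NC a ≤ N a' - NC a' + err)
    (hA1 : ∀ a ∈ A, α ≤ NC a) (hB1 : ∀ a ∈ B, a ∈ G → NC a ≤ β) (hc : c * m ≤ α - β - err) :
    Two μ (fun a => (N a : ℝ)) m (p / 2) c (3 * η) := by
  classical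
  have hp1 : p ≤ 1 := hA.trans measureReal_le_one
  have hun : ∀ S T U : Set E, S ⊆ T ∪ U → μ.real S ≤ μ.real T + μ.real U := fun S T U h =>
    (measureReal_mono h).trans (measureReal_union_le _ _)
  constructor
  · have hex : ∃ v : ℕ, μ.real (B ∩ G ∩ {a | v ≤ N a}) < η := ⟨n + 1, by
      rw [show B ∩ G ∩ {a | n + 1 ≤ N a} = ∅ from Set.eq_empty_of_forall_notMem
        (fun a ha => by have := hN a; have := ha.2; simp only [Set.mem_ofPred_eq] at this; omega)]
      simpa using hη⟩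
    have h1 := Nat.find_spec hex
    have hBG := hun B Gᶜ (B ∩ G) (fun a ha => by
      by_cases h : a ∈ G
      · exact Or.inr ⟨ha, h⟩
      · exact Or.inl h)
    have h2 : Nat.find hex ≠ 0 := by
      intro h
      rw [h] at h1
      simp only [zero_le, Set.ofPred_true, Set.inter_univ] at h1
      linarith
    obtain ⟨v, hv⟩ := Nat.exists_eq_succ_of_ne_zero h2
    have h3 := Nat.find_min hex (m := v) (by omega)
    rw [hv] at h1
    push Not at h3
    refine ⟨v, ?_, ?_⟩
    · have := hun (B ∩ G) (B ∩ G ∩ {a | v.succ ≤ N a}) {a | (N a : ℝ) ≤ v} (fun a ha => by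
        by_cases h : v.succ ≤ N a
        · exact Or.inl ⟨ha, h⟩
        · exact Or.inr (by simp only [Set.mem_ofPred_eq]; exact_mod_cast (by omega : N a ≤ v)))
      linarith
    · have h4 : μ.real (A ∩ {a | (N a : ℝ) < v + c * m}) < η := by
        by_contra h5
        obtain ⟨a, ⟨⟨a1, a2⟩, a3⟩, a', ⟨b1, b2⟩, hd⟩ := hiso _ _ h3 (not_lt.1 h5)
        have c1 := hcmp a a2 a' hd
        have c2 : (v : ℝ) ≤ N a := by exact_mod_cast a3
        have c3 := hA1 a' b1
        have c4 := hB1 a a1 a2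
        simp only [Set.mem_ofPred_eq] at b2
        linarith
      have := hun A (A ∩ {a | (N a : ℝ) < v + c * m}) {a | v + c * m ≤ (N a : ℝ)} (fun a ha => by
        by_cases h : (N a : ℝ) < v + c * m
        · exact Or.inl ⟨ha, h⟩
        · exact Or.inr (not_lt.1 h))
      linarith
  · have hex : ∃ u : ℕ, η ≤ μ.real {a | N a ≤ u} := ⟨n, by
      rw [show {a | N a ≤ n} = Set.univ from Set.eq_univ_of_forall hN, probReal_univ]
      linarith⟩
    have h1 := Nat.find_spec hex
    set u := Nat.find hex with hu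
    have h2 : μ.real {a | N a < u} ≤ η := by
      rcases Nat.eq_zero_or_pos u with h | h
      · simp [h, hη.le]
      · have := Nat.find_min hex (m := u - 1) (by omega)
        rw [show {a | N a < u} = {a | N a ≤ u - 1} from Set.ext (fun a => by
          simp only [Set.mem_ofPred_eq]; omega)]
        exact (not_le.1 this).le
    have h3 : μ.real (G ∩ {a | (u : ℝ) + 3 * m < N a}) < η := by
      by_contra h5
      obtain ⟨a, ⟨a1, a2⟩, a', b1, hd⟩ := hiso _ _ (not_lt.1 h5) h1
      have c1 := hcmp a a1 a' hd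
      have c2 : (N a' : ℝ) ≤ u := by exact_mod_cast b1
      have c3 := hG1 a a1
      have c4 := h0 a'
      simp only [Set.mem_ofPred_eq] at a2
      linarith
    refine ⟨u, ?_⟩
    have h4 := hun {a | ¬ ((u : ℝ) ≤ N a ∧ (N a : ℝ) ≤ u + 3 * m)} {a | N a < u}
      (Gᶜ ∪ G ∩ {a | (u : ℝ) + 3 * m < N a}) (fun a ha => by
        by_cases h : N a < u
        · exact Or.inl h
        · by_cases h' : a ∈ G
          · refine Or.inr (Or.inr ⟨h', ?_⟩)
            have : (u : ℝ) ≤ N a := by exact_mod_cast not_lt.1 h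
            exact not_le.1 (fun h'' => ha ⟨this, h''⟩)
          · exact Or.inr (Or.inl h'))
    have h5 := measureReal_union_le (μ := μ) Gᶜ (G ∩ {a | (u : ℝ) + 3 * m < N a})
    linarith

lemma Two.map {Ω E : Type} [MeasurableSpace Ω] [MeasurableSpace E] (P : Measure Ω) (ξ : Ω → E)
    (hξ : Measurable ξ) (N : E → ℝ) (hN : Measurable N) {m p c η : ℝ}
    (h : Two (P.map ξ) N m p c η) : Two P (fun ω => N (ξ ω)) m p c η := by
  obtain ⟨⟨v, h1, h2⟩, u, h3⟩ := h
  have e : ∀ S : Set E, MeasurableSet S → (P.map ξ).real S = P.real (ξ ⁻¹' S) := fun S hS => by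
    rw [measureReal_def, measureReal_def, Measure.map_apply hξ hS]
  rw [e _ (measurableSet_le hN measurable_const)] at h1
  rw [e _ (measurableSet_le measurable_const hN)] at h2
  have hm : MeasurableSet {a | ¬ (u ≤ N a ∧ N a ≤ u + 3 * m)} :=
    ((measurableSet_le measurable_const hN).inter (measurableSet_le hN measurable_const)).compl
  rw [e _ hm] at h3
  exact ⟨⟨v, h1, h2⟩, u, h3⟩

lemma Two.variance {Ω : Type} [MeasurableSpace Ω] (P : Measure Ω) [IsProbabilityMeasure P]
    (N : Ω → ℝ) (hN : Measurable N) (n : ℝ) (hn : ∀ ω, |N ω| ≤ n) {m p c η : ℝ}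
    (hc : 0 ≤ c * m) (h : Two P N m p c η) : p * (c * m / 2) ^ 2 ≤ variance N P := by
  obtain ⟨⟨v, h1, h2⟩, -⟩ := h
  have := H13.variance_ge P N n hn _ _ (measurableSet_le measurable_const hN)
    (measurableSet_le hN measurable_const) p (v + c * m) v h2 h1 (by linarith)
    (fun ω hω => hω) (fun ω hω => hω)
  rwa [add_sub_cancel_left] at this

/-- No Gaussian limit, whatever the normalisation. -/
theorem no_clt {Ω : Type} [MeasurableSpace Ω] (P : Measure Ω) [IsProbabilityMeasure P]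
    (N : ℕ → Ω → ℝ) (hN : ∀ n, Measurable (N n)) (p c : ℝ) (hp : 0 < p) (hc : 0 < c)
    (hv : ∀ η : ℝ, 0 < η → ∃ᶠ n : ℕ in atTop, ∃ m : ℝ, 0 < m ∧ Two P (N n) m p c η)
    (μ σ : ℕ → ℝ) :
    ¬ TendstoInDistribution (fun n ω => (N n ω - μ n) / σ n) atTop id (fun _ => P)
      (gaussianReal 0 1) := by
  intro h
  have ht := h.tendsto
  have hZ : ∀ n, Measurable (fun ω => (N n ω - μ n) / σ n) := fun n => by
    have := hN n
    fun_prop
  obtain ⟨K, hK0, hK⟩ : ∃ K : ℝ, 0 < K ∧
      gaussianReal 0 1 {x | K ≤ |x|} < ENNReal.ofReal p := by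
    have a1 : Tendsto (fun k : ℕ => gaussianReal 0 1 {x : ℝ | (k : ℝ) + 1 ≤ |x|}) atTop
        (𝓝 (gaussianReal 0 1 (⋂ k : ℕ, {x : ℝ | (k : ℝ) + 1 ≤ |x|}))) :=
      tendsto_measure_iInter_atTop
        (fun k => (measurableSet_le measurable_const (by fun_prop)).nullMeasurableSet)
        (fun k l hkl x hx => by
          have : (k : ℝ) ≤ l := by exact_mod_cast hkl
          simp only [Set.mem_ofPred_eq] at hx ⊢
          linarith) ⟨0, measure_ne_top _ _⟩
    have a2 : ⋂ k : ℕ, {x : ℝ | (k : ℝ) + 1 ≤ |x|} = ∅ := by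
      rw [Set.eq_empty_iff_forall_notMem]
      intro x hx
      obtain ⟨k, hk⟩ := exists_nat_ge |x|
      have := Set.mem_iInter.1 hx k
      simp only [Set.mem_ofPred_eq] at this
      linarith
    rw [a2, measure_empty] at a1
    obtain ⟨k, hk⟩ := (a1.eventually (gt_mem_nhds (ENNReal.ofReal_pos.2 hp))).exists
    exact ⟨k + 1, by positivity, hk⟩
  have e1 : ∀ᶠ n in atTop, P.real {ω | K ≤ |(N n ω - μ n) / σ n|} < p := by
    have a1 := ProbabilityMeasure.limsup_measure_closed_le_of_tendsto ht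
      (F := {x : ℝ | K ≤ |x|}) (isClosed_le continuous_const (by fun_prop))
    simp only [ProbabilityMeasure.coe_mk, Measure.map_id] at a1
    refine (eventually_lt_of_limsup_lt (a1.trans_lt hK)).mono (fun n hn => ?_)
    rw [Measure.map_apply (hZ n) (measurableSet_le measurable_const (by fun_prop))] at hn
    exact ENNReal.toReal_lt_of_lt_ofReal hn
  have e2 : ∀ a b : ℝ, a < b → ∃ η : ℝ, 0 < η ∧
      ∀ᶠ n in atTop, η < P.real {ω | (N n ω - μ n) / σ n ∈ Set.Ioo a b} := by
    intro a b hab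
    have a1 := ProbabilityMeasure.le_liminf_measure_open_of_tendsto ht
      (G := Set.Ioo a b) isOpen_Ioo
    simp only [ProbabilityMeasure.coe_mk, Measure.map_id] at a1
    have a2 : 0 < gaussianReal 0 1 (Set.Ioo a b) := by
      refine pos_iff_ne_zero.2 (fun h0 => ?_)
      have := gaussianReal_absolutelyContinuous' 0 (v := 1) one_ne_zero h0
      simp at this
      linarith
    obtain ⟨r, hr0, hr1⟩ := ENNReal.lt_iff_exists_nnreal_btwn.1 a2
    refine ⟨r, by exact_mod_cast hr0, (eventually_lt_of_lt_liminf (hr1.trans_le a1)).mono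
      (fun n hn => ?_)⟩
    rw [Measure.map_apply (hZ n) measurableSet_Ioo] at hn
    exact ENNReal.toReal_strict_mono (measure_ne_top _ _) hn
  set l : ℝ := 6 * K / c with hl
  have hl0 : 0 < l := by positivity
  obtain ⟨η1, hη1, f1⟩ := e2 l (l + 1) (by linarith)
  obtain ⟨η2, hη2, f2⟩ := e2 (-1) 0 (by norm_num)
  obtain ⟨n, ⟨m, hm, ⟨v, h1, h2⟩, u, h3⟩, g1, g2, g3⟩ :=
    ((hv (min η1 η2) (lt_min hη1 hη2)).and_eventually (e1.and (f1.and f2))).exists
  have pick : ∀ S T : Set Ω, P.real S < P.real T → ∃ ω ∈ T, ω ∉ S := by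
    intro S T hST
    by_contra hcon
    push Not at hcon
    exact absurd (measureReal_mono hcon) (not_le.2 hST)
  obtain ⟨w1, a1, b1⟩ := pick _ _ (g1.trans_le h1)
  obtain ⟨w2, a2, b2⟩ := pick _ _ (g1.trans_le h2)
  obtain ⟨w3, a3, b3⟩ := pick _ _ ((h3.trans (min_le_left _ _)).trans_lt g2)
  obtain ⟨w4, a4, b4⟩ := pick _ _ ((h3.trans (min_le_right _ _)).trans_lt g3)
  simp only [Set.mem_ofPred_eq, not_le, not_not, Set.mem_Ioo] at a1 a2 a3 a4 b1 b2 b3 b4
  have hσ : σ n ≠ 0 := by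
    intro h0
    rw [h0, div_zero] at a3
    linarith
  have hs := abs_pos.2 hσ
  rw [abs_div, div_lt_iff₀ hs, abs_lt] at b1 b2
  have c1 : c * m ≤ 2 * K * |σ n| := by linarith
  have c2 : (N n w3 - μ n) / σ n - (N n w4 - μ n) / σ n = (N n w3 - N n w4) / σ n := by ring
  have c3 : (N n w3 - N n w4) / σ n ≤ 3 * m / |σ n| := by
    refine (le_abs_self _).trans ?_
    rw [abs_div]
    gcongr
    exact abs_le.2 ⟨by linarith, by linarith⟩
  have c4 : 3 * m / |σ n| ≤ l := by
    rw [hl, div_le_div_iff₀ hs hc]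
    linarith
  linarith

section ball

variable {E : Type} [NormedAddCommGroup E] [InnerProductSpace ℝ E] [FiniteDimensional ℝ E]
  [MeasurableSpace E] [BorelSpace E]

lemma ball_one (u : E) (hu : ‖u‖ = 1) (s : ℝ) (hs : 0 ≤ s) :
    (stdGaussian E).real {a | |⟪u, a⟫| ≤ s} ≤ s := by
  have hm : Measurable (fun ξ : E => ⟪u, ξ⟫) := by fun_prop
  have e : {a : E | |⟪u, a⟫| ≤ s} = (fun ξ => ⟪u, ξ⟫) ⁻¹' Set.Icc (-s) s :=
    Set.ext (fun a => by simp [abs_le])
  rw [e, measureReal_def, ← Measure.map_apply hm measurableSet_Icc, H13.map_inner]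
  exact H13.gauss_small _ _ (by rw [hu]; norm_num) hs

open Classical in
/-- The good event: bounded norm, no tiny value of a test functional, few small values. -/
theorem good {I J : Type} (U : Finset I) (u : I → E) (hu : ∀ i, ‖u i‖ = 1) [Fintype J]
    (v : J → E) (hv : ∀ j, ‖v j‖ = 1) (ζ s L : ℝ) (hζ : 0 ≤ ζ) (hs : 0 < s) (hL : 0 < L) :
    (stdGaussian E).real {a | ‖a‖ ^ 2 ≤ L * (Module.finrank ℝ E + 1) ∧ (∀ i ∈ U, ζ < |⟪u i, a⟫|) ∧
      ((Finset.univ.filter (fun j => |⟪v j, a⟫| ≤ s)).card : ℝ)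
        ≤ L * (Fintype.card J + 1) * s}ᶜ ≤ 2 / L + U.card * ζ := by
  let S : J → Set E := fun j => {a | |⟪v j, a⟫| ≤ s}
  have hS : ∀ j, MeasurableSet (S j) := fun j => measurableSet_le (by fun_prop) measurable_const
  obtain ⟨-, hc2, hc3⟩ := H13.integral_count (stdGaussian E) S hS
  have m1 : (stdGaussian E).real {a | L * (Fintype.card J + 1) * s
      ≤ ((Finset.univ.filter (fun j => a ∈ S j)).card : ℝ)} ≤ 1 / L := by
    refine H13.markov _ _ (fun ξ => by positivity) hc2 _ _ (by positivity) ?_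
    rw [hc3]
    calc _ ≤ ∑ _j : J, s := Finset.sum_le_sum (fun j _ => ball_one _ (hv j) s hs.le)
      _ = Fintype.card J * s := by simp
      _ ≤ _ := by field_simp; linarith
  have m2 : (stdGaussian E).real {ξ | L * (Module.finrank ℝ E + 1) ≤ ‖ξ‖ ^ 2} ≤ 1 / L := by
    refine H13.markov _ (fun ξ => ‖ξ‖ ^ 2) (fun ξ => by positivity) H13.integrable_norm_sq _ _
      (by positivity) ?_
    rw [H13.integral_norm_sq]
    field_simp
    linarith
  have m3 : (stdGaussian E).real (⋃ i ∈ U, {a | |⟪u i, a⟫| ≤ ζ}) ≤ U.card * ζ := by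
    refine (measureReal_biUnion_finset_le _ _).trans ?_
    calc _ ≤ ∑ _i ∈ U, ζ := Finset.sum_le_sum (fun i _ => ball_one _ (hu i) ζ hζ)
      _ = _ := by simp
  refine (measureReal_mono (s₂ := ({ξ | L * (Module.finrank ℝ E + 1) ≤ ‖ξ‖ ^ 2}
    ∪ {a | L * (Fintype.card J + 1) * s ≤ ((Finset.univ.filter (fun j => a ∈ S j)).card : ℝ)})
    ∪ ⋃ i ∈ U, {a | |⟪u i, a⟫| ≤ ζ}) (fun a ha => ?_)).trans ?_
  · by_contra hc
    simp only [Set.mem_union, Set.mem_ofPred_eq, Set.mem_iUnion, not_or, not_le, not_exists] at hc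
    exact ha ⟨hc.1.1.le, hc.2, hc.1.2.le⟩
  · refine (measureReal_union_le _ _).trans (add_le_add ((measureReal_union_le _ _).trans ?_) m3)
    rw [show 2 / L = 1 / L + 1 / L by ring]
    exact add_le_add m2 m1

end ball

end Pool.Agent.MP_f6b137_pr.H26
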