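import Mathlib
import Pool.Agent.MP_f6b137_pr.H26.Clus
import Pool.Agent.MP_f6b137_pr.H26.Prob

set_option autoImplicit false

open Finset Polynomial MeasureTheory ProbabilityTheory Real
open scoped RealInnerProductSpace

namespace Pool.Agent.MP_f6b137_pr.H26

open H13

/-- The number of distinct real zeros of the polynomial with given coefficients. -/
noncomputable def cnt (p : ℕ → ℝ[X]) (n : ℕ) (a : EuclideanSpace ℝ (Fin (n + 1))) : ℝ :=
  (((comb p (n + 1) a).roots.toFinset.card : ℕ) : ℝ)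

theorem mid : ∃ p0 c0 Λ : ℝ, 0 < p0 ∧ 0 < c0 ∧ c0 ≤ 1 ∧ ∀ η : ℝ, 0 < η → 8 * η ≤ p0 →
    ∃ R : ℝ, 0 < R ∧ ∀ (Φ : ℝ[X] →ₗ[ℝ] ℝ) (e τ c γ r M H : ℝ), Fnl Φ (Set.Icc e 1) → 0 < τ →
    (∀ P : ℝ[X], τ * ∫ x in e..1, P.eval x ^ 2 ≤ Φ (P * P)) →
    (∀ P : ℝ[X], Φ (P * P) ≤ ∫ x in e..1, P.eval x ^ 2) →
    |e| < 1 → c + γ ≤ e → -1 ≤ c - r → 0 < r → 4 * r ≤ γ → M - H = e - r → M + H = 1 + r →
    ∀ (J : Type) [Fintype J] [DecidableEq J] [Nonempty J] (y : J → ℝ) (ε : ℝ), 0 < ε →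
    (∀ j, |y j - c| + 2 * ε ≤ r / 2) → (∀ i j, i ≠ j → 4 * ε ≤ |y i - y j|) →
    ∀ (q : ℕ → ℝ[X]) (s n : ℕ), IsONP (wform Φ (om y ε)) q → 0 < s →
    n + 1 = 2 * Fintype.card J + s → (∀ a, (GG y ε q s a).eval (atom y ε a) ≠ 0) →
    ∀ (B : ℝ[X] →ₗ[ℝ] ℝ[X] →ₗ[ℝ] ℝ) (p : ℕ → ℝ[X]), IsONP B p → ∀ η1 lam : ℝ, 0 ≤ η1 →
    η1 ≤ 1 / 2 → (∀ ξ, |ideal Φ y ε q s (TT y ε q s ξ) - ‖ξ‖ ^ 2| ≤ η1 * ‖ξ‖ ^ 2) →
    (∀ ξ, |B (TT y ε q s ξ) (TT y ε q s ξ) - ‖ξ‖ ^ 2| ≤ η1 * ‖ξ‖ ^ 2) → 0 ≤ lam →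
    Shape (TT y ε q s) (DD y ε q s) y ε (fun j => kdir q s (y j)) lam →
    ∀ (T D ρ nJ qq : ℕ) (l0 h κ s0 ζ W L b1 b2 ω : ℝ), 4 ≤ r * (5 / 4) ^ T →
    4 * r * ((n + 1 : ℕ) : ℝ) ^ 3 ≤ H → 8 * Fintype.card J ≤ (1 + γ / 8) ^ D →
    2 * Fintype.card J * D + 2 * ρ < n + 1 → 0 < l0 → l0 ^ 2 ≤ ρ / 768 → 0 < h → nJ * h = π →
    4 * h * ((n + 1 : ℕ) : ℝ) ≤ 1 → 2 * h ≤ κ → 2 * ((n + 1 : ℕ) : ℝ) * κ < qq → 0 < s0 → 0 ≤ ζ →
    0 < L → Λ ≤ L → 0 ≤ W → L * (n + 2) ≤ W ^ 2 → 3 * (1 / 2) ^ D * W ≤ ζ →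
    ((n + 1 : ℕ) : ℝ) * (3 * W ^ 2) ≤ τ * H * (4 ^ D * (h / 2 * l0 * ζ) ^ 2) →
    16 * (3 * R ^ 2) ≤ τ * H * (b1 * ((κ / 4 * l0 * s0) ^ 2 * h)) →
    4 * h ^ 3 * ((n + 1 : ℕ) : ℝ) ^ 4 * (3 * W ^ 2) ≤ τ * H * (b2 * (κ / 4 * l0 * s0) ^ 2) →
    8 * ((2 * Fintype.card J + 1) * (r / γ)) ≤ ω → ω ≤ 1 →
    (2 * ω ^ 2 + 6 * η1) * (2 * W) ^ 2 ≤ (ζ / 2) ^ 2 → 2 * η1 * W ≤ ζ / 2 →
    (2 * lam + 22 * η1) * W ≤ 1 / 5 → 2 / L + (6 * T + 3 + nJ) * ζ ≤ η →
    D * (6 * T + 2 + 2 * qq + 2 * (L * (nJ + 1) * s0) + 2 * b1 + b2) ≤ c0 * Fintype.card J / 2 →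
    Two (stdGaussian (EuclideanSpace ℝ (Fin (n + 1)))) (cnt p n) (Fintype.card J) p0 c0 (3 * η) := by
  classical
  obtain ⟨q0, hq0, hq1, hB⟩ := probB
  obtain ⟨p1, hp1, Λ, hΛ, hA⟩ := probA (1 / 2) (q0 / 32) (by norm_num) (by positivity)
  refine ⟨min p1 (q0 / 4) / 2, q0 / 4, Λ + 8, by positivity, by positivity, by linarith,
    fun η hη hηp => ?_⟩
  obtain ⟨R, hR, hiso⟩ := iso η hη
  refine ⟨R, hR, ?_⟩
  intro Φ e τ c γ r M H hΦ hτ hlo hup he hce hc1 hr hrγ hM1 hM2 J _ _ _ y ε hε hy hsep q s n hq hs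
    hn hG B p hp η1 lam hη0 hη1 hg1 hg2 hlam hloc T D ρ nJ qq l0 h κ s0 ζ W L b1 b2 ω hT hrH hD hρ
    hl0 hl1 hh hπ hhN hκ hqq hs0 hζ hL hΛL hW hLW z1 z2 z3 z4 hω hω1 z5 z6 z7 z8 z9
  obtain ⟨he1, he2⟩ := abs_lt.1 he
  have hγ : 0 < γ := by linarith
  have hH : 0 < H := by linarith
  have hN : 0 < n + 1 := Nat.succ_pos n
  set m : ℝ := (Fintype.card J : ℝ) with hm
  have hm0 : 0 < m := by rw [hm]; exact_mod_cast Fintype.card_pos
  have hat : ∀ a, |atom y ε a - c| ≤ r / 2 := fun a => by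
    have := abs_add_le (y a.1 - c) (sg a.2 * ε)
    rw [abs_mul, abs_sg, abs_of_pos hε] at this
    rw [atom, add_sub_right_comm]
    linarith [hy a.1]
  have hfar : ∀ x ∈ Set.Icc e 1, γ ≤ |x - c| := fun x hx => le_abs.2 (Or.inl (by linarith [hx.1]))
  obtain ⟨O, hO⟩ := transfer2 hn _ (TT_deg hq hs y ε n hn) hp η1 hη1 hg2
  have hcmp : ∀ P : ℝ[X], P.natDegree < n + 1 →
      B P P ≤ 3 * ideal Φ y ε q s P ∧ ideal Φ y ε q s P ≤ 3 * B P P := by
    intro P hP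
    obtain ⟨a, rfl⟩ := exists_comb' hp P hP
    obtain ⟨x, hx, -⟩ := hO a
    rw [← hx]
    have a1 := abs_le.1 (hg1 x)
    have a2 := abs_le.1 (hg2 x)
    have a3 := mul_le_mul_of_nonneg_right hη1 (sq_nonneg ‖x‖)
    constructor <;> linarith [a1.1, a1.2, a2.1, a2.2]
  have hmono : ∀ (Q P : ℝ[X]) (l : ℝ), Q.natDegree < n + 1 → P.natDegree < n + 1 →
      (∀ x ∈ Set.Icc e 1 ∪ Set.range (atom y ε), |Q.eval x| ≤ l * |P.eval x|) →
      B Q Q ≤ 9 * l ^ 2 * B P P := by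
    intro Q P l hQ hP hQP
    have a0 : ∀ x ∈ Set.Icc e 1 ∪ Set.range (atom y ε), Q.eval x ^ 2 ≤ l ^ 2 * P.eval x ^ 2 := by
      intro x hx
      have := pow_le_pow_left₀ (abs_nonneg _) (hQP x hx) 2
      rwa [mul_pow, sq_abs, sq_abs] at this
    have a1 : ideal Φ y ε q s Q ≤ l ^ 2 * ideal Φ y ε q s P := by
      rw [ideal, ideal, mul_add, Finset.mul_sum, ← smul_eq_mul (l ^ 2) (Φ _), ← map_smul]
      refine add_le_add (hΦ.le (fun x hx => ?_)) (Finset.sum_le_sum (fun a _ => ?_))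
      · simpa [sq] using a0 x (Or.inl hx)
      · rw [mul_left_comm]
        exact mul_le_mul_of_nonneg_left (a0 _ (Or.inr ⟨a, rfl⟩)) (by positivity)
    linarith [(hcmp Q hQ).1, mul_le_mul_of_nonneg_left (hcmp P hP).2 (sq_nonneg l)]
  have hlow : ∀ P : ℝ[X], P.natDegree < n + 1 → τ * ∫ x in e..1, P.eval x ^ 2 ≤ 3 * B P P := by
    intro P hP
    refine (hlo P).trans (le_trans ?_ (hcmp P hP).2)
    exact le_add_of_nonneg_right (Finset.sum_nonneg (fun a _ => by positivity))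
  obtain ⟨V, v1, v2, v3⟩ := exists_V (atom y ε) (e - r) (1 + r) (γ / 2) (by linarith) (by linarith)
    (by linarith) (fun a => by linarith [(abs_le.1 (hat a)).2]) D (by
      simp only [Fintype.card_prod, Fintype.card_bool]
      push_cast
      rw [show γ / 2 / 4 = γ / 8 by ring]
      linarith)
  have hl : ∀ θ, l0 ≤ ‖vals p (n + 1) (M + H * cos θ)‖ := fun θ =>
    (abs_le_of_sq_le_sq' (hl1.trans (vals_lower hp hH (by linarith) hM1 hM2 hr.le he2.le V ρ (by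
      simp only [Fintype.card_prod, Fintype.card_bool] at v1
      rw [mul_comm _ 2] at v1
      omega) v3 (fun Q hQ => (hcmp _ hQ).1.trans (by
        rw [ideal]
        simp only [eval_mul, v2, zero_mul, ne_eq, OfNat.ofNat_ne_zero, not_false_eq_true, zero_pow,
          mul_zero, Finset.sum_const_zero, add_zero]
        simpa using hup (V * Q))) θ)) (norm_nonneg _)).2
  let u : Option ℝ → EuclideanSpace ℝ (Fin (n + 1)) :=
    fun o => o.elim (O.symm (zvec J (kdir q s c))) (kdir p (n + 1))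
  have hu : ∀ o, ‖u o‖ = 1 := by
    rintro (_ | x)
    · simp only [u, Option.elim, LinearIsometryEquiv.norm_map, norm_zvec, hq.norm_kdir hs]
    · exact hp.norm_kdir hN x
  set U := pts c e r T ∪ (range nJ).image (fun J : ℕ => M + H * cos (J * h)) with hU
  have hgood := good (Finset.insertNone U) u hu
    (fun J : Fin nJ => kdir p (n + 1) (M + H * cos ((J : ℕ) * h))) (fun _ => hp.norm_kdir hN _)
    ζ s0 L hζ hs0 hL
  have hfin : ((Module.finrank ℝ (EuclideanSpace ℝ (Fin (n + 1))) : ℕ) : ℝ) = n + 1 := by simp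
  have hfin' : ((Module.finrank ℝ (VV J s) : ℕ) : ℝ) = n + 1 := by
    have : Module.finrank ℝ (VV J s) = n + 1 := by simp [hn, mul_comm]
    exact_mod_cast this
  rw [hfin, Fintype.card_fin] at hgood
  have hUc : ((Finset.insertNone U).card : ℝ) ≤ 6 * T + 3 + nJ := by
    have a1 := Finset.card_union_le (pts c e r T)
      ((range nJ).image (fun J : ℕ => M + H * cos (J * h)))
    have a2 := pts_card c e r T
    have a3 := Finset.card_image_le (s := range nJ) (f := fun J : ℕ => M + H * cos (J * h))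
    rw [Finset.card_range] at a3
    rw [Finset.card_insertNone, hU]
    exact_mod_cast (by omega)
  obtain ⟨A, hAm, hAp, hA⟩ := hA (VV J s) J (fun j => zvec J (kdir q s (y j)))
    (fun j => evec s (j, true)) (fun j => evec s (j, false)) (zvec J (kdir q s c))
    (fun j => by rw [norm_zvec, hq.norm_kdir hs]) (fun j => norm_evec _) (fun j => norm_evec _)
    (by rw [norm_zvec, hq.norm_kdir hs]) (fun j => inner_evec_zvec _ _)
    (fun j => inner_evec_zvec _ _) (by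
      rw [Finset.filter_false_of_mem (fun j _ => not_lt.2 (by
        rw [inner_zvec, cpart_zvec]
        exact kdir_close hΦ _ hq hs c γ hγ hfar _ (by linarith [hy j])))]
      simp only [Finset.card_empty, Nat.cast_zero]
      positivity)
  obtain ⟨B', hBm, hBp, hB⟩ := hB (VV J s) J (fun j => zvec J (kdir q s (y j)))
    (fun j => evec s (j, true)) (fun j => evec s (j, false))
    (fun j => orth3 _ (hq.norm_kdir hs _) j)
  have hreal : ∀ S : Set (VV J s), MeasurableSet S →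
      (stdGaussian (EuclideanSpace ℝ (Fin (n + 1)))).real (O ⁻¹' S)
        = (stdGaussian (VV J s)).real S := by
    intro S hS
    rw [← stdGaussian_map O, measureReal_def, measureReal_def,
      Measure.map_apply O.continuous.measurable hS]
  have hnorm : ∀ a : EuclideanSpace ℝ (Fin (n + 1)), ‖a‖ ^ 2 ≤ L * (n + 1 + 1) → ‖a‖ ≤ W :=
    fun a ha => (abs_le_of_sq_le_sq' (by linarith) hW).2
  have hx : ∀ a : EuclideanSpace ℝ (Fin (n + 1)), ‖a‖ ≤ W → ∃ x, TT y ε q s x = comb p (n + 1) a ∧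
      ‖x - O a‖ ≤ 2 * η1 * W ∧ ‖x‖ ≤ 2 * W := by
    intro a ha
    obtain ⟨x, h1, h2⟩ := hO a
    have h3 : 2 * η1 * ‖a‖ ≤ 2 * η1 * W := by gcongr
    have h4 := norm_add_le (x - O a) (O a)
    rw [sub_add_cancel, O.norm_map] at h4
    exact ⟨x, h1, h2.trans h3, by linarith [mul_le_mul_of_nonneg_right hη1 hW]⟩
  have hloc' : ∀ a : EuclideanSpace ℝ (Fin (n + 1)), ‖a‖ ≤ W → ∀ j,
      Local (comb p (n + 1) a) (DD y ε q s j) (y j) ε ⟪zvec J (kdir q s (y j)), O a⟫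
        ⟪evec s (j, true), O a⟫ ⟪evec s (j, false), O a⟫ := by
    intro a ha j
    obtain ⟨x, h1, h2, h3⟩ := hx a ha
    rw [← h1]
    exact local_of (fun j => hq.norm_kdir hs _) hloc x (O a)
      (by linarith [mul_le_mul_of_nonneg_left h3 hlam]) j
  have hy' : ∀ j, |y j - c| + 2 * ε ≤ r := fun j => by linarith [hy j]
  let NC : EuclideanSpace ℝ (Fin (n + 1)) → ℝ :=
    fun a => (((comb p (n + 1) a).roots.toFinset.filter (fun z => ¬ r < |z - c|)).card : ℝ)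
  have hup2 : ∀ a : EuclideanSpace ℝ (Fin (n + 1)), ‖a‖ ≤ W → ζ < |⟪u none, a⟫| → ∀ G : Finset J,
      (∀ j ∈ G, Box ⟪zvec J (kdir q s (y j)), O a⟫ ⟪evec s (j, true), O a⟫
        ⟪evec s (j, false), O a⟫) → NC a + G.card ≤ 2 * m := by
    intro a ha hζa G hbox
    obtain ⟨R', r1, r2⟩ := count_upper2 _ _ y _ _ _ ε hε hsep c r hy' G
      (fun j _ => hloc' a ha j) hbox
    obtain ⟨x, h1, h2, h3⟩ := hx a ha
    have key : R'.card ≤ 2 * Fintype.card J := by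
      by_cases h0 : comb p (n + 1) a = 0
      · have := Finset.card_le_univ G
        rw [r1, h0]
        simp only [roots_zero, Multiset.toFinset_zero, Finset.filter_empty, Finset.card_empty]
        omega
      by_contra hcon
      rw [← h1] at r2 h0
      have b1 := clus_upper hΦ y ε hq hs hG η1 hη0 hη1 hg1 c r γ hr.le hγ hfar
        (fun a => by linarith [hat a]) ω hω hω1 x h0 R' r2 (by omega)
      have b2 : ⟪u none, a⟫ = ⟪zvec J (kdir q s c), x⟫ - ⟪zvec J (kdir q s c), x - O a⟫ := by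
        rw [inner_sub_right, sub_sub_cancel, ← O.inner_map_map]
        simp only [u, Option.elim, LinearIsometryEquiv.apply_symm_apply]
      have b3 := abs_real_inner_le_norm (zvec J (kdir q s c)) (x - O a)
      rw [norm_zvec, hq.norm_kdir hs, one_mul] at b3
      have b4 : |⟪zvec J (kdir q s c), x⟫| ≤ ζ / 2 := abs_le_of_sq_le_sq (b1.trans (le_trans
        (mul_le_mul_of_nonneg_left (pow_le_pow_left₀ (norm_nonneg _) h3 2) (by positivity)) z5))
        (by linarith)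
      rw [b2] at hζa
      linarith [abs_sub ⟪zvec J (kdir q s c), x⟫ ⟪zvec J (kdir q s c), x - O a⟫]
    rw [r1] at key
    simp only [NC, hm]
    exact_mod_cast key
  have hsplit : ∀ a : EuclideanSpace ℝ (Fin (n + 1)),
      (((comb p (n + 1) a).roots.toFinset.card : ℕ) : ℝ) - NC a
        = ((comb p (n + 1) a).roots.toFinset.filter (fun z => r < |z - c|)).card := by
    intro a
    rw [← Finset.card_filter_add_card_filter_not (fun z => r < |z - c|)]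
    simp only [NC]
    push_cast
    ring
  refine two_sided _ η R hη (hiso _) (fun a => (comb p (n + 1) a).roots.toFinset.card) n
    (fun a => (Multiset.toFinset_card_le _).trans ((card_roots' _).trans
      (Nat.le_of_succ_le_succ (hp.comb_natDegree hN a)))) NC (fun a => Nat.cast_nonneg _) _
    (O ⁻¹' A) (O ⁻¹' B') m (q0 / 4 * m / 2) (min p1 (q0 / 4)) (2 * ((1 - q0 / 16) * m))
    (2 * m - q0 * m / 2) (q0 / 4)
    (hgood.trans (by linarith [mul_le_mul_of_nonneg_right hUc hζ]))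
    (by rw [hreal _ hAm]; exact (min_le_left _ _).trans hAp)
    (by rw [hreal _ hBm]; exact (min_le_right _ _).trans hBp) (by linarith)
    (fun a ha => ?_) (by linarith [mul_le_mul_of_nonneg_right hq1 hm0.le]) (fun a ha a' haa => ?_)
    (fun a ha => ?_) (fun a ha ha' => ?_) (by linarith)
  · simpa using hup2 a (hnorm a ha.1) (ha.2.1 none Finset.none_mem_insertNone) ∅ (by simp)
  · rw [hsplit, hsplit]
    refine (rest_cmp hp hN _ c e r M H τ T (abs_le.2 ⟨by linarith, by linarith⟩) he.le hr hT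
      (fun x hx => ?_) hH hM1 hM2 (by linarith) hrH hτ hmono hlow l0 hl0 hl nJ D qq h κ s0 ζ W R
      b1 b2 hh hπ hhN hκ hqq hs0 hζ z1 z2 z3 z4 a a' (hnorm a ha.1) haa
      (fun x hx => ha.2.1 (some x) (Finset.some_mem_insertNone.2 (Finset.mem_union_left _ hx)))
      (fun j hj => ha.2.1 (some _) (Finset.some_mem_insertNone.2 (Finset.mem_union_right _
        (Finset.mem_image_of_mem _ (Finset.mem_range.2 hj)))))).trans ?_
    · rcases hx with hx | ⟨b, rfl⟩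
      · exact ⟨abs_le.2 ⟨by linarith [hx.1], hx.2⟩, Or.inr hx⟩
      · have := abs_le.1 (hat b)
        exact ⟨abs_le.2 ⟨by linarith [this.1], by linarith [this.2]⟩, Or.inl (hat b)⟩
    · linarith [mul_le_mul_of_nonneg_left ha.2.2 (Nat.cast_nonneg (α := ℝ) D)]
  · obtain ⟨a1, a2⟩ := hA _ ha
    rw [hfin', O.norm_map] at a1
    have a0 : ‖a‖ ≤ W := hnorm a (by
      linarith [mul_le_mul_of_nonneg_right hΛL (by positivity : (0 : ℝ) ≤ n + 1 + 1),
        mul_nonneg hΛ (by positivity : (0 : ℝ) ≤ n + 1)])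
    have a3 := count_lower2 _ _ y _ _ _ ε hε hsep c r hy'
      (Finset.univ.filter (fun j => ¬ (|⟪zvec J (kdir q s (y j)), O a⟫| ≤
        |⟪evec s (j, true), O a⟫| + |⟪evec s (j, false), O a⟫| + 1)))
      (fun j _ => hloc' a a0 j) (fun j hj => not_le.1 (Finset.mem_filter.1 hj).2)
    have a4 := Finset.card_filter_add_card_filter_not (s := (Finset.univ : Finset J))
      (fun j => |⟪zvec J (kdir q s (y j)), O a⟫| ≤
        |⟪evec s (j, true), O a⟫| + |⟪evec s (j, false), O a⟫| + 1)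
    rw [Finset.card_univ] at a4
    have a5 := (Nat.cast_le (α := ℝ)).2 a3
    have a6 := congrArg (Nat.cast : ℕ → ℝ) a4
    push_cast at a5 a6
    simp only [NC]
    linarith
  · have a1 := hup2 a (hnorm a ha'.1) (ha'.2.1 none Finset.none_mem_insertNone) _
      (fun j hj => (Finset.mem_filter.1 hj).2 :
        ∀ j ∈ Finset.univ.filter (fun j => Box ⟪zvec J (kdir q s (y j)), O a⟫
          ⟪evec s (j, true), O a⟫ ⟪evec s (j, false), O a⟫), _)
    linarith [(hB _ ha).2]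

end Pool.Agent.MP_f6b137_pr.H26
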