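import Mathlib

set_option autoImplicit false

open Filter Topology Real

namespace Pool.Agent.MP_f6b137_pr.H26

lemma ev_pow (C g : ℝ) (hg : 1 < g) (j : ℕ) : ∀ᶠ t : ℕ in atTop, C * (t : ℝ) ^ j ≤ g ^ t := by
  have h := (tendsto_pow_const_div_const_pow_of_one_lt j hg).const_mul C
  rw [mul_zero] at h
  refine (h.eventually (ge_mem_nhds one_pos)).mono (fun t ht => ?_)
  rwa [← mul_div_assoc, div_le_one (by positivity)] at ht

lemma ev_small (C : ℝ) (j : ℕ) : ∀ᶠ t : ℕ in atTop, C * (t : ℝ) ^ j * (4 * (4 / 5) ^ t) ≤ 1 := by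
  refine (ev_pow (4 * C) (5 / 4) (by norm_num) j).mono (fun t ht => ?_)
  have h1 : (5 / 4 : ℝ) ^ t * (4 / 5) ^ t = 1 := by rw [← mul_pow]; norm_num
  nlinarith [mul_le_mul_of_nonneg_right ht (by positivity : (0 : ℝ) ≤ (4 / 5) ^ t)]

lemma ev_lin (C : ℝ) : ∀ᶠ t : ℕ in atTop, C ≤ (t : ℝ) :=
  tendsto_natCast_atTop_atTop.eventually (eventually_ge_atTop C)

lemma num2 {x L τ H0 H F : ℝ} (hx : 1 ≤ x) (hτ : 0 < τ) (hH0 : 0 < H0) (hH : H0 ≤ H)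
    (hF : 4800 * L ^ 2 / (τ * H0) * x ^ 602 ≤ F) :
    4 * x ^ 100 * (3 * (L * x ^ 50) ^ 2)
      ≤ τ * H * (F * (π / x ^ 125 / 2 * (x ^ 50 / 28) * (1 / x ^ 126)) ^ 2) := by
  have hx0 : 0 < x := by linarith
  have e : (π / x ^ 125 / 2 * (x ^ 50 / 28) * (1 / x ^ 126)) ^ 2 = π ^ 2 / 3136 / x ^ 402 := by
    field_simp; norm_num
  have h1 : 1 / 400 ≤ π ^ 2 / 3136 := by nlinarith [pi_gt_three]
  rw [e]
  calc _ = τ * H0 * ((4800 * L ^ 2 / (τ * H0) * x ^ 602) * (1 / 400 / x ^ 402)) := by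
        field_simp; ring
    _ ≤ _ := by
        have : 0 < H := by linarith
        have : 0 ≤ F := le_trans (by positivity) hF
        gcongr

lemma num3 {x R τ H0 H : ℝ} (hx : 1 ≤ x) (hτ : 0 < τ) (hH0 : 0 < H0) (hH : H0 ≤ H)
    (hC : 200704 * R ^ 2 / (τ * H0) ≤ x) :
    16 * (3 * R ^ 2)
      ≤ τ * H * (x ^ 94 * ((1 / x ^ 4 / 4 * (x ^ 50 / 28) * (1 / x ^ 30)) ^ 2 * (π / x ^ 125))) := by
  have hx0 : 0 < x := by linarith
  have e : x ^ 94 * ((1 / x ^ 4 / 4 * (x ^ 50 / 28) * (1 / x ^ 30)) ^ 2 * (π / x ^ 125))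
      = x * (π / 12544) := by field_simp; norm_num
  rw [e]
  calc _ = τ * H0 * ((200704 * R ^ 2 / (τ * H0)) * (3 / 12544)) := by field_simp; ring
    _ ≤ _ := by
        have : 0 < H := by linarith
        gcongr
        exact pi_gt_three.le

lemma num4 {x L τ H0 H : ℝ} (hx : 1 ≤ x) (hτ : 0 < τ) (hH0 : 0 < H0) (hH : H0 ≤ H)
    (hC : 2466250752 * L ^ 2 / (τ * H0) ≤ x) :
    4 * (π / x ^ 125) ^ 3 * (4 * x ^ 100) ^ 4 * (3 * (L * x ^ 50) ^ 2)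
      ≤ τ * H * (x ^ 94 * (1 / x ^ 4 / 4 * (x ^ 50 / 28) * (1 / x ^ 30)) ^ 2) := by
  have hx0 : 0 < x := by linarith
  have e : x ^ 94 * (1 / x ^ 4 / 4 * (x ^ 50 / 28) * (1 / x ^ 30)) ^ 2
      = x * (x ^ 125 / 12544) := by field_simp; norm_num
  rw [e]
  calc _ ≤ 4 * (4 / x ^ 125) ^ 3 * (4 * x ^ 100) ^ 4 * (3 * (L * x ^ 50) ^ 2) := by
        gcongr; exact pi_le_four
    _ = τ * H0 * ((2466250752 * L ^ 2 / (τ * H0)) * (x ^ 125 / 12544)) := by field_simp; ring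
    _ ≤ _ := by
        have : 0 < H := by linarith
        gcongr

lemma num8 {x η : ℝ} (hx : 1 ≤ x) (hη : 0 < η) (hC : 20 / η ≤ x) :
    (6 * x + 3 + x ^ 125) * (1 / x ^ 126) ≤ η / 2 := by
  have hx0 : 0 < x := by linarith
  have h1 : x ≤ x ^ 125 := le_self_pow₀ hx (by norm_num)
  rw [div_le_iff₀ hη] at hC
  rw [mul_one_div, div_le_iff₀ (by positivity), pow_succ x 125]
  nlinarith [mul_le_mul_of_nonneg_left hC (by positivity : 0 ≤ x ^ 125)]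

lemma num9 {x L c : ℝ} (hx : 1 ≤ x) (hL : 0 < L) (hc : 0 < c) (hC : 2 * (17 + 4 * L) / c ≤ x) :
    x * (6 * x + 2 + 2 * (9 * x ^ 96) + 2 * (L * (x ^ 125 + 1) * (1 / x ^ 30)) + 2 * x ^ 94
      + x ^ 94) ≤ c * x ^ 98 := by
  have hx0 : 0 < x := by linarith
  have h1 : x ≤ x ^ 96 := le_self_pow₀ hx (by norm_num)
  have h2 : x ^ 94 ≤ x ^ 96 := pow_le_pow_right₀ hx (by norm_num)
  have h3 : (x ^ 125 + 1) * (1 / x ^ 30) ≤ 2 * x ^ 96 := by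
    rw [mul_one_div, div_le_iff₀ (by positivity)]
    have a1 : x ^ 125 ≤ x ^ 126 := pow_le_pow_right₀ hx (by norm_num)
    have a2 : 1 ≤ x ^ 126 := one_le_pow₀ hx
    linarith
  rw [div_le_iff₀ hc] at hC
  have h4 := mul_le_mul_of_nonneg_left h3 hL.le
  calc _ ≤ x * (2 * (17 + 4 * L) * x ^ 96) := by
        refine mul_le_mul_of_nonneg_left ?_ hx0.le
        nlinarith [mul_pos hL (pow_pos hx0 96)]
    _ ≤ x * (x * c * x ^ 96) := by gcongr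
    _ = _ := by ring

lemma num_grid {x L n : ℝ} (hx : 4 ≤ x) (hL : 0 < L) (hn : n + 1 = 4 * x ^ 100) :
    (x ^ 50 / 28) ^ 2 ≤ x ^ 100 / 768 ∧ x ^ 125 * (π / x ^ 125) = π ∧
    4 * (π / x ^ 125) * (4 * x ^ 100) ≤ 1 ∧ 2 * (π / x ^ 125) ≤ 1 / x ^ 4 ∧
    2 * (4 * x ^ 100) * (1 / x ^ 4) < 9 * x ^ 96 ∧ L * (n + 2) ≤ (3 * (L + 1) * x ^ 50) ^ 2 := by
  have hx0 : 0 < x := by linarith
  have hπ4 : π / x ^ 125 ≤ 4 / x ^ 125 := by gcongr; exact pi_le_four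
  refine ⟨?_, by field_simp, ?_, ?_, ?_, ?_⟩
  · rw [div_pow, ← pow_mul]; gcongr; norm_num
  · have a1 : (4 : ℝ) ^ 25 ≤ x ^ 25 := by gcongr
    calc _ ≤ 4 * (4 / x ^ 125) * (4 * x ^ 100) := by gcongr
      _ = 64 / x ^ 25 := by field_simp; norm_num
      _ ≤ 1 := by rw [div_le_one (by positivity)]; linarith
  · have a1 : (4 : ℝ) ^ 121 ≤ x ^ 121 := by gcongr
    calc _ ≤ 2 * (4 / x ^ 125) := by gcongr
      _ = 8 / x ^ 121 * (1 / x ^ 4) := by field_simp; norm_num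
      _ ≤ _ := mul_le_of_le_one_left (by positivity)
        (by rw [div_le_one (by positivity)]; linarith)
  · rw [show 2 * (4 * x ^ 100) * (1 / x ^ 4) = 8 * x ^ 96 by field_simp; ring]
    linarith [pow_pos hx0 96]
  · have a1 : (1 : ℝ) ≤ x ^ 100 := one_le_pow₀ (by linarith)
    have a2 : L * 5 ≤ (3 * (L + 1)) ^ 2 := by nlinarith
    calc L * (n + 2) ≤ L * (5 * x ^ 100) := by gcongr; linarith
      _ = L * 5 * x ^ 100 := by ring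
      _ ≤ (3 * (L + 1)) ^ 2 * x ^ 100 := by gcongr
      _ = _ := by ring

/-- The weights are exponentially small. -/
lemma num_weight {t : ℕ} (ht : 2 ≤ t) {g r β G : ℝ} (hg : 1 ≤ g) (hβ : 0 < β)
    (h1 : 8 * (t : ℝ) ^ 98 ≤ g ^ t) (hr : (1 / 2) ^ t ≤ r) (h2 : 16 * (t : ℝ) ^ 98 ≤ 2 ^ t)
    (h3 : 2 / β * (t : ℝ) ^ 98 ≤ 2 ^ t) {k : ℕ} (hk : t ^ 100 ≤ k)
    (hG : (r ^ 2) ^ 2 * ((r / (4 * (t : ℝ) ^ 98) / 2) ^ (2 * t ^ 98) * g ^ k) ≤ 4 ^ (t ^ 98) * |G|) :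
    G ≠ 0 ∧ 2 * (t : ℝ) ^ 98 * (G ^ 2)⁻¹ ≤ β * r ^ 4 := by
  have hx : (2 : ℝ) ≤ t := by exact_mod_cast ht
  have hr0 : 0 < r := lt_of_lt_of_le (by positivity) hr
  have ht99 : t ≤ t ^ 99 := Nat.le_self_pow (by norm_num) t
  set A : ℝ := 2 ^ (t ^ 99) with hA
  have hA1 : (2 : ℝ) ^ t ≤ A := pow_le_pow_right₀ (by norm_num) ht99
  have hA0 : 0 < A := by positivity
  have b1 : 1 ≤ A * r := by
    have : (2 : ℝ) ^ t * (1 / 2) ^ t = 1 := by rw [← mul_pow]; norm_num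
    rw [← this]; gcongr
  have b2 : A ^ 20 ≤ g ^ k := by
    have c1 : (2 : ℝ) ^ 20 ≤ g ^ t := by
      have := pow_le_pow_left₀ (by norm_num) hx 98
      refine le_trans ?_ h1
      norm_num at this ⊢
      linarith
    calc A ^ 20 = (2 ^ 20) ^ (t ^ 99) := by rw [hA, ← pow_mul, ← pow_mul, mul_comm]
      _ ≤ (g ^ t) ^ (t ^ 99) := by gcongr
      _ = g ^ (t ^ 100) := by rw [← pow_mul, ← pow_succ']
      _ ≤ _ := pow_le_pow_right₀ hg hk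
  have b3 : 4 ^ (t ^ 98) ≤ A ^ 4 * (r / (4 * (t : ℝ) ^ 98) / 2) ^ (2 * t ^ 98) := by
    have c1 : 2 ≤ (4 : ℝ) ^ t * (r / (4 * (t : ℝ) ^ 98) / 2) := by
      have d1 : (4 : ℝ) ^ t * (1 / 2) ^ t = 2 ^ t := by rw [← mul_pow]; norm_num
      have d2 := mul_le_mul_of_nonneg_left hr (by positivity : (0 : ℝ) ≤ 4 ^ t)
      rw [div_div, ← mul_div_assoc, le_div_iff₀ (by positivity)]
      linarith
    calc (4 : ℝ) ^ (t ^ 98) = 2 ^ (2 * t ^ 98) := by rw [pow_mul]; norm_num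
      _ ≤ ((4 : ℝ) ^ t * (r / (4 * (t : ℝ) ^ 98) / 2)) ^ (2 * t ^ 98) := by gcongr
      _ = _ := by
        rw [mul_pow, hA, show (4 : ℝ) = 2 ^ 2 by norm_num, ← pow_mul, ← pow_mul, ← pow_mul,
          show 2 * (t * (2 * t ^ 98)) = t ^ 99 * 4 by ring]
  set S := (r / (4 * (t : ℝ) ^ 98) / 2) ^ (2 * t ^ 98)
  have hS : 0 < S := by positivity
  have b4 : (r ^ 2) ^ 2 * A ^ 16 ≤ |G| := by
    have c1 : (r ^ 2) ^ 2 * (S * A ^ 20) ≤ A ^ 4 * S * |G| :=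
      le_trans (by gcongr) (hG.trans (by gcongr))
    refine le_of_mul_le_mul_left (le_trans (le_of_eq ?_) c1) (by positivity : 0 < A ^ 4 * S)
    ring
  have hG0 : 0 < |G| := lt_of_lt_of_le (by positivity) b4
  refine ⟨abs_pos.1 hG0, ?_⟩
  have hA2 : 1 ≤ A := one_le_pow₀ (by norm_num)
  rw [← sq_abs, ← div_eq_mul_inv, div_le_iff₀ (by positivity)]
  rw [div_mul_eq_mul_div, div_le_iff₀ hβ] at h3
  calc 2 * (t : ℝ) ^ 98 ≤ A * β := h3.trans (by gcongr)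
    _ ≤ (A * β) * ((A * r) ^ 12 * A ^ 19) :=
        le_mul_of_one_le_right (by positivity) (one_le_mul_of_one_le_of_one_le (one_le_pow₀ b1)
          (one_le_pow₀ hA2))
    _ = β * r ^ 4 * ((r ^ 2) ^ 2 * A ^ 16) ^ 2 := by ring
    _ ≤ _ := by gcongr

end Pool.Agent.MP_f6b137_pr.H26
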