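import Mathlib
import Pool.Agent.MP_f6b137_pr.H13.Core
import Pool.Agent.MP_f6b137_pr.H26.Mid
import Pool.Agent.MP_f6b137_pr.H26.Num

set_option autoImplicit false

open Finset Polynomial MeasureTheory ProbabilityTheory Real Filter Topology
open scoped RealInnerProductSpace

namespace Pool.Agent.MP_f6b137_pr.H26

open H13

/-- `Ψ` is `Φ` plus bumps of mass `w a` and radius `δ` at `x a` plus a remainder of mass `γ`. -/
def CloseB {A : Type} [Fintype A] (Ψ Φ : ℝ[X] →ₗ[ℝ] ℝ) (x w : A → ℝ) (δ γ : ℝ) : Prop :=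
  ∀ (P : ℝ[X]) (C : ℝ) (D : A → ℝ), (∀ t ∈ Set.Icc (-1 : ℝ) 1, |P.eval t| ≤ C) →
    (∀ a t, |t - x a| ≤ δ → |P.eval t ^ 2 - P.eval (x a) ^ 2| ≤ D a) →
    |Ψ (P * P) - Φ (P * P) - ∑ a, w a * P.eval (x a) ^ 2| ≤ γ * C ^ 2 + ∑ a, w a * D a

lemma small_aux {x r K : ℝ} (hx : 1 ≤ x) (hr : 0 < r) (hK : K * x ^ 550 * r ≤ 1) (C : ℝ)
    (hC0 : 0 ≤ C) (hC : C ≤ K) (j : ℕ) (hj : j ≤ 550) : C * x ^ j * r ≤ 1 :=
  le_trans (by have := hC0.trans hC; gcongr) hK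

lemma num_small {x r G L H0 : ℝ} (hx : 1 ≤ x) (hr : 0 < r) (hG : 1 ≤ G) (hL : 1 ≤ L)
    (hH0 : 0 < H0) (hK : (1000000 * G ^ 2 * L ^ 2 + 256 / H0) * x ^ 550 * r ≤ 1) :
    r ≤ 1 / 8 ∧ 4 * G * r ≤ 1 ∧ 24 * x ^ 98 * r ≤ 1 ∧ 4 * r * (4 * x ^ 100) ^ 3 ≤ H0 ∧
    4 * x ^ 100 * r ^ 2 ≤ 1 / 2 ∧ 8 * G * x ^ 98 * r ^ 2 ≤ 1 ∧ 200 * G * x ^ 196 * r ≤ 1 ∧
    5000 * G * x ^ 198 * r ^ 2 ≤ 1 / 2 ∧ 24 * G * x ^ 98 * r ≤ 1 ∧
    3 * r * (L * x ^ 50) ≤ 1 / x ^ 126 ∧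
    (2 * (24 * G * x ^ 98 * r) ^ 2 + 6 * (5000 * G * x ^ 198 * r ^ 2)) * (2 * (L * x ^ 50)) ^ 2
      ≤ (1 / x ^ 126 / 2) ^ 2 ∧
    2 * (5000 * G * x ^ 198 * r ^ 2) * (L * x ^ 50) ≤ 1 / x ^ 126 / 2 ∧
    (2 * (200 * G * x ^ 196 * r) + 22 * (5000 * G * x ^ 198 * r ^ 2)) * (L * x ^ 50) ≤ 1 / 5 := by
  have hx0 : 0 < x := by linarith
  have h0 : 0 < 256 / H0 := by positivity
  have hG2 : G ≤ G ^ 2 := by nlinarith
  have hL2 : L ≤ L ^ 2 := by nlinarith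
  have hGL : G ^ 2 ≤ G ^ 2 * L ^ 2 := le_mul_of_one_le_right (by positivity) (by linarith)
  have hGL' : G * L ≤ G ^ 2 * L ^ 2 := by gcongr
  have hGL2 : G * L ^ 2 ≤ G ^ 2 * L ^ 2 := by gcongr
  have hL3 : L ≤ G * L := le_mul_of_one_le_left (by positivity) hG
  have s := small_aux hx hr hK
  have h1 : r ≤ 1 / 8 := by linarith [s 8 (by norm_num) (by linarith) 0 (by norm_num)]
  have h2 : ∀ C : ℝ, 0 ≤ C → C * r ^ 2 ≤ C * r := fun C hC =>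
    mul_le_mul_of_nonneg_left (by nlinarith) hC
  refine ⟨h1, by simpa using s (4 * G) (by positivity) (by linarith) 0 (by norm_num),
    s 24 (by norm_num) (by linarith) 98 (by norm_num), ?_, ?_, ?_,
    s (200 * G) (by positivity) (by linarith) 196 (by norm_num), ?_,
    s (24 * G) (by positivity) (by linarith) 98 (by norm_num), ?_, ?_, ?_, ?_⟩
  · have := s (256 / H0) h0.le (by nlinarith) 300 (by norm_num)
    rw [div_mul_eq_mul_div, div_mul_eq_mul_div, div_le_one hH0] at this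
    linarith
  · linarith [s 8 (by norm_num) (by linarith) 100 (by norm_num), h2 (4 * x ^ 100) (by positivity)]
  · linarith [s (8 * G) (by positivity) (by linarith) 98 (by norm_num),
      h2 (8 * G * x ^ 98) (by positivity)]
  · linarith [s (10000 * G) (by positivity) (by linarith) 198 (by norm_num),
      h2 (5000 * G * x ^ 198) (by positivity)]
  · rw [le_div_iff₀ (by positivity)]
    linarith [s (3 * L) (by positivity) (by linarith) 176 (by norm_num)]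
  · rw [div_div, div_pow, le_div_iff₀ (by positivity)]
    have a1 := s (36864 * (G ^ 2 * L ^ 2)) (by positivity) (by linarith) 548 (by norm_num)
    have a2 := s (960000 * (G * L ^ 2)) (by positivity) (by linarith) 550 (by norm_num)
    linarith [h2 (18432 * (G ^ 2 * L ^ 2) * x ^ 548) (by positivity),
      h2 (480000 * (G * L ^ 2) * x ^ 550) (by positivity)]
  · rw [div_div, le_div_iff₀ (by positivity)]
    linarith [s (20000 * (G * L)) (by positivity) (by linarith) 374 (by norm_num),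
      h2 (20000 * (G * L) * x ^ 374) (by positivity)]
  · linarith [s (8000 * (G * L)) (by positivity) (by linarith) 246 (by norm_num),
      s (1000000 * (G * L)) (by positivity) (by linarith) 248 (by norm_num),
      h2 (110000 * (G * L) * x ^ 248) (by positivity)]

theorem core : ∃ p0 c0 : ℝ, 0 < p0 ∧ 0 < c0 ∧ ∀ (Φ : ℝ[X] →ₗ[ℝ] ℝ) (e τ γ : ℝ),
    Fnl Φ (Set.Icc e 1) → 0 < τ → (∀ P : ℝ[X], τ * ∫ x in e..1, P.eval x ^ 2 ≤ Φ (P * P)) →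
    (∀ P : ℝ[X], Φ (P * P) ≤ ∫ x in e..1, P.eval x ^ 2) → e < 1 → 0 < γ → -1 ≤ e - 2 * γ →
    ∀ (β η : ℝ) (k : ℕ), 0 < β → 0 < η →
    ∃ (n : ℕ) (m : ℝ) (A : Type) (_ : Fintype A) (x w : A → ℝ) (δ γ' : ℝ), k ≤ n ∧
      (k : ℝ) * n ≤ m ^ 2 ∧ 0 < m ∧ 0 < δ ∧ (∀ a, |x a - (e - γ)| + δ ≤ γ / 2) ∧ (∀ a, 0 ≤ w a) ∧
      ∑ a, w a ≤ β * δ ∧ 0 < γ' ∧ ∀ Ψ : ℝ[X] →ₗ[ℝ] ℝ, CloseB Ψ Φ x w δ γ' →
      ∀ p, IsONP (wform Ψ 1) p →
        Two (stdGaussian (EuclideanSpace ℝ (Fin (n + 1)))) (cnt p n) m p0 c0 η := by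
  classical
  obtain ⟨p0, c0, Λ, hp0, hc0, hc1, hmid⟩ := mid
  refine ⟨p0, c0, hp0, hc0, fun Φ e τ γ hΦ hτ hlo hup he hγ heγ β η k hβ hη => ?_⟩
  obtain ⟨η', hη'0, hη1, hη2⟩ : ∃ η' : ℝ, 0 < η' ∧ 3 * η' ≤ η ∧ 8 * η' ≤ p0 :=
    ⟨min (η / 3) (p0 / 8), lt_min (by positivity) (by positivity),
      by linarith [min_le_left (η / 3) (p0 / 8)], by linarith [min_le_right (η / 3) (p0 / 8)]⟩
  replace hmid := hmid η' hη'0 hη2
  obtain ⟨R, hR, hmid⟩ := hmid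
  obtain ⟨L, hL0, hLΛ, hLη⟩ : ∃ L : ℝ, 0 < L ∧ Λ ≤ L ∧ 2 / L ≤ η' / 2 :=
    ⟨|Λ| + 4 / η', by positivity, by linarith [le_abs_self Λ, div_pos four_pos hη'0], by
      rw [div_le_div_iff₀ (by positivity) two_pos, mul_add, mul_div_cancel₀ _ hη'0.ne']
      linarith [mul_nonneg hη'0.le (abs_nonneg Λ)]⟩
  obtain ⟨L', hL'⟩ : ∃ L', L' = 3 * (L + 1) := ⟨_, rfl⟩
  have hγ' : 0 < 1 / γ := by positivity
  obtain ⟨G, hGγ, hG1⟩ : ∃ G : ℝ, 1 / γ ≤ G ∧ 1 ≤ G := ⟨1 / γ + 1, by linarith, by linarith⟩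
  obtain ⟨H0, hH0⟩ : ∃ H0, H0 = (1 - e) / 2 := ⟨_, rfl⟩
  have hH00 : 0 < H0 := by linarith
  have hg : 1 < 1 + γ / 8 := by linarith
  obtain ⟨t, e1, e2, e3, e4, e5, e6, e7, e8, e9, e10, e11⟩ :=
    ((ev_small (1000000 * G ^ 2 * L' ^ 2 + 256 / H0) 550).and ((ev_pow 8 _ hg 98).and
    ((ev_pow 16 2 (by norm_num) 98).and ((ev_pow (2 / β) 2 (by norm_num) 98).and
    ((ev_pow (4800 * L' ^ 2 / (τ * H0)) 4 (by norm_num) 602).and
    ((ev_lin (200704 * R ^ 2 / (τ * H0))).and ((ev_lin (2466250752 * L' ^ 2 / (τ * H0))).and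
    ((ev_lin (20 / η')).and ((ev_lin (2 * (17 + 4 * L) / (c0 / 2))).and
    ((eventually_ge_atTop 4).and (eventually_ge_atTop (4 * k)))))))))))).exists
  have hx4 : (4 : ℝ) ≤ t := by exact_mod_cast e10
  have hx1 : (1 : ℝ) ≤ t := by linarith
  have hx0 : (0 : ℝ) < t := by linarith
  have hr1 : (4 : ℝ) ≤ 4 * (4 / 5) ^ t * (5 / 4) ^ t := by rw [mul_assoc, ← mul_pow]; norm_num
  have hr2 : (1 / 2 : ℝ) ^ t ≤ 4 * (4 / 5) ^ t := by
    have : (1 / 2 : ℝ) ^ t ≤ (4 / 5) ^ t := pow_le_pow_left₀ (by norm_num) (by norm_num) t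
    linarith [pow_pos (by norm_num : (0 : ℝ) < 4 / 5) t]
  generalize 4 * (4 / 5 : ℝ) ^ t = r at e1 hr1 hr2
  have hr0 : 0 < r := lt_of_lt_of_le (by positivity) hr2
  obtain ⟨s1, s2, s3, s4, s5, s6, s7, s8, s9, s10, s11, s12, s13⟩ :=
    num_small hx1 hr0 hG1 (by linarith : 1 ≤ L') hH00 e1
  have hrγ : 4 * r ≤ γ := by
    have : 4 * (1 / γ) * r ≤ 1 := le_trans (by gcongr) s2
    rwa [mul_one_div, div_mul_eq_mul_div, div_le_one hγ] at this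
  have ht0 : 0 < t := by omega
  have t1 : t ^ 98 * 16 ≤ t ^ 100 := by
    rw [pow_add t 98 2]
    exact Nat.mul_le_mul_left _ (Nat.pow_le_pow_left e10 2)
  have t2 : t ^ 98 * t * 4 ≤ t ^ 100 := by
    rw [← pow_succ, pow_succ t 99]
    exact Nat.mul_le_mul_left _ e10
  have t3 : t ≤ t ^ 100 := Nat.le_self_pow (by norm_num) t
  have t4 : 0 < t ^ 98 := by positivity
  have : Nonempty (Fin (t ^ 98)) := ⟨⟨0, t4⟩⟩
  have hcard : (Fintype.card (Fin (t ^ 98)) : ℝ) = (t : ℝ) ^ 98 := by simp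
  have hm1 : (1 : ℝ) ≤ (t : ℝ) ^ 98 := one_le_pow₀ hx1
  obtain ⟨sep, hsep⟩ : ∃ sep, sep = r / (4 * (t : ℝ) ^ 98) := ⟨_, rfl⟩
  have hsep0 : 0 < sep := by rw [hsep]; positivity
  have hsep1 : 6 * r ^ 2 ≤ sep := by
    rw [hsep, le_div_iff₀ (by positivity)]
    linarith [mul_le_mul_of_nonneg_right s3 hr0.le]
  have hsep2 : sep ≤ r := by
    rw [hsep, div_le_iff₀ (by positivity)]
    exact le_mul_of_one_le_right hr0.le (by linarith)
  have hrr : r ^ 2 ≤ r / 8 := by linarith [mul_le_mul_of_nonneg_right s1 hr0.le]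
  have hε : 0 < r ^ 2 := by positivity
  let y : Fin (t ^ 98) → ℝ := fun j => e - γ + j * sep
  have hy0 : ∀ j, |y j - (e - γ)| ≤ r / 4 := fun j => by
    have a1 : ((j : ℕ) : ℝ) ≤ (t : ℝ) ^ 98 := by exact_mod_cast j.2.le
    simp only [y, add_sub_cancel_left]
    rw [abs_of_nonneg (by positivity)]
    calc _ ≤ (t : ℝ) ^ 98 * sep := by gcongr
      _ = _ := by rw [hsep]; field_simp
  have hys : ∀ i j, i ≠ j → sep ≤ |y i - y j| := fun i j hij => by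
    have a1 : (1 : ℝ) ≤ |((i : ℕ) : ℝ) - (j : ℕ)| := by
      have : ((i : ℕ) : ℤ) - (j : ℕ) ≠ 0 := fun h => hij (Fin.ext (by omega))
      exact_mod_cast Int.one_le_abs this
    rw [show y i - y j = (((i : ℕ) : ℝ) - (j : ℕ)) * sep by simp only [y]; ring, abs_mul,
      abs_of_pos hsep0]
    exact le_mul_of_one_le_left hsep0.le a1
  have hyf : ∀ j, y j + γ / 2 ≤ e := fun j => by linarith [(abs_le.1 (hy0 j)).2]
  have hfar : ∀ j, ∀ x ∈ Set.Icc e 1, γ / 2 ≤ |x - y j| := fun j x hx =>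
    le_abs.2 (Or.inl (by linarith [hyf j, hx.1]))
  have he' : |e| < 1 := abs_lt.2 ⟨by linarith, he⟩
  obtain ⟨q, hq⟩ := hΦ.exists_onp (om y (r ^ 2)) (om_ne y _)
  obtain ⟨s, hs⟩ : ∃ s, 4 * t ^ 100 = 2 * t ^ 98 + s := ⟨4 * t ^ 100 - 2 * t ^ 98, by omega⟩
  obtain ⟨n, hn⟩ : ∃ n, n + 1 = 4 * t ^ 100 := ⟨4 * t ^ 100 - 1, by omega⟩
  have hs0 : 0 < s := by omega
  have hn1 : n + 1 = 2 * Fintype.card (Fin (t ^ 98)) + s := by rw [Fintype.card_fin]; omega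
  have hnr : ((n + 1 : ℕ) : ℝ) = 4 * (t : ℝ) ^ 100 := by rw [hn]; push_cast; rfl
  have hnr' : (n : ℝ) + 1 = 4 * (t : ℝ) ^ 100 := by exact_mod_cast hnr
  have hw := fun a => num_weight (by omega : 2 ≤ t) hg.le hβ e2 hr2 e3 e4 (k := s - 1) (by omega)
    (G := (GG y (r ^ 2) q s a).eval (atom y (r ^ 2) a)) (by
      have := weight2 hΦ he' y (r ^ 2) (γ / 2) sep hε (by linarith) (by linarith) (by linarith) hys
        (fun j => by linarith [(abs_le.1 (hy0 j)).1]) hyf hq hs0 a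
      rwa [Fintype.card_fin, show γ / 2 / 4 = γ / 8 by ring, hsep] at this)
  obtain ⟨C1, hC1, hT1⟩ := exists_bound (TT y (r ^ 2) q s)
  have hat : ∀ a, |atom y (r ^ 2) a - (e - γ)| ≤ r / 2 := fun a => by
    have := abs_add_le (y a.1 - (e - γ)) (sg a.2 * r ^ 2)
    rw [abs_mul, abs_sg, abs_of_pos hε] at this
    rw [atom, add_sub_right_comm]
    linarith [hy0 a.1]
  refine ⟨n, (t : ℝ) ^ 98, Fin (t ^ 98) × Bool, inferInstance, atom y (r ^ 2),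
    fun a => ((GG y (r ^ 2) q s a).eval (atom y (r ^ 2) a) ^ 2)⁻¹, r ^ 4, r ^ 2 / C1 ^ 2, by omega,
    ?_, by positivity, by positivity, fun a => ?_, fun a => by positivity, ?_, by positivity,
    fun Ψ hΨ p hp => ?_⟩
  · have a1 : (4 * k : ℝ) ≤ t := by exact_mod_cast e11
    have a2 : (t : ℝ) ≤ (t : ℝ) ^ 96 := le_self_pow₀ hx1 (by norm_num)
    calc (k : ℝ) * n ≤ k * (4 * (t : ℝ) ^ 100) := by gcongr; linarith
      _ = 4 * k * (t : ℝ) ^ 100 := by ring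
      _ ≤ (t : ℝ) ^ 96 * (t : ℝ) ^ 100 := by gcongr; linarith
      _ = _ := by ring
  · have : r ^ 4 ≤ r := pow_le_of_le_one hr0.le (by linarith) (by norm_num)
    linarith [hat a]
  · refine le_of_mul_le_mul_left ?_ (by positivity : 0 < 2 * (t : ℝ) ^ 98)
    rw [Finset.mul_sum]
    refine (Finset.sum_le_sum (fun a _ => (hw a).2)).trans (le_of_eq ?_)
    simp only [Finset.sum_const, Finset.card_univ, Fintype.card_prod, Fintype.card_bool,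
      Fintype.card_fin, nsmul_eq_mul]
    push_cast
    ring
  have hloc : Shape (TT y (r ^ 2) q s) (DD y (r ^ 2) q s) y (r ^ 2) (fun j => kdir q s (y j))
      (200 * G * (t : ℝ) ^ 196 * r) := by
    intro ξ j z hz
    obtain ⟨a1, a2⟩ := local_shape hΦ y (r ^ 2) (γ / 2) sep hε (by linarith) hsep1 hys hfar hq hs0
      ξ j z hz
    refine ⟨a1, a2.trans (mul_le_mul_of_nonneg_right ?_ (norm_nonneg _))⟩
    have a3 : 20 * r ^ 2 * (2 * (Fintype.card (Fin (t ^ 98)) : ℝ) / sep + 1 / (γ / 2))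
        = 160 * (1 * (t : ℝ) ^ 196 * r) + 40 * (1 / γ * 1 * r ^ 2) := by
      rw [hcard, hsep]; field_simp; ring
    have a4 : 1 * (t : ℝ) ^ 196 * r ≤ G * (t : ℝ) ^ 196 * r := by gcongr
    have a5 : 1 / γ * 1 * r ^ 2 ≤ G * (t : ℝ) ^ 196 * r := by
      gcongr
      · exact one_le_pow₀ hx1
      · linarith
    rw [a3]
    linarith
  have hp198 : (t : ℝ) ^ 98 ≤ (t : ℝ) ^ 198 := pow_le_pow_right₀ hx1 (by norm_num)
  have hg1 : ∀ ξ, |ideal Φ y (r ^ 2) q s (TT y (r ^ 2) q s ξ) - ‖ξ‖ ^ 2|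
      ≤ 24 * (G * (t : ℝ) ^ 198 * r ^ 2) * ‖ξ‖ ^ 2 := by
    intro ξ
    have a0 : 2 * r ^ 2 / (γ / 2) ≤ 4 * G * r ^ 2 := by
      rw [show 2 * r ^ 2 / (γ / 2) = 4 * (1 / γ) * r ^ 2 by field_simp; ring]
      gcongr
    refine (gram hΦ y (r ^ 2) (γ / 2) hε (by linarith) hfar hq hs0 (8 * G * (t : ℝ) ^ 98 * r ^ 2)
      (by positivity) ?_ (fun a => (hw a).1) ξ).trans (mul_le_mul_of_nonneg_right ?_ (sq_nonneg _))
    · rw [hcard]
      calc _ ≤ 2 * (t : ℝ) ^ 98 * (2 * (t : ℝ) ^ 98) * (4 * G * r ^ 2) ^ 2 := by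
            refine mul_le_mul (le_mul_of_one_le_right (by positivity) (by linarith))
              (pow_le_pow_left₀ (by positivity) a0 2) (by positivity) (by positivity)
        _ = _ := by ring
    · have a1 : G * (t : ℝ) ^ 98 * r ^ 2 ≤ G * (t : ℝ) ^ 198 * r ^ 2 := by gcongr
      have a2 := mul_le_mul_of_nonneg_left s6 (by positivity : 0 ≤ 8 * G * (t : ℝ) ^ 98 * r ^ 2)
      linarith
  have hpos : 0 ≤ G * (t : ℝ) ^ 198 * r ^ 2 := by positivity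
  have hg2 : ∀ ξ, |wform Ψ 1 (TT y (r ^ 2) q s ξ) (TT y (r ^ 2) q s ξ) - ‖ξ‖ ^ 2|
      ≤ 5000 * G * (t : ℝ) ^ 198 * r ^ 2 * ‖ξ‖ ^ 2 := by
    intro ξ
    have a1 := hΨ (TT y (r ^ 2) q s ξ) (C1 * ‖ξ‖) _ (hT1 ξ) (near_atom y (r ^ 2) hε
      (fun j => hq.norm_kdir hs0 _) s7 hloc n (by omega) (fun j => by
        have b1 := natDegree_mul_le (p := C ((r ^ 2) ^ 2) * Om y (r ^ 2) j) (q := KK q s (y j))
        have b2 := natDegree_C_mul_le ((r ^ 2) ^ 2) (Om y (r ^ 2) j)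
        have b3 := Om_deg y (r ^ 2) j
        have b4 : (KK q s (y j)).natDegree + 1 ≤ s := hq.comb_natDegree hs0 _
        unfold DD
        omega) (r ^ 4) (by
        rw [show r ^ 4 / r ^ 2 = r ^ 2 by field_simp]
        exact le_trans (by gcongr; linarith) s5) ξ)
    have a2 : ∑ a, ((GG y (r ^ 2) q s a).eval (atom y (r ^ 2) a) ^ 2)⁻¹ *
        (600 * (n * (r ^ 4 / r ^ 2)) * ‖ξ‖ ^ 2 * (GG y (r ^ 2) q s a).eval (atom y (r ^ 2) a) ^ 2)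
        = (t : ℝ) ^ 98 * 2 * (600 * (n * r ^ 2) * ‖ξ‖ ^ 2) := by
      rw [Finset.sum_congr rfl (g := fun _ => 600 * (n * r ^ 2) * ‖ξ‖ ^ 2) (fun a _ => by
        have := (hw a).1
        field_simp)]
      simp
    have a3 : r ^ 2 / C1 ^ 2 * (C1 * ‖ξ‖) ^ 2 = 1 * 1 * r ^ 2 * ‖ξ‖ ^ 2 := by field_simp
    have a4 : 1 * 1 * r ^ 2 * ‖ξ‖ ^ 2 ≤ G * (t : ℝ) ^ 198 * r ^ 2 * ‖ξ‖ ^ 2 := by
      gcongr
      exact one_le_pow₀ hx1
    have a5 : (t : ℝ) ^ 98 * 2 * (600 * (n * r ^ 2) * ‖ξ‖ ^ 2)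
        ≤ (t : ℝ) ^ 98 * 2 * (600 * (G * (4 * (t : ℝ) ^ 100) * r ^ 2) * ‖ξ‖ ^ 2) := by
      gcongr
      exact le_trans (by linarith) (le_mul_of_one_le_left (by positivity) hG1)
    have a6 := hg1 ξ
    have a7 := mul_nonneg hpos (sq_nonneg ‖ξ‖)
    rw [a2, a3] at a1
    rw [wform_apply, one_mul]
    rw [ideal] at a6
    rw [abs_le] at a1 a6 ⊢
    constructor <;> linarith [a1.1, a1.2, a6.1, a6.2]
  obtain ⟨g1, g2, g3, g4, g5, g6⟩ := num_grid hx4 hL0 hnr'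
  have hH1 : H0 ≤ H0 + r := by linarith
  have hω : 8 * ((2 * (t : ℝ) ^ 98 + 1) * (r / γ)) ≤ 24 * G * (t : ℝ) ^ 98 * r := by
    calc _ = 8 * (1 / γ) * (2 * (t : ℝ) ^ 98 + 1) * r := by ring
      _ ≤ 8 * G * (3 * (t : ℝ) ^ 98) * r := by gcongr; linarith
      _ = _ := by ring
  have hL'0 : 0 ≤ L' * (t : ℝ) ^ 50 := by rw [hL']; positivity
  have hfin := hmid Φ e τ (e - γ) γ r ((1 + e) / 2) (H0 + r) hΦ hτ hlo hup he' (by linarith)
    (by linarith) hr0 hrγ (by rw [hH0]; ring) (by rw [hH0]; ring) (Fin (t ^ 98)) y (r ^ 2) hε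
    (fun j => by linarith [hy0 j]) (fun i j hij => le_trans (by linarith) (hys i j hij)) q s n hq hs0
    hn1 (fun a => (hw a).1) _ p hp (5000 * G * (t : ℝ) ^ 198 * r ^ 2) _ (by linarith) s8
    (fun ξ => (hg1 ξ).trans (mul_le_mul_of_nonneg_right (by linarith) (sq_nonneg _))) hg2
    (by positivity) hloc t t (t ^ 100) (t ^ 125) (9 * t ^ 96) ((t : ℝ) ^ 50 / 28)
    (π / (t : ℝ) ^ 125) (1 / (t : ℝ) ^ 4) (1 / (t : ℝ) ^ 30) (1 / (t : ℝ) ^ 126) (L' * (t : ℝ) ^ 50)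
    L ((t : ℝ) ^ 94) ((t : ℝ) ^ 94) (24 * G * (t : ℝ) ^ 98 * r) hr1
    (by rw [hnr]; exact s4.trans hH1) (by rw [hcard]; exact e2)
    (by rw [Fintype.card_fin, mul_assoc]; omega) (by positivity) (by rw [Nat.cast_pow]; exact g1)
    (by positivity) (by rw [Nat.cast_pow]; exact g2) (by rw [hnr]; exact g3) g4
    (by rw [hnr]; exact_mod_cast g5) (by positivity) (by positivity) hL0 hLΛ hL'0
    (by rw [hL']; exact g6) (le_trans (by gcongr) s10)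
    (by rw [hnr]; exact num2 hx1 hτ hH00 hH1 e5) (num3 hx1 hτ hH00 hH1 e6)
    (by rw [hnr]; exact num4 hx1 hτ hH00 hH1 e7) (by rw [hcard]; exact hω) s9 s11 s12 s13
    (by rw [Nat.cast_pow]; linarith only [num8 hx1 hη'0 e8, hLη])
    (by rw [hcard]; push_cast; linarith only [num9 hx1 hL0 (half_pos hc0) e9])
  rw [hcard] at hfin
  obtain ⟨u, hu⟩ := hfin.2
  exact ⟨hfin.1, u, hu.trans hη1⟩

end Pool.Agent.MP_f6b137_pr.H26
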