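import Mathlib
import Pool.Agent.MP_f6b137_pr.H26.Core

set_option autoImplicit false

open Finset Polynomial ProbabilityTheory Filter Topology intervalIntegral
open MeasureTheory (volume)

namespace Pool.Agent.MP_f6b137_pr.H26

open H13

/-- Integration against a continuous weight on an interval. -/
noncomputable def ifn {w : ℝ → ℝ} (hw : Continuous w) (a b : ℝ) : ℝ[X] →ₗ[ℝ] ℝ where
  toFun P := ∫ x in a..b, P.eval x * w x
  map_add' P Q := by
    simp only [eval_add, add_mul]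
    exact integral_add (Continuous.intervalIntegrable (by fun_prop) _ _)
      (Continuous.intervalIntegrable (by fun_prop) _ _)
  map_smul' c P := by simp [mul_assoc]

lemma ifn_apply {w : ℝ → ℝ} (hw : Continuous w) (a b : ℝ) (P : ℝ[X]) :
    ifn hw a b P = ∫ x in a..b, P.eval x * w x := rfl

lemma ifn_pos {w : ℝ → ℝ} (hw : Continuous w) {a b : ℝ} (hab : a < b)
    (h0 : ∀ x ∈ Set.Icc a b, 0 ≤ w x) (h1 : ∀ x ∈ Set.Ioo a b, 0 < w x) (P : ℝ[X]) (hP : P ≠ 0) :
    0 < ifn hw a b (P * P) := by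
  obtain ⟨c, hc, hc'⟩ := (Set.Ioo_infinite hab).exists_notMem_finite (finite_setOfPred_isRoot hP)
  have := integral_lt_integral_of_continuousOn_of_le_of_exists_lt (f := fun _ => (0 : ℝ))
    (g := fun x => (P * P).eval x * w x) hab continuousOn_const (by fun_prop)
    (fun x hx => mul_nonneg (by rw [eval_mul]; exact mul_self_nonneg _)
      (h0 x (Set.Ioc_subset_Icc_self hx)))
    ⟨c, Set.Ioo_subset_Icc_self hc, mul_pos (by rw [eval_mul]; exact mul_self_pos.2 hc') (h1 c hc)⟩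
  simpa [ifn_apply] using this

/-- The left end of the main support at stage `k`. -/
noncomputable def ee (k : ℕ) : ℝ := -1 + 1 / ((k : ℝ) + 1)

lemma ee_gt (k : ℕ) : -1 < ee k := lt_add_of_pos_right _ (by positivity)

lemma ee_le (k : ℕ) : ee k ≤ 0 := by
  have : 1 / ((k : ℝ) + 1) ≤ 1 := by
    rw [div_le_one (by positivity)]; linarith [Nat.cast_nonneg (α := ℝ) k]
  unfold ee; linarith

lemma ee_lt (k : ℕ) : ee (k + 1) < ee k := by
  unfold ee
  push_cast
  gcongr
  linarith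

/-- The invariant of the construction. -/
def Inv (k : ℕ) (F : ℝ → ℝ) (b : ℝ) : Prop :=
  (∀ i : ℕ, ContDiff ℝ i F) ∧ (∀ x, 0 ≤ F x) ∧ (∀ x ≤ ee k, F x = 0) ∧ 0 < b ∧ ∀ x, F x + b ≤ 1 / 2

/-- What stage `k` achieves. -/
def Done (p0 c0 : ℝ) (k : ℕ) {w : ℝ → ℝ} (hw : Continuous w) : Prop :=
  ∀ p, IsONP (wform (ifn hw (-1) 1) 1) p → ∃ (n : ℕ) (m : ℝ), k ≤ n ∧ (k : ℝ) * n ≤ m ^ 2 ∧ 0 < m ∧
    Two (stdGaussian (EuclideanSpace ℝ (Fin (n + 1)))) (cnt p n) m p0 c0 (1 / ((k : ℝ) + 1))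

theorem step : ∃ p0 c0 : ℝ, 0 < p0 ∧ 0 < c0 ∧ ∀ (k : ℕ) (F : ℝ → ℝ) (b : ℝ), Inv k F b →
    ∃ (u : ℝ → ℝ) (b' : ℝ), (∀ i : ℕ, ContDiff ℝ i u) ∧ (∀ x, 0 ≤ u x ∧ u x ≤ b / 2) ∧
      (∀ x, ee k ≤ x → u x = b / 4) ∧ (∀ x ≤ ee (k + 1), u x = 0) ∧ 0 < b' ∧ b' ≤ b / 2 ∧
      ∀ (w : ℝ → ℝ) (hw : Continuous w), (∀ x, F x + u x ≤ w x ∧ w x ≤ F x + u x + b') →
        Done p0 c0 k hw := by
  obtain ⟨p0, c0, hp0, hc0, hcore⟩ := core
  refine ⟨p0, c0, hp0, hc0, fun k F b ⟨hF, hF0, hFe, hb, hFb⟩ => ?_⟩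
  have hFc : Continuous F := (hF 0).continuous
  have hf : Continuous (fun x => F x + b / 4) := by fun_prop
  have h1 := ee_gt (k + 1)
  have h2 := ee_lt k
  have h3 := ee_le k
  generalize ee (k + 1) = e' at h1 h2 ⊢
  have hDone : ∀ {w : ℝ → ℝ} (hw : Continuous w), Done p0 c0 k hw ↔ _ := fun hw => Iff.rfl
  generalize ee k = e at h2 h3 hFe ⊢
  have he1 : e ≤ 1 := by linarith
  have hint : ∀ g : ℝ → ℝ, Continuous g → ∀ a b, IntervalIntegrable g volume a b :=
    fun g hg a b => hg.intervalIntegrable a b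
  obtain ⟨n, m, A, _, x, wt, δ, γ', a1, a2, a3, hδ, hx, hwt, hsum, hγ', hmain⟩ :=
    hcore (ifn hf e 1) e (b / 4) ((e - e') / 2)
      ⟨fun P hP => integral_nonneg he1 (fun x hx => mul_nonneg (hP x hx) (by linarith [hF0 x])),
        ifn_pos hf (by linarith) (fun x _ => by linarith [hF0 x]) (fun x _ => by linarith [hF0 x]),
        by
          have := integral_mono_on he1 (hint (fun x => (1 : ℝ[X]).eval x * (F x + b / 4))
            (by fun_prop) _ _) (hint (fun _ => 1 / 2) continuous_const _ _)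
            (fun x _ => by rw [eval_one]; linarith [hFb x])
          rw [integral_const, smul_eq_mul] at this
          rw [ifn_apply]
          linarith⟩ (by positivity)
      (fun P => by
        rw [ifn_apply, ← integral_const_mul]
        refine integral_mono_on he1 (hint _ (by fun_prop) _ _) (hint _ (by fun_prop) _ _)
          (fun x _ => ?_)
        rw [eval_mul]
        nlinarith [mul_nonneg (hF0 x) (sq_nonneg (P.eval x))])
      (fun P => by
        rw [ifn_apply]
        refine integral_mono_on he1 (hint _ (by fun_prop) _ _) (hint _ (by fun_prop) _ _)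
          (fun x _ => ?_)
        rw [eval_mul, ← sq]
        exact mul_le_of_le_one_right (sq_nonneg _) (by linarith [hFb x]))
      (by linarith) (by linarith) (by linarith) (b / 4) (1 / ((k : ℝ) + 1)) k (by positivity)
      (by positivity)
  obtain ⟨ρ, hρ, hρ1, hρ2⟩ : ∃ ρ : ℝ, 0 < ρ ∧ ρ ≤ e - e' ∧ ρ ≤ γ' / 2 :=
    ⟨min (e - e') (γ' / 2), lt_min (by linarith) (by linarith), min_le_left _ _, min_le_right _ _⟩
  let φ : ∀ a, ContDiffBump (x a) := fun a => ⟨δ / 2, δ, by linarith, by linarith⟩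
  have φ0 : ∀ a t, 0 ≤ (φ a).normed volume t := fun a t => (φ a).nonneg_normed t
  have φ1 : ∀ a t, (φ a).normed volume t ≤ 1 / δ := fun a t => by
    have := (φ a).normed_le_div_measure_closedBall_rIn volume t
    rwa [Real.volume_real_closedBall (by simp only [φ]; linarith),
      show 2 * (φ a).rIn = δ by simp only [φ]; ring] at this
  have φ2 : ∀ a t, (φ a).normed volume t ≠ 0 → |t - x a| < δ := fun a t ht => by
    have : t ∈ Function.support ((φ a).normed volume) := ht
    rwa [(φ a).support_normed_eq, Metric.mem_ball, Real.dist_eq] at this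
  have φ3 : ∀ a t, (φ a).normed volume t ≠ 0 → e' < t ∧ t < e := fun a t ht => by
    have b1 := abs_lt.1 (φ2 a t ht)
    have b2 := abs_le.1 (le_sub_iff_add_le.2 (hx a))
    constructor <;> linarith [b1.1, b1.2, b2.1, b2.2]
  have φ4 : ∀ a, ∫ t in (-1 : ℝ)..1, (φ a).normed volume t = 1 := fun a => by
    rw [integral_eq_integral_of_support_subset (fun t ht =>
      ⟨by linarith [(φ3 a t ht).1], by linarith [(φ3 a t ht).2]⟩), (φ a).integral_normed]
  have φ5 : ∀ t, t ≤ e' ∨ e ≤ t → ∑ a, wt a * (φ a).normed volume t = 0 := fun t ht =>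
    Finset.sum_eq_zero (fun a _ => mul_eq_zero_of_right _ (by
      by_contra h
      rcases ht with ht | ht <;> linarith [(φ3 a t h).1, (φ3 a t h).2]))
  have φc : ∀ a, Continuous ((φ a).normed volume) := fun a => (φ a).continuous_normed
  let χ : ℝ → ℝ := fun t => Real.smoothTransition ((t - (e - ρ)) / ρ)
  have χ0 : ∀ t ≤ e - ρ, χ t = 0 := fun t ht => Real.smoothTransition.zero_of_nonpos
    (div_nonpos_of_nonpos_of_nonneg (by linarith) hρ.le)
  have χ1 : ∀ t, e ≤ t → χ t = 1 := fun t ht => Real.smoothTransition.one_of_one_le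
    (by rw [le_div_iff₀ hρ]; linarith)
  have χ2 : ∀ t, 0 ≤ χ t ∧ χ t ≤ 1 := fun t =>
    ⟨Real.smoothTransition.nonneg _, Real.smoothTransition.le_one _⟩
  have χd : ∀ i : ℕ, ContDiff ℝ i χ := fun i =>
    (Real.smoothTransition.contDiff (n := i)).comp (by fun_prop)
  have χc : Continuous χ := (χd 0).continuous
  refine ⟨fun t => b / 4 * χ t + ∑ a, wt a * (φ a).normed volume t, min (b / 2) (γ' / 4),
    fun i => (contDiff_const.mul (χd i)).add (ContDiff.sum (fun a _ => contDiff_const.mul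
      ((φ a).contDiff_normed (n := i)))), fun t => ⟨?_, ?_⟩, fun t ht => ?_, fun t ht => ?_,
    lt_min (by linarith) (by linarith), min_le_left _ _, fun w hw hww => (hDone hw).2
      (fun p hp => ⟨n, m, a1, a2, a3, hmain _ (fun P C D hC hD => ?_) p hp⟩)⟩
  · exact add_nonneg (mul_nonneg (by linarith) (χ2 t).1)
      (Finset.sum_nonneg (fun a _ => mul_nonneg (hwt a) (φ0 a t)))
  · have b1 : ∑ a, wt a * (φ a).normed volume t ≤ (∑ a, wt a) * (1 / δ) := by
      rw [Finset.sum_mul]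
      exact Finset.sum_le_sum (fun a _ => mul_le_mul_of_nonneg_left (φ1 a t) (hwt a))
    have b2 : (∑ a, wt a) * (1 / δ) ≤ b / 4 := by rwa [mul_one_div, div_le_iff₀ hδ]
    nlinarith [(χ2 t).2]
  · simp only [χ1 t ht, φ5 t (Or.inr ht), mul_one, add_zero]
  · simp only [χ0 t (by linarith), φ5 t (Or.inl ht), mul_zero, add_zero]
  have hsq : ∀ t ∈ Set.Icc (-1 : ℝ) 1, P.eval t ^ 2 ≤ C ^ 2 := fun t ht => by
    rw [← sq_abs]
    exact pow_le_pow_left₀ (abs_nonneg _) (hC t ht) 2
  let g : ℝ → ℝ := fun t => P.eval t ^ 2 * (F t + b / 4 * χ t)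
  let rem : ℝ → ℝ := fun t => w t - (F t + (b / 4 * χ t + ∑ a, wt a * (φ a).normed volume t))
  have gc : Continuous g := by simp only [g]; fun_prop
  have rc : Continuous rem := by simp only [rem]; fun_prop
  have e1 : ifn hw (-1) 1 (P * P) = (∫ t in (-1 : ℝ)..1, g t)
      + (∑ a, wt a * ∫ t in (-1 : ℝ)..1, P.eval t ^ 2 * (φ a).normed volume t)
      + ∫ t in (-1 : ℝ)..1, P.eval t ^ 2 * rem t := by
    simp_rw [← integral_const_mul]
    rw [← integral_finsetSum (fun a _ => hint _ (by fun_prop) _ _),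
      ← integral_add (hint _ gc _ _) (hint _ (by fun_prop) _ _),
      ← integral_add (hint _ (by fun_prop) _ _) (hint _ (by fun_prop) _ _), ifn_apply]
    refine integral_congr (fun t _ => ?_)
    simp only [g, rem, eval_mul, mul_left_comm (wt _), ← Finset.mul_sum]
    ring
  have e2 : ∫ t in (-1 : ℝ)..1, g t = (∫ t in (e - ρ)..e, g t) + ifn hf e 1 (P * P) := by
    rw [← integral_add_adjacent_intervals (b := e) (hint _ gc _ _) (hint _ gc _ _),
      ← integral_add_adjacent_intervals (a := -1) (b := e - ρ) (hint _ gc _ _) (hint _ gc _ _),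
      integral_congr (a := -1) (g := fun _ => 0) (fun t ht => by
        rw [Set.uIcc_of_le (by linarith)] at ht
        simp only [g, hFe t (by linarith [ht.2]), χ0 t ht.2, mul_zero, add_zero]),
      integral_zero, zero_add, ifn_apply]
    refine congrArg _ (integral_congr (fun t ht => ?_))
    rw [Set.uIcc_of_le he1] at ht
    simp only [g, χ1 t ht.1, eval_mul, mul_one, sq]
  have e3 : 0 ≤ ∫ t in (e - ρ)..e, g t := integral_nonneg (by linarith) (fun t _ =>
    mul_nonneg (sq_nonneg _) (add_nonneg (hF0 t) (mul_nonneg (by linarith) (χ2 t).1)))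
  have e4 := integral_mono_on (by linarith : e - ρ ≤ e) (hint _ gc _ _)
    (hint (fun _ => C ^ 2) continuous_const _ _) (fun t ht => le_trans (mul_le_of_le_one_right
      (sq_nonneg _) (by nlinarith [hFb t, (χ2 t).2])) (hsq t ⟨by linarith [ht.1], by linarith [ht.2]⟩))
  have e5 : 0 ≤ ∫ t in (-1 : ℝ)..1, P.eval t ^ 2 * rem t := integral_nonneg (by norm_num)
    (fun t _ => mul_nonneg (sq_nonneg _) (sub_nonneg.2 (hww t).1))
  have e6 := integral_mono_on (by norm_num : (-1 : ℝ) ≤ 1)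
    (hint (fun t => P.eval t ^ 2 * rem t) (by fun_prop) _ _)
    (hint (fun _ => C ^ 2 * (γ' / 4)) continuous_const _ _) (fun t ht => mul_le_mul (hsq t ht)
      (by simp only [rem]; linarith [(hww t).2, min_le_right (b / 2) (γ' / 4)])
      (sub_nonneg.2 (hww t).1) (sq_nonneg _))
  rw [integral_const, smul_eq_mul] at e4 e6
  have e7 : ∀ a, |(∫ t in (-1 : ℝ)..1, P.eval t ^ 2 * (φ a).normed volume t) - P.eval (x a) ^ 2|
      ≤ D a := by
    intro a
    have := φc a
    have b0 : ∀ c : ℝ, ∫ t in (-1 : ℝ)..1, c * (φ a).normed volume t = c := fun c => by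
      rw [integral_const_mul, φ4, mul_one]
    have b1 : ∀ t, (P.eval (x a) ^ 2 - D a) * (φ a).normed volume t
        ≤ P.eval t ^ 2 * (φ a).normed volume t ∧ P.eval t ^ 2 * (φ a).normed volume t
        ≤ (P.eval (x a) ^ 2 + D a) * (φ a).normed volume t := fun t => by
      by_cases h : (φ a).normed volume t = 0
      · simp [h]
      · have := abs_le.1 (hD a t (φ2 a t h).le)
        exact ⟨mul_le_mul_of_nonneg_right (by linarith) (φ0 a t),
          mul_le_mul_of_nonneg_right (by linarith) (φ0 a t)⟩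
    have b2 := integral_mono_on (by norm_num : (-1 : ℝ) ≤ 1) (hint _ (by fun_prop) _ _)
      (hint _ (by fun_prop) _ _) (fun t _ => (b1 t).1)
    have b3 := integral_mono_on (by norm_num : (-1 : ℝ) ≤ 1) (hint _ (by fun_prop) _ _)
      (hint _ (by fun_prop) _ _) (fun t _ => (b1 t).2)
    rw [b0] at b2 b3
    exact abs_le.2 ⟨by linarith, by linarith⟩
  have e8 : |∑ a, wt a * (∫ t in (-1 : ℝ)..1, P.eval t ^ 2 * (φ a).normed volume t)
      - ∑ a, wt a * P.eval (x a) ^ 2| ≤ ∑ a, wt a * D a := by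
    rw [← Finset.sum_sub_distrib]
    refine (Finset.abs_sum_le_sum_abs _ _).trans (Finset.sum_le_sum (fun a _ => ?_))
    rw [← mul_sub, abs_mul, abs_of_nonneg (hwt a)]
    exact mul_le_mul_of_nonneg_left (e7 a) (hwt a)
  have e9 := mul_le_mul_of_nonneg_right hρ2 (sq_nonneg C)
  have e10 := mul_nonneg hγ'.le (sq_nonneg C)
  rw [e1, e2]
  rw [abs_le] at e8 ⊢
  constructor <;> linarith [e8.1, e8.2]

theorem exists_weight : ∃ (w : ℝ → ℝ) (hw : Continuous w),
    (∀ i : ℕ, ContDiffOn ℝ i w (Set.Ioi (-1))) ∧ (∀ x, -1 < x → 0 < w x) ∧ w (-1) = 0 ∧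
    ∃ p0 c0 : ℝ, 0 < p0 ∧ 0 < c0 ∧ ∀ k, Done p0 c0 k hw := by
  obtain ⟨p0, c0, hp0, hc0, hstep⟩ := step
  choose! u b' hu using hstep
  let S : ℕ → (ℝ → ℝ) × ℝ := fun k => Nat.rec (fun _ => 0, 1 / 2)
    (fun k s => (fun x => s.1 x + u k s.1 s.2 x, b' k s.1 s.2)) k
  have hS1 : ∀ k x, (S (k + 1)).1 x = (S k).1 x + u k (S k).1 (S k).2 x := fun _ _ => rfl
  have hS2 : ∀ k, (S (k + 1)).2 = b' k (S k).1 (S k).2 := fun _ => rfl
  have hI : ∀ k, Inv k (S k).1 (S k).2 := by
    intro k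
    induction k with
    | zero => exact ⟨fun _ => contDiff_const, fun _ => le_rfl, fun _ _ => rfl, by simp [S],
        fun _ => by simp [S]⟩
    | succ k ih =>
      obtain ⟨u1, u2, -, u4, u5, u6, -⟩ := hu k _ _ ih
      obtain ⟨i1, i2, i3, i4, i5⟩ := ih
      refine ⟨fun i => (i1 i).add (u1 i), fun x => add_nonneg (i2 x) (u2 x).1, fun x hx => ?_, u5,
        fun x => ?_⟩
      · rw [hS1, u4 x hx, i3 x (hx.trans (ee_lt k).le), add_zero]
      · rw [hS1, hS2]; linarith [(u2 x).2, i5 x]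
  have hU := fun k => hu k _ _ (hI k)
  have m1 : ∀ x, Monotone (fun k => (S k).1 x) := fun x => monotone_nat_of_le_succ (fun k => by
    rw [hS1]; linarith [((hU k).2.1 x).1])
  have m2 : ∀ x, Antitone (fun k => (S k).1 x + (S k).2) := fun x =>
    antitone_nat_of_succ_le (fun k => by
      rw [hS1, hS2]; linarith [((hU k).2.1 x).2, (hU k).2.2.2.2.2.1])
  have m3 : ∀ x k j, (S j).1 x ≤ (S k).1 x + (S k).2 := fun x k j => by
    have a1 := m1 x (le_max_left j k)
    have a2 := m2 x (le_max_right j k)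
    have a3 := (hI (max j k)).2.2.2.1
    linarith
  have w1 : ∀ x k, (S k).1 x ≤ ⨆ j, (S j).1 x := fun x k =>
    le_ciSup (f := fun j => (S j).1 x) ⟨_, Set.forall_mem_range.2 (m3 x 0)⟩ k
  have w2 : ∀ x k, ⨆ j, (S j).1 x ≤ (S k).1 x + (S k).2 := fun x k => ciSup_le (m3 x k)
  have hb : Tendsto (fun k => (S k).2) atTop (𝓝 0) := by
    refine squeeze_zero (fun k => (hI k).2.2.2.1.le) (fun k => ?_)
      (tendsto_pow_atTop_nhds_zero_of_lt_one (by norm_num : (0 : ℝ) ≤ 1 / 2) (by norm_num))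
    induction k with
    | zero => simp [S]; norm_num
    | succ k ih => rw [hS2, pow_succ]; linarith [(hU k).2.2.2.2.2.1]
  have hunif : TendstoUniformly (fun k => (S k).1) (fun x => ⨆ j, (S j).1 x) atTop :=
    Metric.tendstoUniformly_iff.2 (fun ε hε => (hb.eventually (gt_mem_nhds hε)).mono
      (fun k hk x => by
        rw [Real.dist_eq, abs_lt]
        constructor <;> linarith [w1 x k, w2 x k]))
  have hw : Continuous (fun x => ⨆ j, (S j).1 x) :=
    hunif.continuous (Frequently.of_forall (fun k => ((hI k).1 0).continuous))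
  have hk : ∀ x : ℝ, -1 < x → ∃ k, ee k < x := fun x hx => by
    obtain ⟨k, hk⟩ := exists_nat_one_div_lt (by linarith : 0 < x + 1)
    exact ⟨k, by unfold ee; linarith⟩
  have hanti : Antitone ee := antitone_nat_of_succ_le (fun k => (ee_lt k).le)
  refine ⟨_, hw, fun i x hx => ?_, fun x hx => ?_, ?_, p0, c0, hp0, hc0, fun k =>
    (hU k).2.2.2.2.2.2 _ hw (fun x => ⟨w1 x (k + 1), w2 x (k + 1)⟩)⟩
  · obtain ⟨k, hk⟩ := hk x hx
    have a1 : ∀ y, ee k ≤ y → ∀ j, k ≤ j → (S j).1 y = (S k).1 y + ((S j).1 x - (S k).1 x) := by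
      intro y hy j hj
      induction j, hj using Nat.le_induction with
      | base => ring
      | succ j hj ih =>
        rw [hS1, hS1, ih, (hU j).2.2.1 y ((hanti hj).trans hy),
          (hU j).2.2.1 x ((hanti hj).trans hk.le)]
        ring
    have a2 : ∀ y, ee k ≤ y →
        ⨆ j, (S j).1 y = (S k).1 y + ((⨆ j, (S j).1 x) - (S k).1 x) := fun y hy =>
      tendsto_nhds_unique (hunif.tendsto_at y) (((((hunif.tendsto_at x).sub_const _).const_add
        _)).congr' ((eventually_ge_atTop k).mono (fun j hj => (a1 y hy j hj).symm)))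
    refine (ContDiffAt.congr_of_eventuallyEq (((hI k).1 i).add contDiff_const).contDiffAt
      ((eventually_ge_nhds hk).mono a2)).contDiffWithinAt
  · obtain ⟨k, hk⟩ := hk x hx
    have a1 := w1 x (k + 1)
    rw [hS1, (hU k).2.2.1 x hk.le] at a1
    linarith [(hI k).2.1 x, (hI k).2.2.2.1]
  · simp only [fun j => (hI j).2.2.1 (-1) (ee_gt j).le, ciSup_const]

end Pool.Agent.MP_f6b137_pr.H26
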