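import Mathlib
import Pool.Agent.MP_f6b137_pr.H47.Fin
import Pool.Agent.MP_f6b137_pr.H26.Stage

set_option autoImplicit false

open MeasureTheory ProbabilityTheory Filter Topology

namespace Pool.Agent.MP_f6b137_pr.H26

lemma Two.mono {Ω : Type} [MeasurableSpace Ω] {μ : Measure Ω} {N : Ω → ℝ} {m p c η η' : ℝ}
    (h : Two μ N m p c η) (hη : η ≤ η') : Two μ N m p c η' :=
  ⟨h.1, h.2.imp (fun _ hu => hu.trans hη)⟩

theorem final :
    ∃ w : ℝ → ℝ, Continuous w ∧ (∀ i : ℕ, ContDiffOn ℝ i w (Set.Ioi (-1))) ∧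
      (∀ x, -1 < x → 0 < w x) ∧ w (-1) = 0 ∧
      (∃ p : ℕ → Polynomial ℝ, (∀ k, (p k).natDegree = k) ∧ (∀ k, 0 < (p k).leadingCoeff) ∧
        ∀ j k, ∫ x in (-1 : ℝ)..1, (p j).eval x * (p k).eval x * w x
          = if j = k then (1 : ℝ) else 0) ∧
      ∀ p : ℕ → Polynomial ℝ, (∀ k, (p k).natDegree = k) → (∀ k, 0 < (p k).leadingCoeff) →
        (∀ j k, ∫ x in (-1 : ℝ)..1, (p j).eval x * (p k).eval x * w x
          = if j = k then (1 : ℝ) else 0) →
      ∀ (Ω : Type) [MeasurableSpace Ω] (P : Measure Ω) [IsProbabilityMeasure P]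
        (a : ℕ → Ω → ℝ), (∀ k, P.map (a k) = gaussianReal 0 1) → iIndepFun a P →
      ∀ N : ℕ → Ω → ℝ, (∀ n ω, N n ω =
        (((∑ k ∈ Finset.range (n + 1), Polynomial.C (a k ω) * p k).roots.toFinset.card : ℕ) : ℝ)) →
      (∀ n, AEMeasurable (N n) P) ∧ (∀ K : ℝ, ∃ᶠ n : ℕ in atTop, K * n ≤ variance (N n) P) ∧
      ∀ m σ : ℕ → ℝ, ¬ TendstoInDistribution (fun n ω => (N n ω - m n) / σ n) atTop id
        (fun _ => P) (gaussianReal 0 1) := by
  obtain ⟨w, hw, hw1, hw2, hw3, p0, c0, hp0, hc0, hbig⟩ := exists_weight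
  have hform : ∀ P Q : Polynomial ℝ, H13.wform (ifn hw (-1) 1) 1 P Q
      = ∫ x in (-1 : ℝ)..1, P.eval x * Q.eval x * w x := fun P Q => by
    rw [H13.wform_apply, ifn_apply]
    simp
  obtain ⟨q, hq⟩ := H13.exists_onp (H13.wform (ifn hw (-1) 1) 1)
    (fun P Q => by rw [H13.wform_apply, H13.wform_apply, mul_comm])
    (fun P hP => by
      rw [H13.wform_apply, one_mul]
      refine ifn_pos hw (by norm_num) (fun x hx => ?_) (fun x hx => hw2 x hx.1) P hP
      rcases hx.1.eq_or_lt with h | h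
      · rw [← h, hw3]
      · exact (hw2 x h).le)
  refine ⟨w, hw, hw1, hw2, hw3, ⟨q, hq.deg, hq.pos, fun j k => by rw [← hform, hq.on]⟩, ?_⟩
  intro p h1 h2 h3 Ω _ P _ a hlaw hind N hN
  have hp : H13.IsONP (H13.wform (ifn hw (-1) 1) 1) p := ⟨h1, h2, fun j k => by rw [hform, h3]⟩
  have ha : ∀ k, AEMeasurable (a k) P := fun k =>
    AEMeasurable.of_map_ne_zero (by rw [hlaw]; exact IsProbabilityMeasure.ne_zero _)
  let b : ℕ → Ω → ℝ := fun k => (ha k).mk _
  have hb : ∀ k, Measurable (b k) := fun k => (ha k).measurable_mk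
  have hab : ∀ k, a k =ᵐ[P] b k := fun k => (ha k).ae_eq_mk
  have hindb : iIndepFun b P := (iIndepFun_congr hab).1 hind
  have hlawb : ∀ k, P.map (b k) = gaussianReal 0 1 := fun k => by
    rw [← Measure.map_congr (hab k), hlaw]
  let ξ : ∀ n : ℕ, Ω → EuclideanSpace ℝ (Fin (n + 1)) :=
    fun n ω => WithLp.toLp 2 (fun k : Fin (n + 1) => b k ω)
  have hcomb : ∀ n (c : EuclideanSpace ℝ (Fin (n + 1))), H13.comb p (n + 1) c
      = ∑ k : Fin (n + 1), Polynomial.C (c k) * p k := fun n c => by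
    rw [H13.comb_apply]
    simp [Polynomial.smul_eq_C_mul]
  have hvec : ∀ n, Measurable (fun ω (k : Fin (n + 1)) => b k ω) := fun n =>
    measurable_pi_lambda _ (fun k => hb k)
  have hξ : ∀ n, Measurable (ξ n) := fun n => by have := hvec n; simp only [ξ]; fun_prop
  have hcnt : ∀ n, Measurable (cnt p n) := fun n => by
    unfold cnt
    simp only [hcomb]
    exact measurable_from_top.comp ((H47.measurable_count p (n + 1)).comp (by fun_prop))
  have hN' : ∀ n, Measurable (fun ω => cnt p n (ξ n ω)) := fun n => (hcnt n).comp (hξ n)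
  have hNN : ∀ n, (fun ω => cnt p n (ξ n ω)) =ᵐ[P] N n := fun n => by
    filter_upwards [ae_all_iff.2 hab] with ω hω
    simp only [cnt, ξ, hcomb, hN, hω]
    rw [Fin.sum_univ_eq_sum_range (fun k => Polynomial.C (b k ω) * p k)]
  have hlaw' : ∀ n, P.map (ξ n) = stdGaussian _ := fun n => by
    have h4 := (iIndepFun_iff_map_fun_eq_pi_map (fun k => (hb _).aemeasurable)).1
      (hindb.precomp (g := fun k : Fin (n + 1) => (k : ℕ)) Fin.val_injective)
    simp only [hlawb] at h4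
    rw [← map_pi_eq_stdGaussian, ← h4, Measure.map_map (by fun_prop) (hvec n)]
    rfl
  have hmain : ∀ k : ℕ, ∃ (n : ℕ) (m : ℝ), k ≤ n ∧ (k : ℝ) * n ≤ m ^ 2 ∧ 0 < m ∧
      Two P (fun ω => cnt p n (ξ n ω)) m p0 c0 (1 / ((k : ℝ) + 1)) := fun k => by
    obtain ⟨n, m, a1, a2, a3, a4⟩ := hbig k p hp
    exact ⟨n, m, a1, a2, a3, Two.map P (ξ n) (hξ n) _ (hcnt n) (by rwa [hlaw'])⟩
  refine ⟨fun n => (hN' n).aemeasurable.congr (hNN n), fun K => frequently_atTop.2 (fun k => ?_),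
    fun m σ h => no_clt P _ hN' p0 c0 hp0 hc0 (fun η hη => frequently_atTop.2 (fun k => ?_)) m σ
      (h.congr (fun n => ?_) (Eventually.of_forall (fun _ => rfl)))⟩
  · obtain ⟨j, hj⟩ := exists_nat_ge (K / (p0 * (c0 / 2) ^ 2))
    obtain ⟨n, m, a1, a2, a3, a4⟩ := hmain (max k j)
    refine ⟨n, (le_max_left _ _).trans a1, ?_⟩
    rw [← variance_congr (hNN n)]
    refine le_trans ?_ (a4.variance P _ (hN' n) n (fun ω => ?_) (by positivity))
    · have b1 : (j : ℝ) ≤ (max k j : ℕ) := by exact_mod_cast le_max_right k j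
      rw [div_le_iff₀ (by positivity)] at hj
      calc K * n ≤ (max k j : ℕ) * (p0 * (c0 / 2) ^ 2) * n := by
            gcongr
            exact hj.trans (by gcongr)
        _ = p0 * (c0 / 2) ^ 2 * ((max k j : ℕ) * n) := by ring
        _ ≤ p0 * (c0 / 2) ^ 2 * m ^ 2 := by gcongr
        _ = _ := by ring
    · rw [cnt, Nat.abs_cast]
      exact Nat.cast_le.2 ((Multiset.toFinset_card_le _).trans ((Polynomial.card_roots' _).trans
        (Nat.le_of_succ_le_succ (hp.comb_natDegree (Nat.succ_pos n) _))))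
  · obtain ⟨j, hj⟩ := exists_nat_one_div_lt hη
    obtain ⟨n, m, a1, -, a3, a4⟩ := hmain (max k j)
    refine ⟨n, (le_max_left _ _).trans a1, m, a3, a4.mono (le_trans ?_ hj.le)⟩
    have b1 : (j : ℝ) ≤ (max k j : ℕ) := by exact_mod_cast le_max_right k j
    gcongr
  · filter_upwards [hNN n] with ω hω
    rw [hω]

end Pool.Agent.MP_f6b137_pr.H26
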